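import Pool.Agent.H52.VC.Defs

set_option autoImplicit false

/-!
PROJECT VC (MP_bf82d2_ag), module Fex.
Invariant symmetric forms extend.
PROOF. `Hup.exists_compl` for the range of `T`: an invariant complement, so an invariant `π : V' → V` with `π ∘ T = id`;
`b ↦ b (π ·) (π ·)` is an injective linear map `symInv ρ → symInv σ`.
-/

namespace Pool.Agent.H52.VC

open Finset Module
open Pool.Agent.H93.Hup (Inv MinInv)
open Pool.Agent.H82.CO (chi quadInv)

/-- an equivariant left inverse of an injective `G`-map -/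
private theorem left_inv_fex {G : Type} [Group G] [Fintype G] {V V' : Type} [AddCommGroup V] [Module ℂ V]
    [AddCommGroup V'] [Module ℂ V'] (ρ : Representation ℂ G V) (σ : Representation ℂ G V')
    (T : V →ₗ[ℂ] V') (hT : T ∈ invHom ρ σ) (hi : Function.Injective T) :
    ∃ π : V' →ₗ[ℂ] V, (∀ v, π (T v) = v) ∧ ∀ g x, π (σ g x) = ρ g (π x) := by
  have hY : Inv σ (LinearMap.range T) := by
    rintro g _ ⟨v, rfl⟩
    exact ⟨ρ g v, hT g v⟩
  obtain ⟨C, hC, h1, h2⟩ := Pool.Agent.H93.Hup.exists_compl σ (LinearMap.range T) hY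
  have hc : IsCompl (LinearMap.range T) C := IsCompl.of_eq h1 h2
  obtain ⟨π, hπ⟩ : ∃ π : V' →ₗ[ℂ] V, π = (LinearEquiv.ofInjective T hi).symm.toLinearMap ∘ₗ
      (LinearMap.range T).linearProjOfIsCompl C hc := ⟨_, rfl⟩
  have e1 : ∀ v, π (T v) = v := by
    intro v
    have h3 : (LinearMap.range T).linearProjOfIsCompl C hc (T v) = ⟨T v, ⟨v, rfl⟩⟩ :=
      Submodule.linearProjOfIsCompl_apply_left hc ⟨T v, ⟨v, rfl⟩⟩
    rw [hπ, LinearMap.comp_apply, h3]
    have h4 : (⟨T v, ⟨v, rfl⟩⟩ : LinearMap.range T) = LinearEquiv.ofInjective T hi v := rfl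
    rw [h4]
    exact LinearEquiv.symm_apply_apply _ v
  have e2 : ∀ c ∈ C, π c = 0 := by
    intro c hcC
    have h3 : (LinearMap.range T).linearProjOfIsCompl C hc c = 0 :=
      Submodule.linearProjOfIsCompl_apply_right hc ⟨c, hcC⟩
    rw [hπ, LinearMap.comp_apply, h3, map_zero]
  refine ⟨π, e1, fun g x => ?_⟩
  have hx : x ∈ LinearMap.range T ⊔ C := by
    rw [h2]
    trivial
  obtain ⟨_, ⟨v, rfl⟩, c, hcC, rfl⟩ := Submodule.mem_sup.1 hx
  rw [map_add, map_add, map_add, e1, e2 c hcC, e2 _ (hC g c hcC), ← hT g v, e1, add_zero, add_zero]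

theorem symInv_le {G : Type} [Group G] [Fintype G] {V V' : Type} [AddCommGroup V] [Module ℂ V] [FiniteDimensional ℂ V]
    [AddCommGroup V'] [Module ℂ V'] [FiniteDimensional ℂ V'] (ρ : Representation ℂ G V) (σ : Representation ℂ G V')
    (T : V →ₗ[ℂ] V') (hT : T ∈ invHom ρ σ) (hi : Function.Injective T) :
    finrank ℂ (symInv ρ) ≤ finrank ℂ (symInv σ) := by
  obtain ⟨π, h1, h2⟩ := left_inv_fex ρ σ T hT hi
  let Φ : symInv ρ →ₗ[ℂ] symInv σ :=
    { toFun := fun b => ⟨(b : V →ₗ[ℂ] V →ₗ[ℂ] ℂ).compl₁₂ π π, by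
        refine ⟨fun x y => ?_, fun g x y => ?_⟩
        · rw [LinearMap.compl₁₂_apply, LinearMap.compl₁₂_apply]
          exact b.2.1 _ _
        · rw [LinearMap.compl₁₂_apply, LinearMap.compl₁₂_apply, h2, h2]
          exact b.2.2 g _ _⟩
      map_add' := fun b c => by
        apply Subtype.ext
        ext x y
        rfl
      map_smul' := fun a b => by
        apply Subtype.ext
        ext x y
        rfl }
  refine LinearMap.finrank_le_finrank_of_injective (f := Φ) fun b c hbc => ?_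
  apply Subtype.ext
  ext x y
  have h3 := congrArg (fun b : symInv σ => (b : V' →ₗ[ℂ] V' →ₗ[ℂ] ℂ) (T x) (T y)) hbc
  have h4 : ∀ b : symInv ρ, ((Φ b : symInv σ) : V' →ₗ[ℂ] V' →ₗ[ℂ] ℂ) (T x) (T y) =
      (b : V →ₗ[ℂ] V →ₗ[ℂ] ℂ) x y := by
    intro b
    show (b : V →ₗ[ℂ] V →ₗ[ℂ] ℂ) (π (T x)) (π (T y)) = _
    rw [h1, h1]
  have h5 := h3
  simp only [h4] at h5
  exact h5

end Pool.Agent.H52.VC
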