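import Pool.Agent.H52.VC.Defs

set_option autoImplicit false

/-!
PROJECT VC (MP_bf82d2_ag), module Hom.
Dimensions of spaces of `G`-maps by characters.
PROOFS. Mathlib: `Representation.card_inv_mul_sum_char_mul_char_eq_finrank`, `Representation.card_inv_mul_sum_char_eq_finrank`
(`Mathlib/RepresentationTheory/Character.lean`; `Representation.invariants`, `IntertwiningMap`), or `linHom` and
`isProj_averageMap`.
-/

namespace Pool.Agent.H52.VC

open Finset Module
open Pool.Agent.H93.Hup (Inv MinInv)
open Pool.Agent.H82.CO (chi quadInv)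

section

variable {G : Type} [Group G] [Fintype G] {V V' : Type} [AddCommGroup V] [Module ℂ V] [FiniteDimensional ℂ V]
  [AddCommGroup V'] [Module ℂ V'] [FiniteDimensional ℂ V']

omit [Fintype G] [FiniteDimensional ℂ V] [FiniteDimensional ℂ V'] in
private theorem inv_hom (ρ : Representation ℂ G V) (σ : Representation ℂ G V') :
    invHom ρ σ = (Representation.linHom ρ σ).invariants := by
  ext T
  rw [mem_invHom, Representation.mem_invariants]
  constructor
  · intro h g
    rw [Representation.linHom_apply]
    ext x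
    show σ g (T (ρ g⁻¹ x)) = T x
    rw [← h g, Representation.self_inv_apply]
  · intro h g x
    have h1 := LinearMap.congr_fun (h g) (ρ g x)
    rw [Representation.linHom_apply] at h1
    have h2 : σ g (T (ρ g⁻¹ (ρ g x))) = T (ρ g x) := h1
    rw [Representation.inv_self_apply] at h2
    exact h2.symm

private theorem card_ne_hom : (Nat.card G : ℂ) ≠ 0 := Nat.cast_ne_zero.2 Nat.card_pos.ne'

theorem hom_eq (ρ : Representation ℂ G V) (σ : Representation ℂ G V') :
    (finrank ℂ (invHom ρ σ) : ℂ) =
      (1 / (Nat.card G : ℂ)) * ∑ g, LinearMap.trace ℂ V' (σ g) * LinearMap.trace ℂ V (ρ g⁻¹) := by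
  have hinv : Invertible (Nat.card G : ℂ) := invertibleOfNonzero card_ne_hom
  have h := Representation.card_inv_mul_sum_char_eq_finrank (Representation.linHom ρ σ)
  rw [inv_hom, ← h, one_div]
  congr 1
  refine sum_congr rfl fun g _ => ?_
  rw [Representation.char_linHom, mul_comm]
  rfl

theorem fix_eq (ρ : Representation ℂ G V) :
    (finrank ℂ (fixG ρ ⊤) : ℂ) = (1 / (Nat.card G : ℂ)) * ∑ g, LinearMap.trace ℂ V (ρ g⁻¹) := by
  have hinv : Invertible (Nat.card G : ℂ) := invertibleOfNonzero card_ne_hom
  have h := Representation.card_inv_mul_sum_char_eq_finrank ρ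
  have h1 : fixG ρ ⊤ = ρ.invariants := by
    ext v
    rw [mem_fixG, Representation.mem_invariants]
    exact ⟨fun h2 g => h2 g (Subgroup.mem_top g), fun h2 g _ => h2 g⟩
  rw [h1, ← h, one_div]
  congr 1
  exact (Equiv.sum_comp (Equiv.inv G) fun g => LinearMap.trace ℂ V (ρ g)).symm

end

end Pool.Agent.H52.VC
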