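import Pool.Agent.H52.VC.Defs

set_option autoImplicit false

/-!
PROJECT VC (MP_bf82d2_ag), module Qin.
The number of invariant symmetric forms by characters.
PROOF. `P b = (1/(2n)) ∑ g, (b (σ g ·) (σ g ·) + its transpose)` is a projection of the space of bilinear forms onto
`symInv σ`, so `dim symInv σ = trace P` (`LinearMap.IsProj.trace`); the trace of `b ↦ b (A ·) (A ·)` is `(trace A) ^ 2`, and
of `b ↦ (b (A ·) (A ·))` transposed it is `trace (A ^ 2)` (in a basis: matrices `B ↦ Aᵀ B A` and `B ↦ Aᵀ Bᵀ A`).  So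
`dim symInv σ = (1/(2n)) ∑ g, ((trace (σ g)) ^ 2 + trace (σ (g ^ 2)))`, which is `quadInv s` if the character is `chi s`.
-/

namespace Pool.Agent.H52.VC

open Finset Module
open Pool.Agent.H93.Hup (Inv MinInv)
open Pool.Agent.H82.CO (chi quadInv)

section Qin

variable {E : Type} [AddCommGroup E] [Module ℂ E]

/-- `b ↦ b (A ·) (A ·)` -/
private noncomputable def T1_qin (A : E →ₗ[ℂ] E) :
    (E →ₗ[ℂ] E →ₗ[ℂ] ℂ) →ₗ[ℂ] (E →ₗ[ℂ] E →ₗ[ℂ] ℂ) where
  toFun b := b.compl₁₂ A A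
  map_add' := fun _ _ => rfl
  map_smul' := fun _ _ => rfl

/-- `b ↦ b (A ·) (A ·)` transposed -/
private noncomputable def T2_qin (A : E →ₗ[ℂ] E) :
    (E →ₗ[ℂ] E →ₗ[ℂ] ℂ) →ₗ[ℂ] (E →ₗ[ℂ] E →ₗ[ℂ] ℂ) where
  toFun b := (b.compl₁₂ A A).flip
  map_add' := fun _ _ => rfl
  map_smul' := fun _ _ => rfl

private theorem T1_apply_qin (A : E →ₗ[ℂ] E) (b : E →ₗ[ℂ] E →ₗ[ℂ] ℂ) (x y : E) :
    T1_qin A b x y = b (A x) (A y) := rfl

private theorem T2_apply_qin (A : E →ₗ[ℂ] E) (b : E →ₗ[ℂ] E →ₗ[ℂ] ℂ) (x y : E) :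
    T2_qin A b x y = b (A y) (A x) := rfl

/-- the matrix of a form -/
private noncomputable def M_qin {ι : Type} [Fintype ι] [DecidableEq ι] (e : Basis ι ℂ E) :
    (E →ₗ[ℂ] E →ₗ[ℂ] ℂ) ≃ₗ[ℂ] Matrix ι ι ℂ := LinearMap.toMatrix₂ e e

private theorem M_apply_qin {ι : Type} [Fintype ι] [DecidableEq ι] (e : Basis ι ℂ E)
    (b : E →ₗ[ℂ] E →ₗ[ℂ] ℂ) (i j : ι) : M_qin e b i j = b (e i) (e j) :=
  LinearMap.toMatrix₂_apply e e b i j

private theorem basis_qin {ι : Type} [Fintype ι] [DecidableEq ι] (e : Basis ι ℂ E) (i j : ι) (x y : E) :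
    (M_qin e).symm (Matrix.single i j (1 : ℂ)) x y = e.repr x i * e.repr y j := by
  unfold M_qin
  rw [LinearMap.toMatrix₂_symm, Matrix.toLinearMap₂_apply]
  rw [Finset.sum_eq_single i, Finset.sum_eq_single j]
  · rw [Matrix.single_apply_same]
    simp
  · intro l _ hl
    rw [Matrix.single_apply_of_col_ne _ _ (Ne.symm hl)]
    simp
  · intro h
    exact absurd (mem_univ _) h
  · intro k _ hk
    refine Finset.sum_eq_zero fun l _ => ?_
    rw [Matrix.single_apply_of_row_ne (Ne.symm hk)]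
    simp
  · intro h
    exact absurd (mem_univ _) h

private theorem trace_qin {ι : Type} [Fintype ι] [DecidableEq ι] (e : Basis ι ℂ E)
    (T : (E →ₗ[ℂ] E →ₗ[ℂ] ℂ) →ₗ[ℂ] (E →ₗ[ℂ] E →ₗ[ℂ] ℂ)) :
    LinearMap.trace ℂ _ T = ∑ i, ∑ j,
      T ((M_qin e).symm (Matrix.single i j (1 : ℂ))) (e i) (e j) := by
  rw [LinearMap.trace_eq_matrix_trace ℂ ((Matrix.stdBasis ℂ ι ι).map (M_qin e).symm),
    Matrix.trace, Fintype.sum_prod_type]
  refine Finset.sum_congr rfl fun i _ => Finset.sum_congr rfl fun j _ => ?_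
  rw [Matrix.diag_apply, LinearMap.toMatrix_apply, Basis.map_apply, Matrix.stdBasis_eq_single,
    Basis.map_repr, LinearEquiv.trans_apply, LinearEquiv.symm_symm]
  have h1 : ∀ M : Matrix ι ι ℂ, (Matrix.stdBasis ℂ ι ι).repr M (i, j) = M i j := by
    intro M
    rw [Matrix.stdBasis]
    simp
  rw [h1, M_apply_qin]

private theorem trace_eq_qin {ι : Type} [Fintype ι] [DecidableEq ι] (e : Basis ι ℂ E) (A : E →ₗ[ℂ] E) :
    LinearMap.trace ℂ E A = ∑ i, e.repr (A (e i)) i := by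
  rw [LinearMap.trace_eq_matrix_trace ℂ e, Matrix.trace]
  refine Finset.sum_congr rfl fun i _ => ?_
  rw [Matrix.diag_apply, LinearMap.toMatrix_apply]

private theorem trace_T1_qin {ι : Type} [Fintype ι] [DecidableEq ι] (e : Basis ι ℂ E) (A : E →ₗ[ℂ] E) :
    LinearMap.trace ℂ _ (T1_qin A) = LinearMap.trace ℂ E A ^ 2 := by
  rw [trace_qin e, trace_eq_qin e, sq, Finset.sum_mul_sum]
  refine Finset.sum_congr rfl fun i _ => Finset.sum_congr rfl fun j _ => ?_
  rw [T1_apply_qin, basis_qin]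

private theorem trace_T2_qin {ι : Type} [Fintype ι] [DecidableEq ι] (e : Basis ι ℂ E) (A : E →ₗ[ℂ] E) :
    LinearMap.trace ℂ _ (T2_qin A) = LinearMap.trace ℂ E (A * A) := by
  rw [trace_qin e, LinearMap.trace_eq_matrix_trace ℂ e, LinearMap.toMatrix_mul, Matrix.trace]
  refine Finset.sum_congr rfl fun i _ => ?_
  rw [Matrix.diag_apply, Matrix.mul_apply]
  refine Finset.sum_congr rfl fun j _ => ?_
  rw [T2_apply_qin, basis_qin, LinearMap.toMatrix_apply, LinearMap.toMatrix_apply]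

end Qin

theorem symInv_eq {G : Type} [Group G] [Fintype G] {E : Type} [AddCommGroup E] [Module ℂ E] [FiniteDimensional ℂ E]
    (σ : Representation ℂ G E) : (finrank ℂ (symInv σ) : ℂ) =
      (1 / (2 * (Nat.card G : ℂ))) * ∑ g, (LinearMap.trace ℂ E (σ g) ^ 2 + LinearMap.trace ℂ E (σ (g ^ 2))) := by
  classical
  obtain ⟨c, hc⟩ : ∃ c : ℂ, c = 1 / (2 * (Nat.card G : ℂ)) := ⟨_, rfl⟩
  have hn : (Nat.card G : ℂ) ≠ 0 := by
    rw [Nat.card_eq_fintype_card]
    exact_mod_cast Fintype.card_ne_zero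
  obtain ⟨P, hP⟩ : ∃ P : (E →ₗ[ℂ] E →ₗ[ℂ] ℂ) →ₗ[ℂ] (E →ₗ[ℂ] E →ₗ[ℂ] ℂ),
      P = c • ∑ g, (T1_qin (σ g) + T2_qin (σ g)) := ⟨_, rfl⟩
  have hPa : ∀ b x y, P b x y = c * ∑ g, (b (σ g x) (σ g y) + b (σ g y) (σ g x)) := by
    intro b x y
    rw [hP, LinearMap.smul_apply, LinearMap.sum_apply, LinearMap.smul_apply, LinearMap.smul_apply,
      LinearMap.sum_apply, LinearMap.sum_apply, smul_eq_mul]
    rfl
  have hproj : LinearMap.IsProj (symInv σ) P := by
    refine ⟨fun b => ⟨fun x y => ?_, fun g x y => ?_⟩, fun b hb => ?_⟩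
    · rw [hPa, hPa]
      congr 1
      exact Finset.sum_congr rfl fun g _ => add_comm _ _
    · rw [hPa, hPa]
      congr 1
      refine Fintype.sum_equiv (Equiv.mulRight g) _ _ fun h => ?_
      have h1 : ∀ z, σ h (σ g z) = σ (h * g) z := by
        intro z
        rw [map_mul]
        rfl
      rw [h1, h1, Equiv.coe_mulRight]
    · refine LinearMap.ext fun x => LinearMap.ext fun y => ?_
      rw [hPa, Finset.sum_congr rfl fun g _ => by
        rw [hb.2 g x y, hb.2 g y x, hb.1 y x], Finset.sum_const, nsmul_eq_mul, Finset.card_univ,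
        ← Nat.card_eq_fintype_card, hc]
      field_simp
      ring
  have h1 : Module.Free ℂ (symInv σ) := Module.Free.of_divisionRing ℂ (symInv σ)
  have h2 : Module.Free ℂ (LinearMap.ker P) := Module.Free.of_divisionRing ℂ (LinearMap.ker P)
  rw [← LinearMap.IsProj.trace hproj, hP, map_smul, map_sum, smul_eq_mul, ← hc]
  congr 1
  refine Finset.sum_congr rfl fun g _ => ?_
  rw [map_add, trace_T1_qin (Module.finBasis ℂ E), trace_T2_qin (Module.finBasis ℂ E), sq g, map_mul σ]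

end Pool.Agent.H52.VC
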