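import Pool.Agent.H52.VC.Defs
import Pool.Agent.H82.CO.Eps

set_option autoImplicit false

/-!
PROJECT VC (MP_bf82d2_ag), module Chi.
`chi s` is a class function, invariant under rotation of `s`, and `chi s g⁻¹` is the conjugate of `chi s g`.
PROOF. Reindex the sums (`x ↦ y x` for the conjugation; `k ↦ m - k` for the inverse: `eps m (m - k)` is the conjugate of `eps m k`
and `s ^ (m - k) = (s ^ k)⁻¹`).  See also `Pool/Agent/H82/CO` (Eps, Fix, Key) for lemmas on `chi`.
-/

namespace Pool.Agent.H52.VC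

open Finset Module
open Pool.Agent.H93.Hup (Inv MinInv)
open Pool.Agent.H82.CO (chi quadInv eps zeta zeta_pow zeta_ne conj_zeta)

private theorem eps_inv_chi {m k : ℕ} (hm : 0 < m) (hk : k < m) :
    eps m ((m - k) % m) = (starRingEnd ℂ) (eps m k) := by
  unfold eps
  rw [map_sum]
  refine Finset.sum_congr rfl fun a _ => ?_
  rw [map_mul, map_div₀, map_pow, conj_zeta hm]
  have h1 : (starRingEnd ℂ) (a : ℂ) = a := Complex.conj_natCast a
  have h2 : (starRingEnd ℂ) (m : ℂ) = m := Complex.conj_natCast m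
  rw [h1, h2]
  congr 1
  have h3 : zeta m ^ ((m - k) % m) = (zeta m ^ k)⁻¹ := by
    rw [← pow_eq_pow_mod (m - k) (zeta_pow hm)]
    refine eq_inv_of_mul_eq_one_left ?_
    rw [← pow_add, Nat.sub_add_cancel hk.le, zeta_pow hm]
  rw [mul_comm a, pow_mul, h3, mul_comm a, pow_mul, inv_pow, inv_pow, inv_pow]

private theorem inner_inv_chi {G : Type} [Group G] [Fintype G] (c g x : G) :
    (∑ k ∈ range (orderOf c), @ite ℂ (x * c ^ k * x⁻¹ = g⁻¹) (Classical.propDecidable _) (eps (orderOf c) k) 0) =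
      ∑ k ∈ range (orderOf c), @ite ℂ (x * c ^ k * x⁻¹ = g) (Classical.propDecidable _) ((starRingEnd ℂ) (eps (orderOf c) k)) 0 := by
  classical
  set m := orderOf c with hm
  have hm0 : 0 < m := orderOf_pos c
  have hinv : ∀ k, k < m → (m - (m - k) % m) % m = k := by
    intro k hk
    rcases Nat.eq_zero_or_pos k with rfl | h0
    · rw [Nat.sub_zero, Nat.mod_self, Nat.sub_zero, Nat.mod_self]
    · rw [Nat.mod_eq_of_lt (by omega : m - k < m)]
      have : m - (m - k) = k := by omega
      rw [this, Nat.mod_eq_of_lt hk]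
  refine Finset.sum_nbij' (fun k => (m - k) % m) (fun k => (m - k) % m) ?_ ?_ ?_ ?_ ?_
  · intro k _
    exact Finset.mem_range.2 (Nat.mod_lt _ hm0)
  · intro k _
    exact Finset.mem_range.2 (Nat.mod_lt _ hm0)
  · intro k hk
    exact hinv k (Finset.mem_range.1 hk)
  · intro k hk
    exact hinv k (Finset.mem_range.1 hk)
  · intro k hk
    have hk' := Finset.mem_range.1 hk
    have h1 : c ^ ((m - k) % m) = (c ^ k)⁻¹ := by
      rw [hm, pow_mod_orderOf]
      refine eq_inv_of_mul_eq_one_left ?_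
      rw [← pow_add, Nat.sub_add_cancel (by rw [← hm]; exact hk'.le), pow_orderOf_eq_one]
    have h2 : (x * c ^ ((m - k) % m) * x⁻¹ = g) ↔ (x * c ^ k * x⁻¹ = g⁻¹) := by
      rw [h1, ← conj_inv, inv_eq_iff_eq_inv]
    rw [eps_inv_chi hm0 hk', Complex.conj_conj]
    by_cases h3 : x * c ^ k * x⁻¹ = g⁻¹
    · rw [if_pos h3, if_pos (h2.2 h3)]
    · rw [if_neg h3, if_neg (fun h => h3 (h2.1 h))]

theorem chi_conj {G : Type} [Group G] [Fintype G] {N : ℕ} (s : Fin N → G) (g x : G) :
    chi s (x * g * x⁻¹) = chi s g := by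
  classical
  unfold chi
  congr 1
  · congr 1
    by_cases h : g = 1
    · rw [if_pos h, if_pos (by rw [h, mul_one, mul_inv_cancel])]
    · rw [if_neg h, if_neg (fun h1 => h (by rwa [conj_eq_one_iff] at h1))]
  · refine Finset.sum_congr rfl fun i _ => ?_
    congr 1
    rw [← Equiv.sum_comp (Equiv.mulLeft x)]
    refine Finset.sum_congr rfl fun y _ => Finset.sum_congr rfl fun k _ => ?_
    have h2 : (Equiv.mulLeft x y * s i ^ k * (Equiv.mulLeft x y)⁻¹ = x * g * x⁻¹) ↔ (y * s i ^ k * y⁻¹ = g) := by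
      rw [Equiv.coe_mulLeft, mul_inv_rev]
      constructor
      · intro h
        have h3 : x * (y * s i ^ k * y⁻¹) * x⁻¹ = x * g * x⁻¹ := by rw [← h]; group
        exact mul_left_cancel (mul_right_cancel h3)
      · intro h
        rw [← h]; group
    by_cases h3 : y * s i ^ k * y⁻¹ = g
    · rw [if_pos h3, if_pos (h2.2 h3)]
    · rw [if_neg h3, if_neg (fun h => h3 (h2.1 h))]

theorem chi_inv {G : Type} [Group G] [Fintype G] {N : ℕ} (s : Fin N → G) (g : G) :
    chi s g⁻¹ = (starRingEnd ℂ) (chi s g) := by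
  classical
  unfold chi
  rw [map_add, map_sub, map_one, map_sum]
  congr 1
  · congr 1
    by_cases h : g = 1
    · rw [if_pos h, if_pos (by rw [h, inv_one])]
      exact (Complex.conj_natCast _).symm
    · rw [if_neg h, if_neg (fun h1 => h (inv_eq_one.1 h1)), map_zero]
  · refine Finset.sum_congr rfl fun i _ => ?_
    rw [map_mul, map_div₀, map_one, Complex.conj_natCast, map_sum]
    congr 1
    refine Finset.sum_congr rfl fun x _ => ?_
    rw [map_sum]
    refine Eq.trans ?_ ((inner_inv_chi (s i) g x).trans ?_)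
    · refine Finset.sum_congr rfl fun k _ => ?_
      congr 1
    · refine Finset.sum_congr rfl fun k _ => ?_
      by_cases h3 : x * s i ^ k * x⁻¹ = g
      · rw [if_pos h3, if_pos h3]
      · rw [if_neg h3, if_neg h3, map_zero]

theorem quadInv_perm {G : Type} [Group G] [Fintype G] {N : ℕ} (s : Fin N → G) (p : Equiv.Perm (Fin N)) :
    quadInv (s ∘ p) = quadInv s := by
  classical
  have h : ∀ g, chi (s ∘ p) g = chi s g := by
    intro g
    unfold chi
    congr 1
    exact Equiv.sum_comp p fun i => (1 / (orderOf (s i) : ℂ)) * ∑ x : G, ∑ k ∈ range (orderOf (s i)),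
      if x * s i ^ k * x⁻¹ = g then eps (orderOf (s i)) k else 0
  unfold quadInv
  simp only [h]

end Pool.Agent.H52.VC
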