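import Pool.Agent.H52.VC.Uni

set_option autoImplicit false

/-!
PROJECT VC (MP_bf82d2_ag), module Irr.
Minimal invariant subspaces: dimension at most the square root of the order, orthogonality.
PROOF. `Hup.finrank_minInv_le` (its proof shows how to pass to `FDRep`), `FDRep.char_orthonormal` or
`Representation.char_orthonormal` : `(1/n) ∑ |χ(g)|² = 1`, `χ(1) = dim`; `χ(g⁻¹)` is the conjugate of `χ(g)` (`trace_inv`: by
`exists_unitary`, `trace_tr`, trace in an orthonormal basis).
-/

namespace Pool.Agent.H52.VC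

open Finset Module
open Pool.Agent.H93.Hup (Inv MinInv)
open Pool.Agent.H82.CO (chi quadInv)

section

variable {G : Type} [Group G] [Fintype G] {V V' : Type} [AddCommGroup V] [Module ℂ V] [FiniteDimensional ℂ V]
  [AddCommGroup V'] [Module ℂ V'] [FiniteDimensional ℂ V']

theorem trace_inv (ρ : Representation ℂ G V) (g : G) :
    LinearMap.trace ℂ V (ρ g⁻¹) = (starRingEnd ℂ) (LinearMap.trace ℂ V (ρ g)) := by
  obtain ⟨ρ', e, hu, he⟩ := exists_unitary ρ
  rw [trace_tr ρ ρ' e he g⁻¹, trace_tr ρ ρ' e he g]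
  have b := stdOrthonormalBasis ℂ (EuclideanSpace ℂ (Fin (finrank ℂ V)))
  rw [LinearMap.trace_eq_sum_inner (ρ' g⁻¹) b, LinearMap.trace_eq_sum_inner (ρ' g) b, map_sum]
  refine sum_congr rfl fun i _ => ?_
  rw [inner_conj_symm, ← hu g (b i) (ρ' g⁻¹ (b i)), ← Module.End.mul_apply, ← map_mul,
    mul_inv_cancel, map_one, Module.End.one_apply]

theorem irr_sub (ρ : Representation ℂ G V) (U : Submodule ℂ V) (hU : MinInv ρ U) :
    (subR ρ U hU.2.1).IsIrreducible := by
  refine { exists_pair_ne := ⟨⊥, ⊤, ?_⟩, eq_bot_or_eq_top := ?_ }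
  · intro h
    have h2 := congrArg Subrepresentation.toSubmodule h
    have h3 : (⊥ : Submodule ℂ U) = ⊤ := h2
    apply hU.1
    rw [Submodule.eq_bot_iff]
    intro x hx
    have h4 : (⟨x, hx⟩ : U) ∈ (⊥ : Submodule ℂ U) := by rw [h3]; trivial
    rw [Submodule.mem_bot] at h4
    exact congrArg Subtype.val h4
  · intro τ
    by_cases hτ : τ.toSubmodule = ⊥
    · left
      apply Subrepresentation.toSubmodule_injective
      exact hτ
    · right
      apply Subrepresentation.toSubmodule_injective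
      have hmap : τ.toSubmodule.map U.subtype = U := by
        apply hU.2.2
        · rintro g v ⟨w, hw, rfl⟩
          exact ⟨subR ρ U hU.2.1 g w, τ.apply_mem_toSubmodule g hw, rfl⟩
        · rintro v ⟨w, _, rfl⟩
          exact w.2
        · intro h
          apply hτ
          rw [Submodule.eq_bot_iff]
          intro x hx
          have h1 : (x : V) ∈ τ.toSubmodule.map U.subtype := ⟨x, hx, rfl⟩
          rw [h, Submodule.mem_bot] at h1
          exact Subtype.ext h1
      have htop : τ.toSubmodule = ⊤ := by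
        rw [eq_top_iff]
        intro x _
        have h1 : (x : V) ∈ τ.toSubmodule.map U.subtype := by rw [hmap]; exact x.2
        obtain ⟨w, hw, hwx⟩ := h1
        have : w = x := Subtype.ext hwx
        rw [← this]
        exact hw
      exact htop

theorem minInv_self (ρ : Representation ℂ G V) (W : Submodule ℂ V) (hW : MinInv ρ W) :
    (1 / (Nat.card G : ℂ)) * ∑ g, LinearMap.trace ℂ W (subR ρ W hW.2.1 g) * LinearMap.trace ℂ W (subR ρ W hW.2.1 g⁻¹) = 1 := by
  classical
  have hn : (Nat.card G : ℂ) ≠ 0 := by exact_mod_cast Nat.card_pos.ne'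
  have : Invertible (Nat.card G : ℂ) := invertibleOfNonzero hn
  have := irr_sub ρ W hW
  have h := Representation.char_orthonormal (subR ρ W hW.2.1) (subR ρ W hW.2.1)
  rw [if_pos ⟨Representation.Equiv.refl _⟩] at h
  rw [one_div]
  simpa only [Representation.character] using h

theorem minInv_ne (ρ : Representation ℂ G V) (W : Submodule ℂ V) (hW : MinInv ρ W)
    (σ : Representation ℂ G V') (W' : Submodule ℂ V') (hW' : MinInv σ W') :
    (∀ g, LinearMap.trace ℂ W (subR ρ W hW.2.1 g) = LinearMap.trace ℂ W' (subR σ W' hW'.2.1 g)) ∨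
    (1 / (Nat.card G : ℂ)) * ∑ g, LinearMap.trace ℂ W (subR ρ W hW.2.1 g) * LinearMap.trace ℂ W' (subR σ W' hW'.2.1 g⁻¹) = 0 := by
  classical
  have hn : (Nat.card G : ℂ) ≠ 0 := by exact_mod_cast Nat.card_pos.ne'
  have : Invertible (Nat.card G : ℂ) := invertibleOfNonzero hn
  have := irr_sub ρ W hW
  have := irr_sub σ W' hW'
  have h := Representation.char_orthonormal (subR ρ W hW.2.1) (subR σ W' hW'.2.1)
  by_cases hne : Nonempty ((subR σ W' hW'.2.1).Equiv (subR ρ W hW.2.1))
  · left
    obtain ⟨φ⟩ := hne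
    intro g
    have h2 := congrFun (Representation.char_iso φ) g
    exact h2.symm
  · right
    rw [if_neg hne] at h
    rw [one_div]
    simpa only [Representation.character] using h

theorem minInv_sq (ρ : Representation ℂ G V) (W : Submodule ℂ V) (hW : MinInv ρ W) :
    finrank ℂ W ^ 2 ≤ Nat.card G := by
  classical
  have hn : (Nat.card G : ℂ) ≠ 0 := by exact_mod_cast Nat.card_pos.ne'
  have h := minInv_self ρ W hW
  rw [one_div, inv_mul_eq_iff_eq_mul₀ hn, mul_one] at h
  have h2 : ∑ g, ‖LinearMap.trace ℂ W (subR ρ W hW.2.1 g)‖ ^ 2 = (Nat.card G : ℝ) := by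
    have h3 : ((∑ g, ‖LinearMap.trace ℂ W (subR ρ W hW.2.1 g)‖ ^ 2 : ℝ) : ℂ) = ((Nat.card G : ℝ) : ℂ) := by
      rw [Complex.ofReal_sum, Complex.ofReal_natCast, ← h]
      refine sum_congr rfl fun g _ => ?_
      rw [trace_inv, Complex.mul_conj, Complex.normSq_eq_norm_sq]
    exact_mod_cast h3
  have h4 : ‖LinearMap.trace ℂ W (subR ρ W hW.2.1 1)‖ ^ 2 ≤ (Nat.card G : ℝ) := by
    rw [← h2]
    exact single_le_sum (f := fun g => ‖LinearMap.trace ℂ W (subR ρ W hW.2.1 g)‖ ^ 2)
      (fun g _ => sq_nonneg _) (mem_univ 1)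
  rw [map_one, LinearMap.trace_one, Complex.norm_natCast] at h4
  exact_mod_cast h4

end

end Pool.Agent.H52.VC
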