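import Pool.Agent.H52.VC.Cmp
import Pool.Agent.H52.VC.Irr

set_option autoImplicit false

/-!
PROJECT VC (MP_bf82d2_ag), module Exi.
A class function with multiplicities in `ℕ` is the character of a representation.
PROOF. Induction on `k` with `(1/n) ∑ |f g|² ≤ k` (`k = 0`: `f = 0`, `E = PUnit`).  If `f = 0` take `PUnit`.  Otherwise by
`complete` some `W` has multiplicity `m ≥ 1`; `f' = f - χ_W` satisfies the hypotheses (`minInv_self`, `minInv_ne`: its
multiplicity at `W'` is `m' - 1`, `m' = m ≥ 1`, if the characters are equal, and `m'` otherwise; `trace_inv` for the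
conjugation) and `(1/n) ∑ |f' g|² = (1/n) ∑ |f g|² - 2 m + 1 ≤ k - 1`.  `E = E' × W`, `LinearMap.trace_prodMap`.
-/

namespace Pool.Agent.H52.VC

open Finset Module
open Pool.Agent.H93.Hup (Inv MinInv)
open Pool.Agent.H82.CO (chi quadInv)

private noncomputable def prodRep_exi {G E W : Type} [Group G] [AddCommGroup E] [Module ℂ E]
    [AddCommGroup W] [Module ℂ W] (σ : Representation ℂ G E) (τ : Representation ℂ G W) :
    Representation ℂ G (E × W) where
  toFun g := (σ g).prodMap (τ g)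
  map_one' := by
    rw [map_one, map_one]
    rfl
  map_mul' := by
    intro g k
    rw [map_mul, map_mul]
    rfl

private theorem zero_case_exi {G : Type} [Group G] (f : G → ℂ) (hf0 : f = 0) :
    ∃ (E : Type) (_ : AddCommGroup E) (_ : Module ℂ E) (_ : FiniteDimensional ℂ E) (σ : Representation ℂ G E),
      ∀ g, LinearMap.trace ℂ E (σ g) = f g := by
  refine ⟨Fin 0 → ℂ, inferInstance, inferInstance, inferInstance, 1, fun g => ?_⟩
  have h1 : (1 : Representation ℂ G (Fin 0 → ℂ)) g = 0 := by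
    ext1 x
    exact Subsingleton.elim _ _
  rw [h1, map_zero, hf0]
  rfl

private theorem ind_exi {G : Type} [Group G] [Fintype G] (k : ℕ) : ∀ (f : G → ℂ),
    (∀ g x, f (x * g * x⁻¹) = f g) → (∀ g, f g⁻¹ = (starRingEnd ℂ) (f g)) →
    (∀ (W : Submodule ℂ (G → ℂ)) (hW : MinInv (lam (G := G)) W),
      ∃ m : ℕ, (1 / (Nat.card G : ℂ)) * ∑ g, f g * LinearMap.trace ℂ W (subR lam W hW.2.1 g⁻¹) = m) →
    (1 / (Nat.card G : ℝ)) * ∑ g, ‖f g‖ ^ 2 ≤ k →
    ∃ (E : Type) (_ : AddCommGroup E) (_ : Module ℂ E) (_ : FiniteDimensional ℂ E) (σ : Representation ℂ G E),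
      ∀ g, LinearMap.trace ℂ E (σ g) = f g := by
  classical
  have hn : (Nat.card G : ℂ) ≠ 0 := by exact_mod_cast Nat.card_pos.ne'
  have hnR : 0 < (Nat.card G : ℝ) := by exact_mod_cast Nat.card_pos
  induction k with
  | zero =>
    intro f _ _ _ hk
    apply zero_case_exi
    rw [Nat.cast_zero] at hk
    have h0 : ∑ g, ‖f g‖ ^ 2 ≤ 0 := by
      by_contra hc
      push Not at hc
      have := mul_pos (one_div_pos.mpr hnR) hc
      linarith
    have h1 : ∑ g, ‖f g‖ ^ 2 = 0 := le_antisymm h0 (sum_nonneg fun g _ => sq_nonneg _)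
    have h2 := (sum_eq_zero_iff_of_nonneg (fun g _ => sq_nonneg ‖f g‖)).mp h1
    funext g
    have h3 := h2 g (mem_univ g)
    exact norm_eq_zero.mp (pow_eq_zero_iff (two_ne_zero) |>.mp h3)
  | succ k ih =>
    intro f hf hi h hk
    by_cases hf0 : f = 0
    · exact zero_case_exi f hf0
    have hex : ∃ (W : Submodule ℂ (G → ℂ)) (hW : MinInv (lam (G := G)) W),
        ∑ g, f g * LinearMap.trace ℂ W (subR lam W hW.2.1 g⁻¹) ≠ 0 := by
      by_contra hc
      push Not at hc
      exact hf0 (complete f hf hc)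
    obtain ⟨W, hW, hne⟩ := hex
    obtain ⟨m, hm⟩ := h W hW
    have hm1 : 1 ≤ m := by
      rcases Nat.eq_zero_or_pos m with h0 | h0
      · exfalso
        rw [h0, Nat.cast_zero] at hm
        rcases mul_eq_zero.mp hm with h1 | h1
        · rw [one_div, inv_eq_zero] at h1
          exact hn h1
        · exact hne h1
      · exact h0
    set χ : G → ℂ := fun g => LinearMap.trace ℂ W (subR lam W hW.2.1 g) with hχ
    have hχi : ∀ g, χ g⁻¹ = (starRingEnd ℂ) (χ g) := fun g => trace_inv (subR lam W hW.2.1) g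
    have hχc : ∀ g x, χ (x * g * x⁻¹) = χ g := by
      intro g x
      show LinearMap.trace ℂ W (subR lam W hW.2.1 (x * g * x⁻¹)) = LinearMap.trace ℂ W (subR lam W hW.2.1 g)
      rw [map_mul, LinearMap.trace_mul_comm, ← map_mul]
      congr 2
      group
    have hm' : (1 / (Nat.card G : ℂ)) * ∑ g, f g * χ g⁻¹ = m := hm
    have hself : (1 / (Nat.card G : ℂ)) * ∑ g, χ g * χ g⁻¹ = 1 := minInv_self lam W hW
    have hconj : (1 / (Nat.card G : ℂ)) * ∑ g, χ g * f g⁻¹ = m := by
      have h1 := congrArg (starRingEnd ℂ) hm'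
      rw [map_mul, map_div₀, map_one, map_natCast, map_natCast, map_sum] at h1
      rw [← h1]
      congr 1
      refine sum_congr rfl fun g _ => ?_
      rw [map_mul, ← hi g, hχi g, Complex.conj_conj, mul_comm]
    have hsq : ∀ φ : G → ℂ, (∀ g, φ g⁻¹ = (starRingEnd ℂ) (φ g)) →
        (((1 / (Nat.card G : ℝ)) * ∑ g, ‖φ g‖ ^ 2 : ℝ) : ℂ) = (1 / (Nat.card G : ℂ)) * ∑ g, φ g * φ g⁻¹ := by
      intro φ hφ
      rw [Complex.ofReal_mul, Complex.ofReal_div, Complex.ofReal_one, Complex.ofReal_natCast, Complex.ofReal_sum]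
      congr 1
      refine sum_congr rfl fun g _ => ?_
      rw [hφ, Complex.mul_conj, Complex.normSq_eq_norm_sq]
    have hf'i : ∀ g, (f - χ) g⁻¹ = (starRingEnd ℂ) ((f - χ) g) := by
      intro g
      rw [Pi.sub_apply, Pi.sub_apply, map_sub, hi, hχi]
    have hnorm : (1 / (Nat.card G : ℝ)) * ∑ g, ‖(f - χ) g‖ ^ 2 ≤ k := by
      have h1 : (((1 / (Nat.card G : ℝ)) * ∑ g, ‖(f - χ) g‖ ^ 2 : ℝ) : ℂ) =
          (((1 / (Nat.card G : ℝ)) * ∑ g, ‖f g‖ ^ 2 - 2 * m + 1 : ℝ) : ℂ) := by
        rw [Complex.ofReal_add, Complex.ofReal_sub, hsq _ hf'i, hsq f hi]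
        have h2 : ∑ g, (f - χ) g * (f - χ) g⁻¹ =
            ∑ g, f g * f g⁻¹ - ∑ g, f g * χ g⁻¹ - ∑ g, χ g * f g⁻¹ + ∑ g, χ g * χ g⁻¹ := by
          rw [← sum_sub_distrib, ← sum_sub_distrib, ← sum_add_distrib]
          refine sum_congr rfl fun g _ => ?_
          simp only [Pi.sub_apply]
          ring
        rw [h2, mul_add, mul_sub, mul_sub, hm', hconj, hself]
        push_cast
        ring
      have h3 := Complex.ofReal_injective h1
      rw [h3]
      have h4 : (1 : ℝ) ≤ m := by exact_mod_cast hm1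
      rw [Nat.cast_succ] at hk
      linarith
    obtain ⟨E, i1, i2, i3, σ, hσ⟩ := ih (f - χ) (fun g x => by rw [Pi.sub_apply, Pi.sub_apply, hf, hχc]) hf'i
      (by
        intro W' hW'
        obtain ⟨m', hm2⟩ := h W' hW'
        have hsplit : (1 / (Nat.card G : ℂ)) * ∑ g, (f - χ) g * LinearMap.trace ℂ W' (subR lam W' hW'.2.1 g⁻¹) =
            m' - (1 / (Nat.card G : ℂ)) * ∑ g, χ g * LinearMap.trace ℂ W' (subR lam W' hW'.2.1 g⁻¹) := by
          rw [← hm2, ← mul_sub, ← sum_sub_distrib]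
          congr 1
          refine sum_congr rfl fun g _ => ?_
          rw [Pi.sub_apply, sub_mul]
        rcases minInv_ne lam W hW lam W' hW' with heq | hzero
        · have h1 : ∀ g, LinearMap.trace ℂ W' (subR lam W' hW'.2.1 g) = χ g := fun g => (heq g).symm
          have hmm : (m' : ℂ) = m := by
            rw [← hm2, ← hm']
            congr 1
            refine sum_congr rfl fun g _ => ?_
            rw [h1]
          have hmm' : m' = m := by exact_mod_cast hmm
          refine ⟨m - 1, ?_⟩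
          rw [hsplit, hmm', Nat.cast_sub hm1, Nat.cast_one]
          congr 1
          refine Eq.trans ?_ hself
          congr 1
          refine sum_congr rfl fun g _ => ?_
          rw [h1]
        · refine ⟨m', ?_⟩
          rw [hsplit]
          have h1 : (1 / (Nat.card G : ℂ)) * ∑ g, χ g * LinearMap.trace ℂ W' (subR lam W' hW'.2.1 g⁻¹) = 0 := hzero
          rw [h1, sub_zero])
      hnorm
    refine ⟨E × W, inferInstance, inferInstance, inferInstance, prodRep_exi σ (subR lam W hW.2.1), fun g => ?_⟩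
    have h1 : LinearMap.trace ℂ (E × W) ((σ g).prodMap (subR lam W hW.2.1 g)) =
        LinearMap.trace ℂ E (σ g) + LinearMap.trace ℂ W (subR lam W hW.2.1 g) := LinearMap.trace_prodMap' _ _
    show LinearMap.trace ℂ (E × W) ((σ g).prodMap (subR lam W hW.2.1 g)) = f g
    rw [h1, hσ, Pi.sub_apply]
    show f g - χ g + χ g = f g
    ring

theorem exists_rep_of {G : Type} [Group G] [Fintype G] (f : G → ℂ) (hf : ∀ g x, f (x * g * x⁻¹) = f g)
    (hi : ∀ g, f g⁻¹ = (starRingEnd ℂ) (f g))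
    (h : ∀ (W : Submodule ℂ (G → ℂ)) (hW : MinInv (lam (G := G)) W),
      ∃ m : ℕ, (1 / (Nat.card G : ℂ)) * ∑ g, f g * LinearMap.trace ℂ W (subR lam W hW.2.1 g⁻¹) = m) :
    ∃ (E : Type) (_ : AddCommGroup E) (_ : Module ℂ E) (_ : FiniteDimensional ℂ E) (σ : Representation ℂ G E),
      ∀ g, LinearMap.trace ℂ E (σ g) = f g := by
  obtain ⟨k, hk⟩ := exists_nat_ge ((1 / (Nat.card G : ℝ)) * ∑ g, ‖f g‖ ^ 2)
  exact ind_exi k f hf hi h hk

end Pool.Agent.H52.VC
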