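import Pool.Agent.H52.VC.Chn

set_option autoImplicit false

/-!
PROJECT VC (MP_bf82d2_ag), module MuG.
The two cuts.
PROOFS. `pv_ge`: `chain` for `(List.ofFn s).take k` (product `pre s k = a`) and `(List.ofFn s).drop k` (product `a⁻¹`, as the
whole product is 1), added, and `angp_inv` for `ρ a`.  The closures are `Hlow s k`, `Hupp s k`; `∑ i, f (s i)` is the sum
of the two list sums (`List.sum_ofFn`, `List.take_append_drop`).  `pv_nat`: `chain` for `List.ofFn s` (product `1`,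
`angp 1 = dim V`, closure `⊤`) gives `0 ≤ pv s ρ`; by `det_ee` and `det (ρ ∏) = 1`, `ee (∑ angp (ρ (s i))) = 1`, so
`∑ angp (ρ (s i))` is an integer (`ee_eq_one`), so `pv s ρ` is an integer.
-/

namespace Pool.Agent.H52.VC

open Finset Module
open Pool.Agent.H93.Hup (Inv MinInv)
open Pool.Agent.H82.CO (chi quadInv)

private theorem fixG_anti_mug {G : Type} [Group G] {V : Type} [AddCommGroup V] [Module ℂ V]
    (ρ : Representation ℂ G V) {H K : Subgroup G} (h : H ≤ K) : fixG ρ K ≤ fixG ρ H :=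
  fun _ hv g hg => hv g (h hg)

private theorem sum_mug {G : Type} [Group G] {N : ℕ} (s : Fin N → G) (f : G → ℝ) :
    ((List.ofFn s).map f).sum = ∑ i, f (s i) := by
  rw [List.map_ofFn, List.sum_ofFn]
  rfl

theorem pv_ge {G : Type} [Group G] [Fintype G] {V : Type} [NormedAddCommGroup V] [InnerProductSpace ℂ V] [FiniteDimensional ℂ V]
    {N : ℕ} (s : Fin N → G) (hp : (List.ofFn s).prod = 1) (ρ : Representation ℂ G V) (hρ : ∀ g, IsU (ρ g)) (k : ℕ) :
    (finrank ℂ (fixS (ρ (pre s k))) : ℝ) + finrank ℂ (fixG ρ ⊤) ≤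
      pv s ρ + finrank ℂ (fixG ρ (Hlow s k)) + finrank ℂ (fixG ρ (Hupp s k)) := by
  have h1 := chain ρ hρ ((List.ofFn s).take k)
  have h2 := chain ρ hρ ((List.ofFn s).drop k)
  have hprod : ((List.ofFn s).take k).prod * ((List.ofFn s).drop k).prod = 1 := by
    rw [← List.prod_append, List.take_append_drop, hp]
  have h3 := angp_inv (ρ ((List.ofFn s).take k).prod) (ρ ((List.ofFn s).drop k).prod) (hρ _) (by
    intro x
    have h4 : ((List.ofFn s).drop k).prod * ((List.ofFn s).take k).prod = 1 :=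
      mul_eq_one_iff_eq_inv.2 (inv_eq_of_mul_eq_one_right hprod).symm
    have h5 : (ρ ((List.ofFn s).drop k).prod * ρ ((List.ofFn s).take k).prod) x = x := by
      rw [← map_mul, h4, map_one]
      rfl
    exact h5)
  have h6 : (finrank ℂ (fixG ρ (Subgroup.closure {g | g ∈ (List.ofFn s).take k})) : ℝ) ≤
      finrank ℂ (fixG ρ (Hlow s k)) := by
    have h7 : Hlow s k ≤ Subgroup.closure {g | g ∈ (List.ofFn s).take k} := by
      refine Subgroup.closure_mono ?_
      rintro g ⟨i, hi, rfl⟩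
      rw [Set.mem_setOf_eq, List.mem_take_iff_getElem]
      exact ⟨i, by rw [List.length_ofFn]; exact lt_min hi i.2, by rw [List.getElem_ofFn]⟩
    exact_mod_cast Submodule.finrank_mono (fixG_anti_mug ρ h7)
  have h8 : (finrank ℂ (fixG ρ (Subgroup.closure {g | g ∈ (List.ofFn s).drop k})) : ℝ) ≤
      finrank ℂ (fixG ρ (Hupp s k)) := by
    have h7 : Hupp s k ≤ Subgroup.closure {g | g ∈ (List.ofFn s).drop k} := by
      refine Subgroup.closure_mono ?_
      rintro g ⟨i, hi, rfl⟩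
      rw [Set.mem_setOf_eq, List.mem_drop_iff_getElem]
      have hi2 := i.2
      refine ⟨(i : ℕ) - k, by rw [List.length_ofFn]; omega, ?_⟩
      rw [List.getElem_ofFn]
      congr 1
      ext
      show k + ((i : ℕ) - k) = i
      omega
    exact_mod_cast Submodule.finrank_mono (fixG_anti_mug ρ h7)
  have h9 : (((List.ofFn s).take k).map (fun g => angp (ρ g) - (finrank ℂ (fixS (ρ g)) : ℝ))).sum +
      (((List.ofFn s).drop k).map (fun g => angp (ρ g) - (finrank ℂ (fixS (ρ g)) : ℝ))).sum =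
      ∑ i, (angp (ρ (s i)) - (finrank ℂ (fixS (ρ (s i))) : ℝ)) := by
    rw [← List.sum_append, ← List.map_append, List.take_append_drop, sum_mug]
  have h10 : pv s ρ = ∑ i, (angp (ρ (s i)) - (finrank ℂ (fixS (ρ (s i))) : ℝ)) - finrank ℂ V +
      finrank ℂ (fixG ρ ⊤) := rfl
  have h11 : pre s k = ((List.ofFn s).take k).prod := rfl
  rw [h10, h11]
  linarith

theorem pv_nat {G : Type} [Group G] [Fintype G] {V : Type} [NormedAddCommGroup V] [InnerProductSpace ℂ V] [FiniteDimensional ℂ V]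
    {N : ℕ} (s : Fin N → G) (hp : (List.ofFn s).prod = 1) (hg : Subgroup.closure (Set.range s) = ⊤)
    (ρ : Representation ℂ G V) (hρ : ∀ g, IsU (ρ g)) : ∃ m : ℕ, pv s ρ = m := by
  have h1 := chain ρ hρ (List.ofFn s)
  have h2 : (finrank ℂ (fixG ρ (Subgroup.closure {g | g ∈ List.ofFn s})) : ℝ) ≤
      finrank ℂ (fixG ρ ⊤) := by
    have h7 : ⊤ ≤ Subgroup.closure {g | g ∈ List.ofFn s} := by
      rw [← hg]
      refine Subgroup.closure_mono ?_
      rintro g ⟨i, rfl⟩
      exact List.mem_ofFn.2 ⟨i, rfl⟩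
    exact_mod_cast Submodule.finrank_mono (fixG_anti_mug ρ h7)
  rw [hp, map_one, angp_one, sum_mug s (fun g => angp (ρ g) - (finrank ℂ (fixS (ρ g)) : ℝ))] at h1
  have h10 : pv s ρ = ∑ i, (angp (ρ (s i)) - (finrank ℂ (fixS (ρ (s i))) : ℝ)) - finrank ℂ V +
      finrank ℂ (fixG ρ ⊤) := rfl
  have hpos : 0 ≤ pv s ρ := by
    rw [h10]
    linarith
  have hdet : ∀ l : List G, LinearMap.det (ρ l.prod) = ee ((l.map fun g => angp (ρ g)).sum) := by
    intro l
    induction l with
    | nil =>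
      rw [List.prod_nil, map_one, List.map_nil, List.sum_nil]
      have h4 : ee 0 = 1 := (ee_eq_one 0).2 ⟨0, by simp⟩
      rw [h4]
      exact LinearMap.det_id
    | cons g l ih =>
      rw [List.prod_cons, map_mul, map_mul, ih, det_ee (ρ g) (hρ g), List.map_cons, List.sum_cons,
        ee_add]
  have h3 := hdet (List.ofFn s)
  rw [hp, map_one, sum_mug s (fun g => angp (ρ g))] at h3
  have h4 : ee (∑ i, angp (ρ (s i))) = 1 := by
    rw [← h3]
    exact LinearMap.det_id
  obtain ⟨k, hk⟩ := (ee_eq_one _).1 h4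
  obtain ⟨z, hz⟩ : ∃ z : ℤ, pv s ρ = z := by
    refine ⟨k - ∑ i, (finrank ℂ (fixS (ρ (s i))) : ℤ) - finrank ℂ V + finrank ℂ (fixG ρ ⊤), ?_⟩
    rw [h10, Finset.sum_sub_distrib, hk]
    push_cast
    ring
  rw [hz] at hpos
  have hz0 : 0 ≤ z := by exact_mod_cast hpos
  refine ⟨z.toNat, ?_⟩
  rw [hz]
  have h5 : ((z.toNat : ℤ) : ℝ) = (z : ℝ) := by rw [Int.toNat_of_nonneg hz0]
  rw [← h5]
  norm_cast

end Pool.Agent.H52.VC
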