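import Pool.Agent.H52.VC.Ang
import Pool.Agent.H52.VC.Hom

set_option autoImplicit false

/-!
PROJECT VC (MP_bf82d2_ag), module Pai.
The pairing of the character `chi s` with a unitary representation.
PROOF. `chi s g = 1 - [g = 1] |G| + ∑ i, (1/m) ∑ x, ∑ k < m, [x s_i^k x⁻¹ = g] eps m k`, `m = orderOf (s i)`.  The first part
gives `dim V^G` (`fix_eq`), the second `- dim V`, the third `∑ i, (1/m) ∑ k < m, eps m k * tr (ρ (s_i ^ k)⁻¹)` (conjugation
invariance of the trace, the sum over `x` gives `|G|`).  With an eigenbasis of `ρ (s i)` (`udiag`; `ee (t j) ^ m = 1`, so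
`t j = c_j / m`, `1 ≤ c_j ≤ m`): `tr (ρ (s_i ^ k)⁻¹) = ∑ j, ee (- k t j)` and `∑ k < m, zeta m ^ (a k) * ee (- k c_j / m) = m`
if `a ≡ c_j` mod `m`, `0` otherwise, so the third part is `∑ i, ∑ j, (t j if t j < 1, 0 if t j = 1) =
∑ i, (angp (ρ (s i)) - dim fixS (ρ (s i)))` (`angp_eq`, `finrank_fixS`).
-/

namespace Pool.Agent.H52.VC

open Finset Module
open Pool.Agent.H93.Hup (Inv MinInv)
open Pool.Agent.H82.CO (chi quadInv eps zeta)

private theorem ee_zero_pai : ee 0 = 1 := (ee_eq_one 0).2 ⟨0, by simp⟩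

private theorem ee_nat_pai (k : ℕ) (x : ℝ) : ee (k * x) = ee x ^ k := by
  induction k with
  | zero => rw [pow_zero, Nat.cast_zero, zero_mul, ee_zero_pai]
  | succ k ih =>
    rw [pow_succ, ← ih, ← ee_add]
    congr 1
    push_cast
    ring

private theorem zeta_pai (m : ℕ) : zeta m = ee (1 / m) := by
  unfold zeta ee
  congr 1
  push_cast
  ring

private theorem core_pai (m : ℕ) (hm : 0 < m) (t : ℝ) (h0 : 0 < t) (h1 : t ≤ 1) (hmt : ee (m * t) = 1) :
    (1 / (m : ℂ)) * ∑ k ∈ range m, eps m k * ee (-(k * t)) = if t = 1 then 0 else (t : ℂ) := by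
  have hmR : (0 : ℝ) < m := by exact_mod_cast hm
  have hmC : (m : ℂ) ≠ 0 := by exact_mod_cast hm.ne'
  obtain ⟨c, hc⟩ := (ee_eq_one _).1 hmt
  have hc0 : 0 < c := by
    have : (0 : ℝ) < c := by rw [← hc]; exact mul_pos hmR h0
    exact_mod_cast this
  have hcm : c ≤ m := by
    have : (c : ℝ) ≤ m := by
      rw [← hc]
      calc (m : ℝ) * t ≤ m * 1 := mul_le_mul_of_nonneg_left h1 hmR.le
        _ = m := mul_one _
    exact_mod_cast this
  -- powers
  have hw : ∀ a k : ℕ, zeta m ^ (a * k) * ee (-(k * t)) = ee (a / m - t) ^ k := by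
    intro a k
    rw [zeta_pai, ← ee_nat_pai, ← ee_nat_pai, ← ee_add]
    congr 1
    push_cast
    ring
  have hgeo : ∀ a : ℕ, (1 / (m : ℂ)) * ∑ k ∈ range m, ee (a / m - t) ^ k = if ee (a / m - t) = 1 then 1 else 0 := by
    intro a
    by_cases h : ee (a / m - t) = 1
    · rw [if_pos h]
      simp only [h, one_pow, sum_const, card_range, nsmul_eq_mul, mul_one]
      rw [one_div, inv_mul_cancel₀ hmC]
    · rw [if_neg h]
      have h2 : ee (a / m - t) ^ m = 1 := by
        rw [← ee_nat_pai, ee_eq_one]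
        refine ⟨a - c, ?_⟩
        rw [mul_sub, hc]
        push_cast
        field_simp
      have h3 := mul_geom_sum (ee (a / m - t)) m
      rw [h2, sub_self] at h3
      rcases mul_eq_zero.1 h3 with h4 | h4
      · exact absurd (sub_eq_zero.1 h4) h
      · rw [h4, mul_zero]
  have e1 : (1 / (m : ℂ)) * ∑ k ∈ range m, eps m k * ee (-(k * t)) =
      ∑ a ∈ range m, ((a : ℂ) / m) * (if ee (a / m - t) = 1 then 1 else 0) := by
    have e2 : ∀ k ∈ range m, eps m k * ee (-(k * t)) = ∑ a ∈ range m, ((a : ℂ) / m) * ee (a / m - t) ^ k := by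
      intro k _
      unfold eps
      rw [sum_mul]
      exact sum_congr rfl fun a _ => by rw [mul_assoc, hw]
    rw [sum_congr rfl e2, sum_comm, mul_sum]
    refine sum_congr rfl fun a _ => ?_
    rw [← hgeo a, ← mul_sum]
    ring
  rw [e1]
  -- which `a`
  have hone : ∀ a ∈ range m, (ee (a / m - t) = 1 ↔ ((a : ℤ) = c ∨ (c = m ∧ a = 0))) := by
    intro a ha
    have ha' : a < m := mem_range.1 ha
    rw [ee_eq_one]
    have hkey : (a : ℝ) / m - t = ((a : ℝ) - c) / m := by
      rw [← hc]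
      field_simp
    rw [hkey]
    constructor
    · rintro ⟨z, hz⟩
      rw [div_eq_iff hmR.ne'] at hz
      have hz' : (a : ℤ) - c = z * m := by exact_mod_cast hz
      have hz0 : z ≤ 0 := by
        by_contra hcon
        push Not at hcon
        have : (m : ℤ) ≤ z * m := by nlinarith
        omega
      have hz1 : -1 ≤ z := by
        by_contra hcon
        push Not at hcon
        have : z * m ≤ -2 * (m : ℤ) := by nlinarith
        omega
      rcases (show z = 0 ∨ z = -1 by omega) with hz2 | hz2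
      · left
        rw [hz2] at hz'
        omega
      · right
        rw [hz2] at hz'
        omega
    · rintro (h | ⟨h2, h3⟩)
      · refine ⟨0, ?_⟩
        have : (a : ℝ) = c := by exact_mod_cast h
        rw [this]
        simp
      · refine ⟨-1, ?_⟩
        rw [h2, h3]
        push_cast
        field_simp
        ring
  by_cases ht : t = 1
  · rw [if_pos ht]
    have hcm' : c = m := by
      have : (c : ℝ) = m := by rw [← hc, ht, mul_one]
      exact_mod_cast this
    refine sum_eq_zero fun a ha => ?_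
    by_cases h : ee (a / m - t) = 1
    · rcases (hone a ha).1 h with h2 | h2
      · have := mem_range.1 ha
        omega
      · rw [h2.2]
        simp
    · rw [if_neg h, mul_zero]
  · rw [if_neg ht]
    have hcm' : c < m := by
      rcases lt_or_eq_of_le hcm with h | h
      · exact h
      · exfalso
        apply ht
        have : (m : ℝ) * t = m := by rw [hc, h]; simp
        field_simp at this
        exact this
    obtain ⟨a₀, ha₀⟩ : ∃ a₀ : ℕ, (a₀ : ℤ) = c := ⟨c.toNat, Int.toNat_of_nonneg hc0.le⟩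
    have hr : a₀ ∈ range m := mem_range.2 (by omega)
    rw [sum_eq_single_of_mem a₀ hr]
    · rw [if_pos ((hone a₀ hr).2 (Or.inl ha₀)), mul_one]
      have h3 : (a₀ : ℝ) = m * t := by
        rw [hc]
        exact_mod_cast ha₀
      have h4 : (a₀ : ℂ) = m * t := by exact_mod_cast h3
      rw [h4]
      field_simp
    · intro a ha hne
      rw [if_neg, mul_zero]
      intro h
      rcases (hone a ha).1 h with h2 | h2
      · apply hne
        omega
      · omega

private theorem trace_pai {V : Type} [AddCommGroup V] [Module ℂ V] {ι : Type} [Fintype ι]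
    (U : V →ₗ[ℂ] V) (b : Basis ι ℂ V) (c : ι → ℂ) (h : ∀ j, U (b j) = c j • b j) :
    LinearMap.trace ℂ V U = ∑ j, c j := by
  classical
  rw [LinearMap.trace_eq_matrix_trace ℂ b U]
  have h1 : LinearMap.toMatrix b b U = Matrix.diagonal c := by
    ext i j
    rw [LinearMap.toMatrix_apply, h j, map_smul, Basis.repr_self, Finsupp.smul_apply, Finsupp.single_apply,
      Matrix.diagonal_apply, smul_eq_mul]
    by_cases hij : i = j
    · subst hij
      simp
    · rw [if_neg (fun h' => hij h'.symm), if_neg hij, mul_zero]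
  rw [h1, Matrix.trace_diagonal]

private theorem one_pai {G : Type} [Group G] [Fintype G] {V : Type} [NormedAddCommGroup V] [InnerProductSpace ℂ V]
    [FiniteDimensional ℂ V] (ρ : Representation ℂ G V) (g : G) (hg : IsU (ρ g)) :
    (1 / (orderOf g : ℂ)) * ∑ k ∈ range (orderOf g), eps (orderOf g) k * LinearMap.trace ℂ V (ρ (g ^ k)⁻¹) =
      ((angp (ρ g) - finrank ℂ (fixS (ρ g)) : ℝ) : ℂ) := by
  obtain ⟨b, t, ht, hb⟩ := udiag (ρ g) hg
  have hb' : ∀ j, ρ g (b.toBasis j) = ee (t j) • b.toBasis j := by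
    intro j
    rw [OrthonormalBasis.coe_toBasis]
    exact hb j
  have hpow : ∀ (k : ℕ) j, ρ (g ^ k) (b.toBasis j) = ee (k * t j) • b.toBasis j := by
    intro k j
    induction k with
    | zero => rw [pow_zero, map_one, Nat.cast_zero, zero_mul, ee_zero_pai, one_smul]; rfl
    | succ k ih =>
      rw [pow_succ, map_mul]
      show ρ (g ^ k) (ρ g (b.toBasis j)) = _
      rw [hb', map_smul, ih, smul_smul, ← ee_add]
      congr 2
      push_cast
      ring
  have hinv : ∀ (k : ℕ) j, ρ (g ^ k)⁻¹ (b.toBasis j) = ee (-(k * t j)) • b.toBasis j := by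
    intro k j
    have h1 : ρ (g ^ k)⁻¹ (ρ (g ^ k) (b.toBasis j)) = b.toBasis j := Representation.inv_self_apply _ _ _
    rw [hpow, map_smul] at h1
    have h2 : ee (-(k * t j)) * ee (k * t j) = 1 := by
      rw [← ee_add, neg_add_cancel, ee_zero_pai]
    calc ρ (g ^ k)⁻¹ (b.toBasis j) = (ee (-(k * t j)) * ee (k * t j)) • ρ (g ^ k)⁻¹ (b.toBasis j) := by
          rw [h2, one_smul]
      _ = ee (-(k * t j)) • (ee (k * t j) • ρ (g ^ k)⁻¹ (b.toBasis j)) := by rw [smul_smul]
      _ = _ := by rw [h1]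
  have hord : ∀ j, ee (orderOf g * t j) = 1 := by
    intro j
    have h1 := hpow (orderOf g) j
    rw [pow_orderOf_eq_one, map_one] at h1
    have h2 : (1 - ee (orderOf g * t j)) • b.toBasis j = 0 := by
      rw [sub_smul, one_smul, ← h1]
      exact sub_self _
    rcases smul_eq_zero.1 h2 with h3 | h3
    · exact (sub_eq_zero.1 h3).symm
    · exact absurd h3 (b.toBasis.ne_zero j)
  have e1 : ∀ k ∈ range (orderOf g), eps (orderOf g) k * LinearMap.trace ℂ V (ρ (g ^ k)⁻¹) =
      ∑ j, eps (orderOf g) k * ee (-(k * t j)) := by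
    intro k _
    rw [trace_pai _ b.toBasis _ (hinv k), mul_sum]
  rw [sum_congr rfl e1, sum_comm, mul_sum]
  rw [sum_congr rfl fun j _ => core_pai (orderOf g) (orderOf_pos g) (t j) (ht j).1 (ht j).2 (hord j)]
  rw [angp_eq (ρ g) b.toBasis t ht hb', finrank_fixS (ρ g) b.toBasis t ht hb']
  have e2 : ∀ j, (if t j = 1 then 0 else (t j : ℂ)) = ((t j - (if t j = 1 then 1 else 0) : ℝ) : ℂ) := by
    intro j
    by_cases h : t j = 1
    · rw [if_pos h, if_pos h, h]
      simp
    · rw [if_neg h, if_neg h, sub_zero]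
  rw [sum_congr rfl fun j _ => e2 j, ← Complex.ofReal_sum, sum_sub_distrib, sum_boole]

theorem pair_eq {G : Type} [Group G] [Fintype G] {V : Type} [NormedAddCommGroup V] [InnerProductSpace ℂ V] [FiniteDimensional ℂ V]
    {N : ℕ} (s : Fin N → G) (ρ : Representation ℂ G V) (hρ : ∀ g, IsU (ρ g)) :
    (1 / (Nat.card G : ℂ)) * ∑ g, chi s g * LinearMap.trace ℂ V (ρ g⁻¹) = (pv s ρ : ℂ) := by
  classical
  have hG : (Nat.card G : ℂ) ≠ 0 := Nat.cast_ne_zero.2 Nat.card_pos.ne'
  have hconj : ∀ x g : G, LinearMap.trace ℂ V (ρ (x * g * x⁻¹)⁻¹) = LinearMap.trace ℂ V (ρ g⁻¹) := by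
    intro x g
    have h1 : (x * g * x⁻¹)⁻¹ = x * g⁻¹ * x⁻¹ := by group
    rw [h1, map_mul, LinearMap.trace_mul_comm, ← map_mul, ← mul_assoc, inv_mul_cancel, one_mul]
  have hterm : ∀ i, ∑ g, ((1 / (orderOf (s i) : ℂ)) * ∑ x : G, ∑ k ∈ range (orderOf (s i)),
      if x * s i ^ k * x⁻¹ = g then eps (orderOf (s i)) k else 0) * LinearMap.trace ℂ V (ρ g⁻¹) =
      (Nat.card G : ℂ) * ((angp (ρ (s i)) - finrank ℂ (fixS (ρ (s i))) : ℝ) : ℂ) := by
    intro i
    rw [← one_pai ρ (s i) (hρ _)]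
    have h1 : ∀ g, ((1 / (orderOf (s i) : ℂ)) * ∑ x : G, ∑ k ∈ range (orderOf (s i)),
        if x * s i ^ k * x⁻¹ = g then eps (orderOf (s i)) k else 0) * LinearMap.trace ℂ V (ρ g⁻¹) =
        (1 / (orderOf (s i) : ℂ)) * ∑ x : G, ∑ k ∈ range (orderOf (s i)),
          if x * s i ^ k * x⁻¹ = g then eps (orderOf (s i)) k * LinearMap.trace ℂ V (ρ g⁻¹) else 0 := by
      intro g
      rw [mul_assoc, sum_mul]
      congr 1
      refine sum_congr rfl fun x _ => ?_
      rw [sum_mul]
      exact sum_congr rfl fun k _ => by rw [ite_mul, zero_mul]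
    rw [sum_congr rfl fun g _ => h1 g, ← mul_sum, sum_comm]
    have h2 : ∀ x : G, ∑ g, ∑ k ∈ range (orderOf (s i)),
        (if x * s i ^ k * x⁻¹ = g then eps (orderOf (s i)) k * LinearMap.trace ℂ V (ρ g⁻¹) else 0) =
        ∑ k ∈ range (orderOf (s i)), eps (orderOf (s i)) k * LinearMap.trace ℂ V (ρ (s i ^ k)⁻¹) := by
      intro x
      rw [sum_comm]
      refine sum_congr rfl fun k _ => ?_
      rw [sum_ite_eq univ (x * s i ^ k * x⁻¹), if_pos (mem_univ _), hconj]
    rw [sum_congr rfl fun x _ => h2 x, sum_const, card_univ, nsmul_eq_mul, Nat.card_eq_fintype_card]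
    ring
  have h1 : ∑ g, chi s g * LinearMap.trace ℂ V (ρ g⁻¹) =
      ∑ g, LinearMap.trace ℂ V (ρ g⁻¹) - (Nat.card G : ℂ) * finrank ℂ V +
        ∑ i, (Nat.card G : ℂ) * ((angp (ρ (s i)) - finrank ℂ (fixS (ρ (s i))) : ℝ) : ℂ) := by
    have h2 : ∀ g, chi s g * LinearMap.trace ℂ V (ρ g⁻¹) = LinearMap.trace ℂ V (ρ g⁻¹) -
        (if g = 1 then (Nat.card G : ℂ) * LinearMap.trace ℂ V (ρ g⁻¹) else 0) +
        ∑ i, ((1 / (orderOf (s i) : ℂ)) * ∑ x : G, ∑ k ∈ range (orderOf (s i)),
          if x * s i ^ k * x⁻¹ = g then eps (orderOf (s i)) k else 0) * LinearMap.trace ℂ V (ρ g⁻¹) := by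
      intro g
      unfold chi
      rw [add_mul, sub_mul, one_mul, ite_mul, zero_mul, sum_mul]
    rw [sum_congr rfl fun g _ => h2 g, sum_add_distrib, sum_sub_distrib, sum_comm,
      sum_congr rfl fun i _ => hterm i, sum_ite_eq' univ (1 : G), if_pos (mem_univ _), inv_one, map_one,
      LinearMap.trace_one]
  rw [h1, ← mul_sum, mul_add, mul_sub, ← fix_eq, ← mul_assoc, ← mul_assoc, one_div, inv_mul_cancel₀ hG]
  unfold pv
  push_cast
  ring

end Pool.Agent.H52.VC
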