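import Pool.Agent.H52.VC.Defs

set_option autoImplicit false

/-!
PROJECT VC (MP_bf82d2_ag), module Udg.
Unitary operators have an orthonormal eigenbasis.
PROOF. Induction on the dimension, or: the eigenspaces are pairwise orthogonal (eigenvalues have absolute value 1:
`inner (U x) (U x) = inner x x`); the orthogonal complement of their sum is stable under `U` (U is bijective and
preserves the inner product) and contains an eigenvector if it is not `0` (`Module.End.exists_eigenvalue`).  A complex
number of absolute value 1 is `ee t` with `0 < t ≤ 1`.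
-/

namespace Pool.Agent.H52.VC

open Finset Module
open Pool.Agent.H93.Hup (Inv MinInv)
open Pool.Agent.H82.CO (chi quadInv)

theorem exists_ee (z : ℂ) (hz : ‖z‖ = 1) : ∃ t : ℝ, (0 < t ∧ t ≤ 1) ∧ z = ee t := by
  have hpi := Real.pi_pos
  have h0 : Complex.exp (Complex.arg z * Complex.I) = z := by
    have h := Complex.norm_mul_exp_arg_mul_I z
    rwa [hz, Complex.ofReal_one, one_mul] at h
  have h1 := Complex.arg_le_pi z
  have h2 := Complex.neg_pi_lt_arg z
  have hpc : (Real.pi : ℂ) ≠ 0 := by exact_mod_cast hpi.ne'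
  by_cases h3 : 0 < Complex.arg z
  · refine ⟨Complex.arg z / (2 * Real.pi), ⟨by positivity, ?_⟩, ?_⟩
    · rw [div_le_one (by positivity)]
      linarith
    · unfold ee
      conv_lhs => rw [← h0]
      congr 1
      push_cast
      field_simp
  · push Not at h3
    refine ⟨Complex.arg z / (2 * Real.pi) + 1, ⟨?_, ?_⟩, ?_⟩
    · have h4 : -1 < Complex.arg z / (2 * Real.pi) := by
        rw [lt_div_iff₀ (by positivity)]
        linarith
      linarith
    · have h4 : Complex.arg z / (2 * Real.pi) ≤ 0 :=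
        div_nonpos_of_nonpos_of_nonneg h3 (by positivity)
      linarith
    · unfold ee
      have h5 : (2 * Real.pi * ((Complex.arg z / (2 * Real.pi) + 1 : ℝ) : ℂ) * Complex.I)
          = Complex.arg z * Complex.I + 2 * Real.pi * Complex.I := by
        push_cast
        field_simp
      rw [h5, Complex.exp_add, Complex.exp_two_pi_mul_I, mul_one, h0]

private lemma norm_udg {V : Type} [NormedAddCommGroup V] [InnerProductSpace ℂ V]
    {U : V →ₗ[ℂ] V} (hU : IsU U) {μ : ℂ} {v : V} (hv : v ≠ 0) (h : U v = μ • v) : ‖μ‖ = 1 := by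
  have h1 : ‖U v‖ = ‖v‖ := by
    have h2 := hU v v
    rw [inner_self_eq_norm_sq_to_K, inner_self_eq_norm_sq_to_K] at h2
    have h3 : ‖U v‖ ^ 2 = ‖v‖ ^ 2 := by exact_mod_cast h2
    exact (sq_eq_sq₀ (norm_nonneg _) (norm_nonneg _)).mp h3
  rw [h, norm_smul] at h1
  exact mul_right_cancel₀ (norm_ne_zero_iff.mpr hv) (by rw [h1, one_mul])

private lemma perp_udg {V : Type} [NormedAddCommGroup V] [InnerProductSpace ℂ V]
    {U : V →ₗ[ℂ] V} (hU : IsU U) {μ : ℂ} {v x : V} (h : U v = μ • v)
    (hx : inner ℂ v x = 0) : inner ℂ v (U x) = 0 := by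
  by_cases hv : v = 0
  · rw [hv, inner_zero_left]
  · have h1 := norm_udg hU hv h
    have h2 := hU v x
    rw [hx, h, inner_smul_left] at h2
    rcases mul_eq_zero.mp h2 with h3 | h3
    · exfalso
      rw [map_eq_zero] at h3
      rw [h3, norm_zero] at h1
      exact one_ne_zero h1.symm
    · exact h3

theorem udiag {V : Type} [NormedAddCommGroup V] [InnerProductSpace ℂ V] [FiniteDimensional ℂ V]
    (U : V →ₗ[ℂ] V) (hU : IsU U) :
    ∃ (b : OrthonormalBasis (Fin (finrank ℂ V)) ℂ V) (t : Fin (finrank ℂ V) → ℝ),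
      (∀ j, 0 < t j ∧ t j ≤ 1) ∧ ∀ j, U (b j) = ee (t j) • b j := by
  have hV : OrthogonalFamily ℂ (fun μ : Module.End.Eigenvalues U => Module.End.eigenspace U μ)
      fun μ => (Module.End.eigenspace U μ).subtypeₗᵢ := by
    intro μ ν hne v w
    change inner ℂ (v : V) (w : V) = 0
    have hv : U v = (μ : ℂ) • (v : V) := Module.End.mem_eigenspace_iff.mp v.2
    have hw : U w = (ν : ℂ) • (w : V) := Module.End.mem_eigenspace_iff.mp w.2
    by_contra hcon
    have hv0 : (v : V) ≠ 0 := fun h => hcon (by rw [h, inner_zero_left])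
    have h1 := norm_udg hU hv0 hv
    have h2 := hU v w
    rw [hv, hw, inner_smul_left, inner_smul_right, ← mul_assoc] at h2
    have h3 : (starRingEnd ℂ) (μ : ℂ) * (ν : ℂ) = 1 :=
      mul_right_cancel₀ hcon (by rw [h2, one_mul])
    have h4 : (μ : ℂ) * (starRingEnd ℂ) (μ : ℂ) = 1 := by
      rw [Complex.mul_conj, Complex.normSq_eq_norm_sq, h1]
      simp
    apply hne
    apply Subtype.ext
    calc (μ : ℂ) = (μ : ℂ) * ((starRingEnd ℂ) (μ : ℂ) * (ν : ℂ)) := by rw [h3, mul_one]
      _ = (ν : ℂ) := by rw [← mul_assoc, h4, one_mul]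
  have hint : (⨆ μ : Module.End.Eigenvalues U, Module.End.eigenspace U μ)ᗮ = ⊥ := by
    set W : Submodule ℂ V := (⨆ μ : Module.End.Eigenvalues U, Module.End.eigenspace U μ)ᗮ with hW
    have hst : ∀ x ∈ W, U x ∈ W := by
      intro x hx
      rw [hW, Submodule.mem_orthogonal] at hx ⊢
      intro u hu
      refine Submodule.iSup_induction (fun μ : Module.End.Eigenvalues U =>
        Module.End.eigenspace U (μ : ℂ)) (motive := fun u => inner ℂ u (U x) = 0) hu ?_ ?_ ?_
      · intro μ y hy
        exact perp_udg hU (Module.End.mem_eigenspace_iff.mp hy)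
          (hx y (Submodule.mem_iSup_of_mem μ hy))
      · exact inner_zero_left _
      · intro y z hy hz
        rw [inner_add_left, hy, hz, add_zero]
    by_contra hne
    haveI : Nontrivial W := Submodule.nontrivial_iff_ne_bot.mpr hne
    obtain ⟨c, hc⟩ := Module.End.exists_eigenvalue (U.restrict hst)
    obtain ⟨x, hx⟩ := hc.exists_hasEigenvector
    have hx1 : U (x : V) = c • (x : V) := by
      have h1 := hx.apply_eq_smul
      have h2 := congrArg (fun w : W => (w : V)) h1
      simpa using h2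
    have hx0 : (x : V) ≠ 0 := fun h => hx.2 (Subtype.ext h)
    have hev : Module.End.HasEigenvalue U c :=
      Module.End.hasEigenvalue_of_hasEigenvector (x := (x : V))
        ⟨Module.End.mem_eigenspace_iff.mpr hx1, hx0⟩
    have h3 : (x : V) ∈ ⨆ μ : Module.End.Eigenvalues U, Module.End.eigenspace U μ :=
      Submodule.mem_iSup_of_mem (⟨c, hev⟩ : Module.End.Eigenvalues U)
        (Module.End.mem_eigenspace_iff.mpr hx1)
    have h4 := (Submodule.mem_orthogonal _ _).mp x.2 _ h3
    exact hx0 (inner_self_eq_zero.mp h4)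
  have hI : DirectSum.IsInternal fun μ : Module.End.Eigenvalues U =>
      Module.End.eigenspace U (μ : ℂ) := hV.isInternal_iff.mpr hint
  set b : OrthonormalBasis (Fin (finrank ℂ V)) ℂ V := hI.subordinateOrthonormalBasis rfl hV with hb
  have hb1 : ∀ j, ∃ μ : ℂ, U (b j) = μ • b j := by
    intro j
    exact ⟨_, Module.End.mem_eigenspace_iff.mp (hI.subordinateOrthonormalBasis_subordinate rfl j hV)⟩
  have hb2 : ∀ j, ∃ t : ℝ, (0 < t ∧ t ≤ 1) ∧ U (b j) = ee t • b j := by
    intro j
    obtain ⟨μ, hμ⟩ := hb1 j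
    have hne : b j ≠ 0 := by
      intro h
      have := b.orthonormal.1 j
      rw [h, norm_zero] at this
      exact zero_ne_one this
    obtain ⟨t, ht, hz⟩ := exists_ee μ (norm_udg hU hne hμ)
    exact ⟨t, ht, by rw [hμ, hz]⟩
  choose t ht using hb2
  exact ⟨b, t, fun j => (ht j).1, fun j => (ht j).2⟩

end Pool.Agent.H52.VC
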