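import Pool.Agent.H52.VC.Ang
import Pool.Agent.H52.VC.Udg

set_option autoImplicit false

/-!
PROJECT VC / FIN (MP_bf82d2_ag), module AbA: characters of a finite abelian group, `chi s` and `quadInv s` in
terms of them.
-/

namespace Pool.Agent.H52.VC.Abl

open Finset
open Pool.Agent.H82.CO (chi quadInv genus eps zeta)

theorem ee_zero : ee 0 = 1 := (ee_eq_one 0).2 ⟨0, by simp⟩

theorem ee_nat (k : ℕ) (x : ℝ) : ee (k * x) = ee x ^ k := by
  induction k with
  | zero => rw [pow_zero, Nat.cast_zero, zero_mul, ee_zero]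
  | succ k ih =>
    rw [pow_succ, ← ih, ← ee_add]
    congr 1
    push_cast
    ring

theorem ee_neg_mul (x : ℝ) : ee (-x) * ee x = 1 := by
  rw [← ee_add, neg_add_cancel, ee_zero]

theorem zeta_ee (m : ℕ) : zeta m = ee (1 / m) := by
  unfold zeta ee
  congr 1
  push_cast
  ring

/-- Fourier inversion on the `m`-th roots of unity. -/
theorem fourier (m : ℕ) (hm : 0 < m) (t : ℝ) (h0 : 0 < t) (h1 : t ≤ 1) (hmt : ee (m * t) = 1) :
    ∃ a₀ : ℕ, a₀ < m ∧ ((t ≠ 1 ∧ t = a₀ / m) ∨ (t = 1 ∧ a₀ = 0)) ∧ ∀ f : ℕ → ℂ,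
      (1 / (m : ℂ)) * ∑ k ∈ range m, (∑ a ∈ range m, f a * zeta m ^ (a * k)) * ee (-(k * t)) = f a₀ := by
  have hmR : (0 : ℝ) < m := by exact_mod_cast hm
  have hmC : (m : ℂ) ≠ 0 := by exact_mod_cast hm.ne'
  obtain ⟨c, hc⟩ := (ee_eq_one _).1 hmt
  have hc0 : 0 < c := by
    have : (0 : ℝ) < c := by rw [← hc]; exact mul_pos hmR h0
    exact_mod_cast this
  have hcm : c ≤ m := by
    have : (c : ℝ) ≤ m := by
      rw [← hc]
      calc (m : ℝ) * t ≤ m * 1 := mul_le_mul_of_nonneg_left h1 hmR.le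
        _ = m := mul_one _
    exact_mod_cast this
  have hw : ∀ a k : ℕ, zeta m ^ (a * k) * ee (-(k * t)) = ee (a / m - t) ^ k := by
    intro a k
    rw [zeta_ee, ← ee_nat, ← ee_nat, ← ee_add]
    congr 1
    push_cast
    ring
  have hgeo : ∀ a : ℕ, (1 / (m : ℂ)) * ∑ k ∈ range m, ee (a / m - t) ^ k =
      if ee (a / m - t) = 1 then 1 else 0 := by
    intro a
    by_cases h : ee (a / m - t) = 1
    · rw [if_pos h]
      simp only [h, one_pow, sum_const, card_range, nsmul_eq_mul, mul_one]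
      rw [one_div, inv_mul_cancel₀ hmC]
    · rw [if_neg h]
      have h2 : ee (a / m - t) ^ m = 1 := by
        rw [← ee_nat, ee_eq_one]
        refine ⟨a - c, ?_⟩
        rw [mul_sub, hc]
        push_cast
        field_simp
      have h3 := mul_geom_sum (ee (a / m - t)) m
      rw [h2, sub_self] at h3
      rcases mul_eq_zero.1 h3 with h4 | h4
      · exact absurd (sub_eq_zero.1 h4) h
      · rw [h4, mul_zero]
  have hone : ∀ a ∈ range m, (ee (a / m - t) = 1 ↔ ((a : ℤ) = c ∨ (c = m ∧ a = 0))) := by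
    intro a ha
    have ha' : a < m := mem_range.1 ha
    rw [ee_eq_one]
    have hkey : (a : ℝ) / m - t = ((a : ℝ) - c) / m := by
      rw [← hc]
      field_simp
    rw [hkey]
    constructor
    · rintro ⟨z, hz⟩
      rw [div_eq_iff hmR.ne'] at hz
      have hz' : (a : ℤ) - c = z * m := by exact_mod_cast hz
      have hz0 : z ≤ 0 := by
        by_contra hcon
        push Not at hcon
        have : (m : ℤ) ≤ z * m := by nlinarith
        omega
      have hz1 : -1 ≤ z := by
        by_contra hcon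
        push Not at hcon
        have : z * m ≤ -2 * (m : ℤ) := by nlinarith
        omega
      rcases (show z = 0 ∨ z = -1 by omega) with hz2 | hz2
      · left
        rw [hz2] at hz'
        omega
      · right
        rw [hz2] at hz'
        omega
    · rintro (h | ⟨h2, h3⟩)
      · refine ⟨0, ?_⟩
        have : (a : ℝ) = c := by exact_mod_cast h
        rw [this]
        simp
      · refine ⟨-1, ?_⟩
        rw [h2, h3]
        push_cast
        field_simp
        ring
  have hsum : ∀ f : ℕ → ℂ,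
      (1 / (m : ℂ)) * ∑ k ∈ range m, (∑ a ∈ range m, f a * zeta m ^ (a * k)) * ee (-(k * t)) =
      ∑ a ∈ range m, f a * (if ee (a / m - t) = 1 then 1 else 0) := by
    intro f
    have e2 : ∀ k ∈ range m, (∑ a ∈ range m, f a * zeta m ^ (a * k)) * ee (-(k * t)) =
        ∑ a ∈ range m, f a * ee (a / m - t) ^ k := by
      intro k _
      rw [sum_mul]
      exact sum_congr rfl fun a _ => by rw [mul_assoc, hw]
    rw [sum_congr rfl e2, sum_comm, mul_sum]
    refine sum_congr rfl fun a _ => ?_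
    rw [← hgeo a, ← mul_sum]
    ring
  by_cases ht : t = 1
  · have hcm' : c = m := by
      have : (c : ℝ) = m := by rw [← hc, ht, mul_one]
      exact_mod_cast this
    refine ⟨0, hm, Or.inr ⟨ht, rfl⟩, ?_⟩
    intro f
    rw [hsum, sum_eq_single_of_mem 0 (mem_range.2 hm)]
    · rw [if_pos ((hone 0 (mem_range.2 hm)).2 (Or.inr ⟨hcm', rfl⟩)), mul_one]
    · intro a ha hne
      rw [if_neg, mul_zero]
      intro h
      rcases (hone a ha).1 h with h2 | h2
      · have := mem_range.1 ha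
        omega
      · exact hne h2.2
  · have hcm' : c < m := by
      rcases lt_or_eq_of_le hcm with h | h
      · exact h
      · exfalso
        apply ht
        have : (m : ℝ) * t = m := by rw [hc, h]; simp
        field_simp at this
        exact this
    obtain ⟨a₀, ha₀⟩ : ∃ a₀ : ℕ, (a₀ : ℤ) = c := ⟨c.toNat, Int.toNat_of_nonneg hc0.le⟩
    have hr : a₀ ∈ range m := mem_range.2 (by omega)
    refine ⟨a₀, mem_range.1 hr, Or.inl ⟨ht, ?_⟩, ?_⟩
    · have h3 : (a₀ : ℝ) = m * t := by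
        rw [hc]
        exact_mod_cast ha₀
      rw [h3]
      field_simp
    · intro f
      rw [hsum, sum_eq_single_of_mem a₀ hr]
      · rw [if_pos ((hone a₀ hr).2 (Or.inl ha₀)), mul_one]
      · intro a ha hne
        rw [if_neg, mul_zero]
        intro h
        rcases (hone a ha).1 h with h2 | h2
        · apply hne
          omega
        · omega

section chars

variable {G : Type} [CommGroup G] [Fintype G]

/-- the value of a character -/
noncomputable def va (ψ : AddChar (Additive G) ℂ) (g : G) : ℂ := ψ (Additive.ofMul g)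

theorem va_mul (ψ : AddChar (Additive G) ℂ) (g h : G) : va ψ (g * h) = va ψ g * va ψ h := by
  unfold va
  rw [ofMul_mul, AddChar.map_add_eq_mul]

theorem va_one (ψ : AddChar (Additive G) ℂ) : va ψ 1 = 1 := by
  unfold va
  rw [ofMul_one, AddChar.map_zero_eq_one]

theorem va_pow (ψ : AddChar (Additive G) ℂ) (g : G) (k : ℕ) : va ψ (g ^ k) = va ψ g ^ k := by
  induction k with
  | zero => rw [pow_zero, pow_zero, va_one]
  | succ k ih => rw [pow_succ, pow_succ, va_mul, ih]

theorem va_ord (ψ : AddChar (Additive G) ℂ) (g : G) : va ψ g ^ orderOf g = 1 := by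
  rw [← va_pow, pow_orderOf_eq_one, va_one]

theorem va_norm (ψ : AddChar (Additive G) ℂ) (g : G) : ‖va ψ g‖ = 1 := by
  have h1 := congrArg norm (va_ord ψ g)
  rw [norm_pow, norm_one] at h1
  exact (pow_eq_one_iff_of_nonneg (norm_nonneg _) (orderOf_pos g).ne').1 h1

theorem va_inv (ψ : AddChar (Additive G) ℂ) (g : G) : va ψ g⁻¹ * va ψ g = 1 := by
  rw [← va_mul, inv_mul_cancel, va_one]

theorem va_add (ψ φ : AddChar (Additive G) ℂ) (g : G) : va (ψ + φ) g = va ψ g * va φ g := by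
  unfold va
  rw [AddChar.add_apply]

theorem va_neg (ψ : AddChar (Additive G) ℂ) (g : G) : va (-ψ) g = va ψ g⁻¹ := by
  unfold va
  rw [AddChar.neg_apply, ofMul_inv]

theorem va_zero (g : G) : va (0 : AddChar (Additive G) ℂ) g = 1 := by
  unfold va
  rw [AddChar.zero_apply]

open Classical in
theorem col (g : G) : ∑ ψ : AddChar (Additive G) ℂ, va ψ g = if g = 1 then (Nat.card G : ℂ) else 0 := by
  unfold va
  rw [AddChar.sum_apply_eq_ite]
  have h1 : Fintype.card (Additive G) = Nat.card G := by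
    rw [← Nat.card_eq_fintype_card]
    rfl
  rw [h1]
  by_cases h : g = 1
  · rw [if_pos h, if_pos]
    rw [h]
    rfl
  · rw [if_neg h, if_neg]
    intro h2
    exact h (Additive.ofMul.injective (by rw [h2]; rfl))

open Classical in
theorem row (ψ : AddChar (Additive G) ℂ) : ∑ g : G, va ψ g = if ψ = 0 then (Nat.card G : ℂ) else 0 := by
  have h1 : ∑ g : G, va ψ g = ∑ x : Additive G, ψ x := by
    unfold va
    exact Equiv.sum_comp (Additive.ofMul (α := G)) (fun x => ψ x)
  have h2 : Fintype.card (Additive G) = Nat.card G := by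
    rw [← Nat.card_eq_fintype_card]
    rfl
  rw [h1, AddChar.sum_eq_ite, h2]

/-- the angle in `(0, 1]` -/
noncomputable def tt (ψ : AddChar (Additive G) ℂ) (g : G) : ℝ := tp (va ψ g)

theorem tt_spec (ψ : AddChar (Additive G) ℂ) (g : G) :
    0 < tt ψ g ∧ tt ψ g ≤ 1 ∧ va ψ g = ee (tt ψ g) := by
  obtain ⟨t, ⟨h0, h1⟩, h2⟩ := exists_ee (va ψ g) (va_norm ψ g)
  have h3 : tt ψ g = t := by
    unfold tt
    rw [h2, tp_ee t h0 h1]
  rw [h3]
  exact ⟨h0, h1, h2⟩

theorem tt_ord (ψ : AddChar (Additive G) ℂ) (g : G) : ee (orderOf g * tt ψ g) = 1 := by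
  rw [ee_nat, ← (tt_spec ψ g).2.2, va_ord]

theorem ee_neg_tt (ψ : AddChar (Additive G) ℂ) (g : G) (k : ℕ) : ee (-(k * tt ψ g)) = va ψ (g ^ k)⁻¹ := by
  have h1 : ee (-(k * tt ψ g)) * ee (k * tt ψ g) = 1 := ee_neg_mul _
  have h2 : ee (k * tt ψ g) = va ψ (g ^ k) := by
    rw [ee_nat, ← (tt_spec ψ g).2.2, va_pow]
  have h3 : va ψ (g ^ k)⁻¹ * va ψ (g ^ k) = 1 := va_inv ψ _
  have h4 : va ψ (g ^ k) ≠ 0 := by
    intro h
    rw [h, mul_zero] at h3
    exact zero_ne_one h3
  rw [h2] at h1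
  exact mul_right_cancel₀ h4 (h1.trans h3.symm)

/-- the angle in `[0, 1)` -/
noncomputable def al (ψ : AddChar (Additive G) ℂ) (g : G) : ℝ := if tt ψ g = 1 then 0 else tt ψ g

theorem al_eps (ψ : AddChar (Additive G) ℂ) (c : G) :
    (al ψ c : ℂ) = (1 / (orderOf c : ℂ)) * ∑ k ∈ range (orderOf c), eps (orderOf c) k * va ψ (c ^ k)⁻¹ := by
  obtain ⟨h0, h1, _⟩ := tt_spec ψ c
  obtain ⟨a₀, _, h3, h4⟩ := fourier (orderOf c) (orderOf_pos c) (tt ψ c) h0 h1 (tt_ord ψ c)
  have h5 := h4 (fun a => (a : ℂ) / orderOf c)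
  have h6 : (al ψ c : ℂ) = (a₀ : ℂ) / orderOf c := by
    unfold al
    rcases h3 with ⟨h, h'⟩ | ⟨h, h'⟩
    · rw [if_neg h]
      conv_lhs => rw [h']
      push_cast
      rfl
    · rw [if_pos h, h']
      simp
  rw [h6, ← h5]
  congr 1
  refine sum_congr rfl fun k _ => ?_
  rw [ee_neg_tt]
  rfl

/-- the sum over the characters of a function of the angle of `c` -/
theorem sum_fun (F : ℝ → ℝ) (hF : F 1 = F 0) (c : G) :
    ∑ ψ : AddChar (Additive G) ℂ, F (tt ψ c) =
      (Nat.card G : ℝ) / orderOf c * ∑ a ∈ range (orderOf c), F (a / orderOf c) := by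
  classical
  set m := orderOf c with hm
  have hm0 : 0 < m := orderOf_pos c
  have hmC : (m : ℂ) ≠ 0 := by exact_mod_cast hm0.ne'
  have key : ∀ ψ : AddChar (Additive G) ℂ, (F (tt ψ c) : ℂ) =
      (1 / (m : ℂ)) * ∑ k ∈ range m, (∑ a ∈ range m, (F (a / m) : ℂ) * zeta m ^ (a * k)) * va ψ (c ^ k)⁻¹ := by
    intro ψ
    obtain ⟨h0, h1, _⟩ := tt_spec ψ c
    obtain ⟨a₀, _, h3, h4⟩ := fourier m hm0 (tt ψ c) h0 h1 (tt_ord ψ c)
    have h5 := h4 (fun a => (F (a / m) : ℂ))
    have h6 : (F (tt ψ c) : ℂ) = (F (a₀ / m) : ℂ) := by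
      rcases h3 with ⟨h, h'⟩ | ⟨h, h'⟩
      · conv_lhs => rw [h']
      · rw [h, h', hF]
        simp
    rw [h6, ← h5]
    congr 1
    refine sum_congr rfl fun k _ => ?_
    rw [ee_neg_tt]
  have h1 : ((∑ ψ : AddChar (Additive G) ℂ, F (tt ψ c) : ℝ) : ℂ) =
      ((Nat.card G : ℝ) / m * ∑ a ∈ range m, F (a / m) : ℝ) := by
    push_cast
    rw [sum_congr rfl fun ψ _ => key ψ, ← mul_sum, sum_comm]
    have h2 : ∀ k ∈ range m, ∑ ψ : AddChar (Additive G) ℂ,
        (∑ a ∈ range m, (F (a / m) : ℂ) * zeta m ^ (a * k)) * va ψ (c ^ k)⁻¹ =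
        if k = 0 then (∑ a ∈ range m, (F (a / m) : ℂ)) * Nat.card G else 0 := by
      intro k hk
      rw [← mul_sum, col]
      by_cases hk0 : k = 0
      · rw [if_pos hk0, if_pos (by rw [hk0, pow_zero, inv_one]), hk0]
        simp
      · rw [if_neg hk0, if_neg, mul_zero]
        intro h
        rw [inv_eq_one] at h
        have := Nat.le_of_dvd (Nat.pos_of_ne_zero hk0) (orderOf_dvd_of_pow_eq_one h)
        rw [← hm] at this
        exact absurd (mem_range.1 hk) (not_lt.2 this)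
    rw [sum_congr rfl h2, sum_ite_eq' (range m) 0, if_pos (mem_range.2 hm0)]
    push_cast
    ring
  exact_mod_cast h1

/-- the multiplicity of `ψ` in `chi s` -/
noncomputable def mm {N : ℕ} (s : Fin N → G) (ψ : AddChar (Additive G) ℂ) : ℝ :=
  open Classical in (if ψ = 0 then 1 else 0) - 1 + ∑ i, al ψ (s i)

open Classical in
theorem ind_exp (c g : G) :
    (1 / (orderOf c : ℂ)) * ∑ x : G, ∑ k ∈ range (orderOf c),
      (if x * c ^ k * x⁻¹ = g then eps (orderOf c) k else 0) =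
      ∑ ψ : AddChar (Additive G) ℂ, (al ψ c : ℂ) * va ψ g := by
  have h1 : ∀ ψ : AddChar (Additive G) ℂ, (al ψ c : ℂ) * va ψ g =
      (1 / (orderOf c : ℂ)) * ∑ k ∈ range (orderOf c), eps (orderOf c) k * va ψ ((c ^ k)⁻¹ * g) := by
    intro ψ
    rw [al_eps, mul_assoc, sum_mul]
    congr 1
    refine sum_congr rfl fun k _ => ?_
    rw [va_mul, mul_assoc]
  rw [sum_congr rfl fun ψ _ => h1 ψ, ← mul_sum]
  congr 1
  have hR : ∑ ψ : AddChar (Additive G) ℂ, ∑ k ∈ range (orderOf c), eps (orderOf c) k * va ψ ((c ^ k)⁻¹ * g) =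
      ∑ k ∈ range (orderOf c), ∑ ψ : AddChar (Additive G) ℂ, eps (orderOf c) k * va ψ ((c ^ k)⁻¹ * g) :=
    Finset.sum_comm
  have hL : ∑ x : G, ∑ k ∈ range (orderOf c), (if x * c ^ k * x⁻¹ = g then eps (orderOf c) k else 0) =
      ∑ k ∈ range (orderOf c), ∑ x : G, (if x * c ^ k * x⁻¹ = g then eps (orderOf c) k else 0) :=
    Finset.sum_comm
  rw [hR, hL]
  refine sum_congr rfl fun k _ => ?_
  rw [← mul_sum, col]
  have h2 : ∀ x : G, (if x * c ^ k * x⁻¹ = g then eps (orderOf c) k else 0) =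
      if c ^ k = g then eps (orderOf c) k else 0 := by
    intro x
    have : x * c ^ k * x⁻¹ = c ^ k := by rw [mul_comm x, mul_assoc, mul_inv_cancel, mul_one]
    rw [this]
  rw [sum_congr rfl fun x _ => h2 x, sum_const, card_univ, nsmul_eq_mul, Nat.card_eq_fintype_card]
  by_cases h : c ^ k = g
  · rw [if_pos h, if_pos (by rw [h, inv_mul_cancel])]
    ring
  · rw [if_neg h, if_neg (fun h3 => h (by rw [inv_mul_eq_one] at h3; exact h3))]
    ring

theorem chi_exp {N : ℕ} (s : Fin N → G) (g : G) :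
    chi s g = ∑ ψ : AddChar (Additive G) ℂ, (mm s ψ : ℂ) * va ψ g := by
  classical
  unfold chi
  have h1 : ∀ i, (1 / (orderOf (s i) : ℂ)) * ∑ x : G, ∑ k ∈ range (orderOf (s i)),
      (if x * s i ^ k * x⁻¹ = g then eps (orderOf (s i)) k else 0) =
      ∑ ψ : AddChar (Additive G) ℂ, (al ψ (s i) : ℂ) * va ψ g := fun i => by
    have := ind_exp (s i) g
    convert this using 4
  have h2 : ∀ ψ : AddChar (Additive G) ℂ, (mm s ψ : ℂ) * va ψ g =
      (if ψ = 0 then va ψ g else 0) - va ψ g + ∑ i, (al ψ (s i) : ℂ) * va ψ g := by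
    intro ψ
    unfold mm
    push_cast
    rw [add_mul, sub_mul, sum_mul, one_mul]
    congr 2
    by_cases h : ψ = 0
    · rw [if_pos h, if_pos h]
      simp
    · rw [if_neg h, if_neg h]
      simp
  rw [sum_congr rfl fun ψ _ => h2 ψ, sum_add_distrib, sum_sub_distrib, col, sum_comm,
    sum_ite_eq' univ (0 : AddChar (Additive G) ℂ), if_pos (mem_univ _), va_zero]
  congr 1
  exact sum_congr rfl fun i _ => h1 i

theorem quad_exp {N : ℕ} (s : Fin N → G) :
    2 * (quadInv s).re = ∑ ψ : AddChar (Additive G) ℂ,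
      (mm s ψ * mm s (-ψ) + (open Classical in if ψ + ψ = 0 then mm s ψ else 0)) := by
  classical
  have hn : (Nat.card G : ℂ) ≠ 0 := by exact_mod_cast Nat.card_pos.ne'
  have h1 : ∑ g : G, chi s g ^ 2 =
      (Nat.card G : ℂ) * ∑ ψ : AddChar (Additive G) ℂ, (mm s ψ * mm s (-ψ) : ℂ) := by
    have e1 : ∀ g : G, chi s g ^ 2 = ∑ ψ : AddChar (Additive G) ℂ, ∑ φ : AddChar (Additive G) ℂ,
        (mm s ψ * mm s φ : ℂ) * va (ψ + φ) g := by
      intro g
      rw [sq, chi_exp s g, sum_mul_sum]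
      refine sum_congr rfl fun ψ _ => sum_congr rfl fun φ _ => ?_
      rw [va_add]
      ring
    rw [sum_congr rfl fun g _ => e1 g, sum_comm, mul_sum]
    refine sum_congr rfl fun ψ _ => ?_
    rw [sum_comm]
    have e2 : ∀ φ : AddChar (Additive G) ℂ, ∑ g : G, (mm s ψ * mm s φ : ℂ) * va (ψ + φ) g =
        if φ = -ψ then (mm s ψ * mm s φ : ℂ) * Nat.card G else 0 := by
      intro φ
      rw [← mul_sum, row]
      by_cases h : φ = -ψ
      · rw [if_pos h, if_pos (by rw [h, add_neg_cancel])]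
      · rw [if_neg h, if_neg (fun h2 => h (by rw [add_comm] at h2; exact eq_neg_of_add_eq_zero_left h2)), mul_zero]
    rw [sum_congr rfl fun φ _ => e2 φ, sum_ite_eq' univ (-ψ), if_pos (mem_univ _)]
    ring
  have h2 : ∑ g : G, chi s (g ^ 2) =
      (Nat.card G : ℂ) * ∑ ψ : AddChar (Additive G) ℂ, (if ψ + ψ = 0 then (mm s ψ : ℂ) else 0) := by
    have e1 : ∀ g : G, chi s (g ^ 2) = ∑ ψ : AddChar (Additive G) ℂ, (mm s ψ : ℂ) * va (ψ + ψ) g := by
      intro g
      rw [chi_exp s]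
      refine sum_congr rfl fun ψ _ => ?_
      rw [va_add, va_pow, sq]
    rw [sum_congr rfl fun g _ => e1 g, sum_comm, mul_sum]
    refine sum_congr rfl fun ψ _ => ?_
    rw [← mul_sum, row]
    by_cases h : ψ + ψ = 0
    · rw [if_pos h, if_pos h]
      ring
    · rw [if_neg h, if_neg h]
      ring
  have h3 : 2 * quadInv s = ((∑ ψ : AddChar (Additive G) ℂ,
      (mm s ψ * mm s (-ψ) + (if ψ + ψ = 0 then mm s ψ else 0)) : ℝ) : ℂ) := by
    unfold quadInv
    rw [sum_add_distrib, h1, h2]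
    push_cast
    rw [sum_add_distrib]
    have e3 : ∀ ψ : AddChar (Additive G) ℂ, (((if ψ + ψ = 0 then mm s ψ else 0 : ℝ)) : ℂ) =
        if ψ + ψ = 0 then (mm s ψ : ℂ) else 0 := by
      intro ψ
      by_cases h : ψ + ψ = 0
      · rw [if_pos h, if_pos h]
      · rw [if_neg h, if_neg h]
        simp
    rw [sum_congr rfl fun ψ _ => e3 ψ]
    field_simp
  have h4 := congrArg Complex.re h3
  rw [Complex.ofReal_re] at h4
  have h5 : (2 * quadInv s).re = 2 * (quadInv s).re := by simp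
  rw [← h5]
  exact h4

end chars

end Pool.Agent.H52.VC.Abl
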