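import Pool.Agent.H52.VC.Main

set_option autoImplicit false

/-!
PROJECT VC (MP_bf82d2_ag), module Adj: `chi s` depends only on the list of the `s i` up to order; the
inequality `main1` for lists.
-/

namespace Pool.Agent.H52.VC

open Finset Module
open Pool.Agent.H82.CO (chi quadInv eps)

section

variable {G : Type} [Group G] [Fintype G]

open Classical in
/-- the induced function of one branch point -/
noncomputable def indF (g c : G) : ℂ :=
  (1 / (orderOf c : ℂ)) * ∑ x : G, ∑ k ∈ range (orderOf c), if x * c ^ k * x⁻¹ = g then eps (orderOf c) k else 0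

open Classical in
theorem chi_list {N : ℕ} (s : Fin N → G) (g : G) :
    chi s g = 1 - (if g = 1 then (Nat.card G : ℂ) else 0) + ((List.ofFn s).map (indF g)).sum := by
  unfold chi
  rw [List.map_ofFn, List.sum_ofFn]
  rfl

theorem chi_of_perm {N N' : ℕ} (s : Fin N → G) (s' : Fin N' → G) (h : (List.ofFn s).Perm (List.ofFn s'))
    (g : G) : chi s g = chi s' g := by
  rw [chi_list, chi_list, (h.map (indF g)).sum_eq]

theorem quadInv_of_perm {N N' : ℕ} (s : Fin N → G) (s' : Fin N' → G)
    (h : (List.ofFn s).Perm (List.ofFn s')) : quadInv s = quadInv s' := by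
  unfold quadInv
  congr 1
  refine sum_congr rfl fun g _ => ?_
  rw [chi_of_perm s s' h g, chi_of_perm s s' h (g ^ 2)]

private theorem list_cut (l : List G) (k : ℕ) : pre l.get k = (l.take k).prod ∧
    Hlow l.get k = Subgroup.closure {g | g ∈ l.take k} ∧ Hupp l.get k = Subgroup.closure {g | g ∈ l.drop k} := by
  have hl : List.ofFn l.get = l := List.ofFn_get l
  refine ⟨?_, ?_, ?_⟩
  · unfold pre
    rw [hl]
  · unfold Hlow
    congr 1
    ext g
    constructor
    · rintro ⟨i, hi, rfl⟩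
      exact List.mem_take_iff_getElem.2 ⟨i, lt_min hi i.2, rfl⟩
    · intro h
      obtain ⟨i, hi, hig⟩ := List.mem_take_iff_getElem.1 h
      exact ⟨⟨i, (lt_min_iff.1 hi).2⟩, (lt_min_iff.1 hi).1, hig⟩
  · unfold Hupp
    congr 1
    ext g
    constructor
    · rintro ⟨i, hi, rfl⟩
      refine List.mem_drop_iff_getElem.2 ⟨(i : ℕ) - k, ?_, ?_⟩
      · have := i.2
        omega
      · have h5 : k + ((i : ℕ) - k) = i := by omega
        simp only [h5]
        rfl
    · intro h
      obtain ⟨i, hi, hig⟩ := List.mem_drop_iff_getElem.1 h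
      exact ⟨⟨k + i, by omega⟩, by show k ≤ k + i; omega, hig⟩

private theorem list_gen (l : List G) (hg : Subgroup.closure {g | g ∈ l} = ⊤) :
    Subgroup.closure (Set.range l.get) = ⊤ := by
  rw [← hg]
  congr 1
  ext g
  constructor
  · rintro ⟨i, rfl⟩
    exact List.get_mem l i
  · intro h
    obtain ⟨i, hi⟩ := List.get_of_mem h
    exact ⟨i, hi⟩

theorem vc_list (l : List G) (hp : l.prod = 1) (hg : Subgroup.closure {g | g ∈ l} = ⊤) :
    ∃ d : ℕ, quadInv l.get = d ∧ ∀ k : ℕ,
    (Nat.card G : ℝ) / orderOf (l.take k).prod -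
      (Nat.card G : ℝ) / Nat.card (Subgroup.closure {g | g ∈ l.take k} : Subgroup G) -
      (Nat.card G : ℝ) / Nat.card (Subgroup.closure {g | g ∈ l.drop k} : Subgroup G) ≤
      2 * d * Real.sqrt (Nat.card G) := by
  obtain ⟨d, hd, hk⟩ := main1 l.get (by rw [List.ofFn_get]; exact hp) (list_gen l hg)
  refine ⟨d, hd, fun k => ?_⟩
  have h1 := hk k
  obtain ⟨e1, e2, e3⟩ := list_cut l k
  rw [e1, e2, e3] at h1
  exact h1

theorem vc_list_b (l : List G) (hp : l.prod = 1) (hg : Subgroup.closure {g | g ∈ l} = ⊤) (β : ℝ) (hβ0 : 0 ≤ β)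
    (hβ : ∀ W : Submodule ℂ (G → ℂ), Pool.Agent.H93.Hup.MinInv (lam (G := G)) W → (finrank ℂ W : ℝ) ≤ β) :
    ∃ d : ℕ, quadInv l.get = d ∧ ∀ k : ℕ,
    (Nat.card G : ℝ) / orderOf (l.take k).prod -
      (Nat.card G : ℝ) / Nat.card (Subgroup.closure {g | g ∈ l.take k} : Subgroup G) -
      (Nat.card G : ℝ) / Nat.card (Subgroup.closure {g | g ∈ l.drop k} : Subgroup G) ≤
      2 * β * d := by
  obtain ⟨d, hd, hk⟩ := main1_b l.get (by rw [List.ofFn_get]; exact hp) (list_gen l hg) β hβ0 hβ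
  refine ⟨d, hd, fun k => ?_⟩
  have h1 := hk k
  obtain ⟨e1, e2, e3⟩ := list_cut l k
  rw [e1, e2, e3] at h1
  exact h1

end

end Pool.Agent.H52.VC
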