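import Pool.Agent.H52.VC.Udg

set_option autoImplicit false

/-!
PROJECT VC (MP_bf82d2_ag), module Ang.
The sum of the angles.
PROOFS. `angp_eq`: the matrix of `U` in `b` is diagonal, so `U.charpoly = ∏ (X - C (ee (t j)))`
(`LinearMap.charpoly_toMatrix`, `Matrix.charpoly` of a diagonal matrix), roots = the multiset of the `ee (t j)`, and
`tp (ee t) = t` for `0 < t ≤ 1`.  `finrank_fixS`: the fixed space is the span of the `b j` with `t j = 1`
(`ee t = 1` iff `t = 1` for `0 < t ≤ 1`).  `angp_inv`: `U' (b j) = ee (-(t j)) • b j`, angle `1 - t j` if `t j < 1`,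
angle `1` if `t j = 1`.
-/

namespace Pool.Agent.H52.VC

open Finset Module
open Pool.Agent.H93.Hup (Inv MinInv)
open Pool.Agent.H82.CO (chi quadInv)

theorem ee_add (s t : ℝ) : ee (s + t) = ee s * ee t := by
  unfold ee
  rw [← Complex.exp_add]
  congr 1
  push_cast
  ring

theorem ee_eq_one (t : ℝ) : ee t = 1 ↔ ∃ k : ℤ, t = k := by
  unfold ee
  rw [Complex.exp_eq_one_iff]
  have hpi : (2 * (Real.pi : ℂ) * Complex.I) ≠ 0 := Complex.two_pi_I_ne_zero
  constructor
  · rintro ⟨k, hk⟩
    refine ⟨k, ?_⟩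
    have h1 : (t : ℂ) * (2 * (Real.pi : ℂ) * Complex.I) = (k : ℂ) * (2 * (Real.pi : ℂ) * Complex.I) := by
      rw [← hk]; ring
    have h2 := mul_right_cancel₀ hpi h1
    exact_mod_cast h2
  · rintro ⟨k, hk⟩
    refine ⟨k, ?_⟩
    rw [hk]
    push_cast
    ring

private theorem ee_zero_ang : ee 0 = 1 := (ee_eq_one 0).2 ⟨0, by simp⟩

private theorem ee_one_ang : ee 1 = 1 := (ee_eq_one 1).2 ⟨1, by simp⟩

private theorem ee_sum_ang {ι : Type} (s : Finset ι) (t : ι → ℝ) : ee (∑ j ∈ s, t j) = ∏ j ∈ s, ee (t j) := by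
  classical
  induction s using Finset.induction_on with
  | empty => simp [ee_zero_ang]
  | insert a s ha ih => rw [sum_insert ha, prod_insert ha, ee_add, ih]

theorem tp_ee (t : ℝ) (h0 : 0 < t) (h1 : t ≤ 1) : tp (ee t) = t := by
  have hpi := Real.pi_pos
  have h2pi : (0 : ℝ) < 2 * Real.pi := by positivity
  rcases le_or_gt t (1 / 2) with h | h
  · have harg : Complex.arg (ee t) = 2 * Real.pi * t := by
      rw [← Complex.log_im]
      unfold ee
      have him : (2 * (Real.pi : ℂ) * (t : ℂ) * Complex.I).im = 2 * Real.pi * t := by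
        have : (2 * (Real.pi : ℂ) * (t : ℂ) * Complex.I) = ((2 * Real.pi * t : ℝ) : ℂ) * Complex.I := by
          push_cast; ring
        rw [this]
        simp
      rw [Complex.log_exp]
      · exact him
      · rw [him]
        nlinarith [mul_pos h2pi h0]
      · rw [him]
        nlinarith
    unfold tp
    rw [harg, if_pos (mul_pos h2pi h0)]
    field_simp
  · have harg : Complex.arg (ee t) = 2 * Real.pi * (t - 1) := by
      have h3 : ee t = ee (t - 1) := by
        have h4 : t = (t - 1) + 1 := by ring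
        conv_lhs => rw [h4]
        rw [ee_add, ee_one_ang, mul_one]
      rw [h3, ← Complex.log_im]
      unfold ee
      have him : (2 * (Real.pi : ℂ) * ((t - 1 : ℝ) : ℂ) * Complex.I).im = 2 * Real.pi * (t - 1) := by
        have : (2 * (Real.pi : ℂ) * ((t - 1 : ℝ) : ℂ) * Complex.I) =
            ((2 * Real.pi * (t - 1) : ℝ) : ℂ) * Complex.I := by
          push_cast; ring
        rw [this]
        simp
      rw [Complex.log_exp]
      · exact him
      · rw [him]
        nlinarith
      · rw [him]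
        nlinarith
    unfold tp
    have h5 : ¬ (0 < 2 * Real.pi * (t - 1)) := by
      have : 2 * Real.pi * (t - 1) ≤ 0 := mul_nonpos_of_nonneg_of_nonpos h2pi.le (by linarith)
      exact not_lt.2 this
    rw [harg, if_neg h5]
    field_simp
    ring

private theorem ee_eq_one_iff_ang (t : ℝ) (h0 : 0 < t) (h1 : t ≤ 1) : ee t = 1 ↔ t = 1 := by
  rw [ee_eq_one]
  constructor
  · rintro ⟨k, hk⟩
    rw [hk] at h0 h1 ⊢
    have h2 : (0 : ℤ) < k := by exact_mod_cast h0
    have h3 : k ≤ 1 := by exact_mod_cast h1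
    have : k = 1 := by omega
    rw [this]
    norm_num
  · intro h
    exact ⟨1, by rw [h]; norm_num⟩

private theorem toMatrix_ang {V : Type} [AddCommGroup V] [Module ℂ V] {ι : Type} [Fintype ι] [DecidableEq ι]
    (U : V →ₗ[ℂ] V) (b : Basis ι ℂ V) (c : ι → ℂ) (h : ∀ j, U (b j) = c j • b j) :
    LinearMap.toMatrix b b U = Matrix.diagonal c := by
  ext i j
  rw [LinearMap.toMatrix_apply, h j, map_smul, Basis.repr_self, Finsupp.smul_apply, Finsupp.single_apply,
    Matrix.diagonal_apply, smul_eq_mul]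
  by_cases hij : i = j
  · subst hij
    simp
  · rw [if_neg (fun h' => hij h'.symm), if_neg hij, mul_zero]

theorem angp_eq {V : Type} [AddCommGroup V] [Module ℂ V] [FiniteDimensional ℂ V] {ι : Type} [Fintype ι]
    (U : V →ₗ[ℂ] V) (b : Basis ι ℂ V) (t : ι → ℝ) (ht : ∀ j, 0 < t j ∧ t j ≤ 1)
    (h : ∀ j, U (b j) = ee (t j) • b j) : angp U = ∑ j, t j := by
  classical
  unfold angp
  have h1 : U.charpoly = ∏ j, (Polynomial.X - Polynomial.C (ee (t j))) := by
    rw [← LinearMap.charpoly_toMatrix U b, toMatrix_ang U b (fun j => ee (t j)) h, Matrix.charpoly_diagonal]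
  have h2 : U.charpoly = ((univ.val.map (fun j => ee (t j))).map
      (fun a => Polynomial.X - Polynomial.C a)).prod := by
    rw [h1, Multiset.map_map]
    rfl
  rw [h2, Polynomial.roots_multiset_prod_X_sub_C, Multiset.map_map]
  have h3 : (tp ∘ fun j => ee (t j)) = t := by
    funext j
    exact tp_ee (t j) (ht j).1 (ht j).2
  rw [h3]
  rfl

theorem finrank_fixS {V : Type} [AddCommGroup V] [Module ℂ V] [FiniteDimensional ℂ V] {ι : Type} [Fintype ι]
    (U : V →ₗ[ℂ] V) (b : Basis ι ℂ V) (t : ι → ℝ) (ht : ∀ j, 0 < t j ∧ t j ≤ 1)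
    (h : ∀ j, U (b j) = ee (t j) • b j) : finrank ℂ (fixS U) = (univ.filter (fun j => t j = 1)).card := by
  classical
  have hrepr : ∀ v : V, ∀ j, b.repr (U v) j = ee (t j) * b.repr v j := by
    intro v j
    have h1 : U v = ∑ i, b.repr v i • U (b i) := by
      conv_lhs => rw [← b.sum_repr v]
      rw [map_sum]
      exact sum_congr rfl fun i _ => map_smul _ _ _
    have h2 : U v = ∑ i, (b.repr v i * ee (t i)) • b i := by
      rw [h1]
      exact sum_congr rfl fun i _ => by rw [h i, smul_smul]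
    rw [h2, b.repr_sum_self, mul_comm]
  have hset : fixS U = Submodule.span ℂ (Set.range (fun j : {j // t j = 1} => b j)) := by
    have h1 : Set.range (fun j : {j // t j = 1} => b j) = b '' {j | t j = 1} := by
      rw [Set.image_eq_range]
      rfl
    rw [h1]
    ext v
    rw [mem_fixS, Basis.mem_span_image]
    constructor
    · intro hv j hj
      have h2 := hrepr v j
      rw [hv] at h2
      have h3 : b.repr v j ≠ 0 := Finsupp.mem_support_iff.1 hj
      have h4 : (ee (t j) - 1) * b.repr v j = 0 := by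
        rw [sub_mul, one_mul, ← h2, sub_self]
      rcases mul_eq_zero.1 h4 with h5 | h5
      · exact (ee_eq_one_iff_ang (t j) (ht j).1 (ht j).2).1 (sub_eq_zero.1 h5)
      · exact absurd h5 h3
    · intro hv
      apply b.repr.injective
      ext j
      rw [hrepr v j]
      by_cases hj : b.repr v j = 0
      · rw [hj, mul_zero]
      · have h2 : t j = 1 := hv (Finsupp.mem_support_iff.2 hj)
        rw [h2, ee_one_ang, one_mul]
  have hli : LinearIndependent ℂ (fun j : {j // t j = 1} => b j) :=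
    b.linearIndependent.comp _ Subtype.val_injective
  rw [hset, finrank_span_eq_card hli, Fintype.card_subtype]

theorem det_eq {V : Type} [AddCommGroup V] [Module ℂ V] [FiniteDimensional ℂ V] {ι : Type} [Fintype ι]
    (U : V →ₗ[ℂ] V) (b : Basis ι ℂ V) (t : ι → ℝ)
    (h : ∀ j, U (b j) = ee (t j) • b j) : LinearMap.det U = ee (∑ j, t j) := by
  classical
  rw [← LinearMap.det_toMatrix b U, toMatrix_ang U b (fun j => ee (t j)) h, Matrix.det_diagonal, ee_sum_ang]

theorem angp_one {V : Type} [AddCommGroup V] [Module ℂ V] [FiniteDimensional ℂ V] :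
    angp (1 : V →ₗ[ℂ] V) = finrank ℂ V := by
  rw [angp_eq (1 : V →ₗ[ℂ] V) (finBasis ℂ V) (fun _ => 1) (fun _ => ⟨one_pos, le_refl _⟩)
    (fun j => by rw [ee_one_ang, one_smul]; rfl)]
  simp

theorem det_ee {V : Type} [NormedAddCommGroup V] [InnerProductSpace ℂ V] [FiniteDimensional ℂ V]
    (U : V →ₗ[ℂ] V) (hU : IsU U) : LinearMap.det U = ee (angp U) := by
  obtain ⟨b, t, ht, hb⟩ := udiag U hU
  have hb' : ∀ j, U (b.toBasis j) = ee (t j) • b.toBasis j := by
    intro j
    rw [OrthonormalBasis.coe_toBasis]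
    exact hb j
  rw [det_eq U b.toBasis t hb', angp_eq U b.toBasis t ht hb']

theorem angp_inv {V : Type} [NormedAddCommGroup V] [InnerProductSpace ℂ V] [FiniteDimensional ℂ V]
    (U U' : V →ₗ[ℂ] V) (hU : IsU U) (h : ∀ x, U' (U x) = x) :
    angp U + angp U' = finrank ℂ V + finrank ℂ (fixS U) := by
  classical
  obtain ⟨b, t, ht, hb⟩ := udiag U hU
  have hb' : ∀ j, U (b.toBasis j) = ee (t j) • b.toBasis j := by
    intro j
    rw [OrthonormalBasis.coe_toBasis]
    exact hb j
  have hU' : ∀ j, U' (b.toBasis j) = ee (if t j = 1 then 1 else 1 - t j) • b.toBasis j := by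
    intro j
    have h1 : ee (t j) * ee (if t j = 1 then 1 else 1 - t j) = 1 := by
      rw [← ee_add, ee_eq_one]
      by_cases h2 : t j = 1
      · rw [if_pos h2, h2]
        exact ⟨2, by norm_num⟩
      · rw [if_neg h2]
        exact ⟨1, by norm_num⟩
    have h3 : ee (t j) • U' (b.toBasis j) = b.toBasis j := by
      rw [← map_smul, ← hb' j, h]
    calc U' (b.toBasis j) = (ee (if t j = 1 then 1 else 1 - t j) * ee (t j)) • U' (b.toBasis j) := by
          rw [mul_comm, h1, one_smul]
      _ = ee (if t j = 1 then 1 else 1 - t j) • (ee (t j) • U' (b.toBasis j)) := by rw [smul_smul]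
      _ = ee (if t j = 1 then 1 else 1 - t j) • b.toBasis j := by rw [h3]
  have ht' : ∀ j, 0 < (if t j = 1 then 1 else 1 - t j) ∧ (if t j = 1 then 1 else 1 - t j) ≤ 1 := by
    intro j
    by_cases h2 : t j = 1
    · rw [if_pos h2]
      exact ⟨one_pos, le_refl _⟩
    · rw [if_neg h2]
      have h3 := lt_of_le_of_ne (ht j).2 h2
      exact ⟨by linarith, by linarith [(ht j).1]⟩
  rw [angp_eq U b.toBasis t ht hb', angp_eq U' b.toBasis _ ht' hU', finrank_fixS U b.toBasis t ht hb',
    ← sum_add_distrib]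
  have h4 : ∀ j, t j + (if t j = 1 then 1 else 1 - t j) = 1 + (if t j = 1 then (1 : ℝ) else 0) := by
    intro j
    by_cases h2 : t j = 1
    · rw [if_pos h2, if_pos h2, h2]
    · rw [if_neg h2, if_neg h2]
      ring
  rw [sum_congr rfl fun j _ => h4 j, sum_add_distrib, sum_boole]
  simp

end Pool.Agent.H52.VC
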