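import Pool.Agent.H52.VC.Adj

set_option autoImplicit false

/-!
PROJECT VC / FIN (MP_bf82d2_ag), module Cen: if the `s i`, `i ≠ y`, are involutions modulo a normal subgroup `S`
of bounded order, then for large `G` the `s j`, `j ≠ y`, which are in `S` are central.
-/

namespace Pool.Agent.H52.VC

open Finset Module
open Pool.Agent.H82.CO (chi quadInv)

section

variable {G : Type} [Group G] [Fintype G]

private theorem num_cen (n o h h' σ R : ℝ) (hn0 : 0 < n) (ho : 0 < o) (ho2 : o ≤ 2 * σ) (hh : 2 * o ≤ h)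
    (hh' : n ≤ σ * h') (hh0 : 0 < h') (hn : σ + R < n / (4 * σ))
    (h0 : n / o - n / h - n / h' ≤ R) : False := by
  have e1 : n / h ≤ n / (2 * o) := div_le_div_of_nonneg_left hn0.le (by positivity) hh
  have e2 : n / h' ≤ σ := by
    rw [div_le_iff₀ hh0]
    exact hh'
  have e3 : n / o - n / (2 * o) = n / (2 * o) := by
    field_simp
    ring
  have e4 : n / (4 * σ) ≤ n / (2 * o) :=
    div_le_div_of_nonneg_left hn0.le (by positivity) (by linarith)
  linarith

/-- the numerical condition of `central` -/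
private theorem num_sqrt (n σ D : ℝ) (hσ : 0 < σ) (hn0 : 0 < n) (hD : 0 ≤ D)
    (hn : (8 * σ * D + 2 * σ + 1) ^ 2 ≤ n) : σ + 2 * D * Real.sqrt n < n / (4 * σ) := by
  set r := Real.sqrt n with hr
  have hr0 : 0 < r := Real.sqrt_pos.2 hn0
  have hrr : r * r = n := Real.mul_self_sqrt hn0.le
  have hr1 : 8 * σ * D + 2 * σ + 1 ≤ r := by
    rw [hr]
    exact Real.le_sqrt_of_sq_le hn
  rw [lt_div_iff₀ (by positivity)]
  have e6 : (8 * σ * D + 2 * σ + 1) * r ≤ r * r := mul_le_mul_of_nonneg_right hr1 hr0.le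
  have e7 : (2 * σ + 1) * (2 * σ + 1) ≤ (2 * σ + 1) * r := by
    refine mul_le_mul_of_nonneg_left ?_ (by positivity)
    have : 0 ≤ 8 * σ * D := by positivity
    linarith
  nlinarith

private theorem sq_mem (S : Subgroup G) (hS : S.Normal) (x z : G)
    (h : (x ∈ S ∧ z ^ 2 ∈ S) ∨ (z ∈ S ∧ x ^ 2 ∈ S)) : (x * z) ^ 2 ∈ S := by
  rcases h with ⟨h1, h2⟩ | ⟨h1, h2⟩
  · have e : (x * z) ^ 2 = x * (z * x * z⁻¹) * z ^ 2 := by
      rw [sq, sq]
      group
    rw [e]
    exact S.mul_mem (S.mul_mem h1 (hS.conj_mem x h1 z)) h2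
  · have e : (x * z) ^ 2 = (x * z * x⁻¹) * x ^ 2 * z := by
      rw [sq, sq]
      group
    rw [e]
    exact S.mul_mem (S.mul_mem (hS.conj_mem z h1 x) h2) h1

private theorem adj_comm (l : List G) (x z : G) (v : List G) (hl : l = x :: z :: v) (hp : l.prod = 1)
    (hg : Subgroup.closure {g | g ∈ l} = ⊤) (S : Subgroup G) (hS : S.Normal) (σ : ℕ) (hσ : Nat.card S ≤ σ)
    (R : ℝ) (hR : (Nat.card G : ℝ) / orderOf (l.take 2).prod -
      (Nat.card G : ℝ) / Nat.card (Subgroup.closure {g | g ∈ l.take 2} : Subgroup G) -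
      (Nat.card G : ℝ) / Nat.card (Subgroup.closure {g | g ∈ l.drop 2} : Subgroup G) ≤ R)
    (hn : σ + R < (Nat.card G : ℝ) / (4 * σ))
    (h : (x ∈ S ∧ z ^ 2 ∈ S) ∨ (z ∈ S ∧ x ^ 2 ∈ S)) : x * z = z * x := by
  by_contra hne
  have h2 := hR
  have t1 : l.take 2 = [x, z] := by rw [hl]; rfl
  have t2 : l.drop 2 = v := by rw [hl]; rfl
  rw [t1, t2] at h2
  have t3 : ([x, z] : List G).prod = x * z := by simp
  rw [t3] at h2
  have hvp : x * z * v.prod = 1 := by
    rw [hl] at hp
    simpa [mul_assoc] using hp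
  -- the order of `x * z`
  have ho : orderOf (x * z) ≤ 2 * σ := by
    have e1 := sq_mem S hS x z h
    have e2 : ((x * z) ^ 2) ^ Nat.card S = 1 := by
      have := pow_card_eq_one' (x := (⟨(x * z) ^ 2, e1⟩ : S))
      exact congrArg Subtype.val this
    have e3 : orderOf (x * z) ∣ 2 * Nat.card S := by
      rw [orderOf_dvd_iff_pow_eq_one, pow_mul]
      exact e2
    have e4 : 0 < Nat.card S := Nat.card_pos
    exact (Nat.le_of_dvd (by omega) e3).trans (Nat.mul_le_mul_left 2 hσ)
  -- the group generated by `x` and `z`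
  set H : Subgroup G := Subgroup.closure {g | g ∈ ([x, z] : List G)} with hH
  have hx : x ∈ H := Subgroup.subset_closure (by simp)
  have hz : z ∈ H := Subgroup.subset_closure (by simp)
  have hle : Subgroup.zpowers (x * z) ≤ H := by
    rw [Subgroup.zpowers_le]
    exact H.mul_mem hx hz
  have hH2 : 2 * orderOf (x * z) ≤ Nat.card H := by
    obtain ⟨c, hc⟩ := Subgroup.card_dvd_of_le hle
    rw [Nat.card_zpowers] at hc
    rcases Nat.lt_or_ge c 2 with h5 | h5
    · exfalso
      have h6 : Nat.card H ≤ Nat.card (Subgroup.zpowers (x * z)) := by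
        rw [Nat.card_zpowers, hc]
        have : orderOf (x * z) * c ≤ orderOf (x * z) * 1 := Nat.mul_le_mul_left _ (by omega)
        simpa using this
      have h7 : Subgroup.zpowers (x * z) = H := Subgroup.eq_of_le_of_card_ge hle h6
      rw [← h7] at hx hz
      obtain ⟨i, hi⟩ := Subgroup.mem_zpowers_iff.1 hx
      obtain ⟨j, hj⟩ := Subgroup.mem_zpowers_iff.1 hz
      apply hne
      have hcc : Commute ((x * z) ^ i) ((x * z) ^ j) := (Commute.refl (x * z)).zpow_zpow i j
      rw [hi, hj] at hcc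
      exact hcc
    · rw [hc]
      calc 2 * orderOf (x * z) = orderOf (x * z) * 2 := by ring
        _ ≤ orderOf (x * z) * c := Nat.mul_le_mul_left _ h5
  -- the group generated by the others
  set H' : Subgroup G := Subgroup.closure {g | g ∈ v} with hH'
  have hvH : v.prod ∈ H' := Subgroup.list_prod_mem _ (fun g hg => Subgroup.subset_closure hg)
  have hsup : H' ⊔ S = ⊤ := by
    rw [eq_top_iff, ← hg, Subgroup.closure_le]
    intro g hg1
    have hS1 : S ≤ H' ⊔ S := le_sup_right
    have hH1 : H' ≤ H' ⊔ S := le_sup_left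
    have hg2 : g = x ∨ g = z ∨ g ∈ v := by
      have : g ∈ l := hg1
      rw [hl] at this
      simpa using this
    have hxz : x * z = (v.prod)⁻¹ := eq_inv_of_mul_eq_one_left hvp
    have hxz' : x * z ∈ H' ⊔ S := by
      rw [hxz]
      exact Subgroup.inv_mem _ (hH1 hvH)
    rcases h with ⟨h3, _⟩ | ⟨h3, _⟩
    · rcases hg2 with rfl | rfl | h4
      · exact hS1 h3
      · have : x⁻¹ * (x * g) ∈ H' ⊔ S := Subgroup.mul_mem _ (Subgroup.inv_mem _ (hS1 h3)) hxz'
        simpa using this
      · exact hH1 (Subgroup.subset_closure h4)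
    · rcases hg2 with rfl | rfl | h4
      · have : (g * z) * z⁻¹ ∈ H' ⊔ S := Subgroup.mul_mem _ hxz' (Subgroup.inv_mem _ (hS1 h3))
        simpa using this
      · exact hS1 h3
      · exact hH1 (Subgroup.subset_closure h4)
  have hcard : Nat.card G ≤ σ * Nat.card H' := by
    have e1 : S.index = S.relIndex H' := by
      rw [← Subgroup.relIndex_top_right, ← hsup]
      exact Subgroup.relIndex_sup_right H' S
    have e2 : S.relIndex H' ≤ Nat.card H' :=
      Nat.le_of_dvd Nat.card_pos (Subgroup.relIndex_dvd_card S H')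
    calc Nat.card G = Nat.card S * S.index := (Subgroup.card_mul_index S).symm
      _ ≤ σ * Nat.card H' := Nat.mul_le_mul hσ (by rw [e1]; exact e2)
  refine num_cen (Nat.card G) (orderOf (x * z)) (Nat.card H) (Nat.card H') σ R ?_ ?_ ?_ ?_ ?_ ?_ hn h2
  · exact_mod_cast Nat.card_pos
  · exact_mod_cast orderOf_pos _
  · exact_mod_cast ho
  · exact_mod_cast hH2
  · exact_mod_cast hcard
  · exact_mod_cast Nat.card_pos

/-- `l` is a rearrangement of the list `l0` with product `1` -/
private def Q (l0 l : List G) : Prop := l.prod = 1 ∧ l.Perm l0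

private theorem Q_rot (l0 u v : List G) (h : Q l0 (u ++ v)) : Q l0 (v ++ u) := by
  obtain ⟨h1, h2⟩ := h
  refine ⟨?_, List.perm_append_comm.trans h2⟩
  rw [List.prod_append] at h1 ⊢
  exact mul_eq_one_comm.1 h1

private theorem Q_swap (l0 u v : List G) (a b : G) (hab : a * b = b * a) (h : Q l0 (u ++ a :: b :: v)) :
    Q l0 (u ++ b :: a :: v) := by
  obtain ⟨h1, h2⟩ := h
  refine ⟨?_, (List.Perm.append_left u (List.Perm.swap a b v)).trans h2⟩
  rw [List.prod_append, List.prod_cons, List.prod_cons] at h1 ⊢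
  rw [← h1, ← mul_assoc b a, ← hab, mul_assoc]

section

variable {N : ℕ} (s : Fin N → G) (hg : Subgroup.closure (Set.range s) = ⊤) (S : Subgroup G) (hS : S.Normal)
  (σ : ℕ) (hσ : Nat.card S ≤ σ) (R : ℝ)
  (hR : ∀ l : List G, l.prod = 1 → l.Perm (List.ofFn s) → (Nat.card G : ℝ) / orderOf (l.take 2).prod -
      (Nat.card G : ℝ) / Nat.card (Subgroup.closure {g | g ∈ l.take 2} : Subgroup G) -
      (Nat.card G : ℝ) / Nat.card (Subgroup.closure {g | g ∈ l.drop 2} : Subgroup G) ≤ R)
  (hn : σ + R < (Nat.card G : ℝ) / (4 * σ))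

include hg hS hσ hR hn

private theorem Q_adj (u v : List G) (x z : G) (h : Q (List.ofFn s) (u ++ x :: z :: v))
    (hc : (x ∈ S ∧ z ^ 2 ∈ S) ∨ (z ∈ S ∧ x ^ 2 ∈ S)) : x * z = z * x := by
  have h1 := Q_rot _ _ _ h
  have h2 : (x :: z :: v) ++ u = x :: z :: (v ++ u) := by simp
  rw [h2] at h1
  refine adj_comm (x :: z :: (v ++ u)) x z (v ++ u) rfl h1.1 ?_ S hS σ hσ R (hR _ h1.1 h1.2) hn hc
  rw [← hg]
  congr 1
  ext g
  constructor
  · intro h3
    have h4 : g ∈ List.ofFn s := h1.2.mem_iff.1 h3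
    exact (List.mem_ofFn).1 h4
  · intro h3
    exact h1.2.mem_iff.2 ((List.mem_ofFn).2 h3)

private theorem move_right (c : G) (hc : c ∈ S) : ∀ (v u w : List G), Q (List.ofFn s) (u ++ c :: (v ++ w)) →
    (∀ b ∈ v, b ^ 2 ∈ S) → ∀ b ∈ v, c * b = b * c := by
  intro v
  induction v with
  | nil => intro u w _ _ b hb; simp at hb
  | cons b v ih =>
    intro u w hQ hv b' hb'
    have hcb : c * b = b * c :=
      Q_adj s hg S hS σ hσ R hR hn u (v ++ w) c b hQ (Or.inl ⟨hc, hv b (by simp)⟩)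
    rcases List.mem_cons.1 hb' with rfl | h1
    · exact hcb
    · have h2 : Q (List.ofFn s) (u ++ b :: c :: (v ++ w)) := Q_swap _ _ _ _ _ hcb hQ
      have h3 : u ++ b :: c :: (v ++ w) = (u ++ [b]) ++ c :: (v ++ w) := by simp
      rw [h3] at h2
      exact ih (u ++ [b]) w h2 (fun b1 hb1 => hv b1 (by simp [hb1])) b' h1

private theorem move_left (c : G) (hc : c ∈ S) (w : List G) : ∀ (v u : List G),
    Q (List.ofFn s) ((w ++ v) ++ c :: u) → (∀ b ∈ v, b ^ 2 ∈ S) → ∀ b ∈ v, c * b = b * c := by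
  intro v
  induction v using List.reverseRecOn with
  | nil => intro u _ _ b hb; simp at hb
  | append_singleton v b ih =>
    intro u hQ hv b' hb'
    have h0 : (w ++ (v ++ [b])) ++ c :: u = (w ++ v) ++ b :: c :: u := by simp
    rw [h0] at hQ
    have hbc : b * c = c * b :=
      Q_adj s hg S hS σ hσ R hR hn (w ++ v) u b c hQ (Or.inr ⟨hc, hv b (by simp)⟩)
    have h2 : Q (List.ofFn s) ((w ++ v) ++ c :: b :: u) := Q_swap _ _ _ _ _ hbc hQ
    rcases List.mem_append.1 hb' with h1 | h1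
    · exact ih (b :: u) h2 (fun b1 hb1 => hv b1 (by simp [hb1])) b' h1
    · rw [List.mem_singleton] at h1
      rw [h1]
      exact hbc.symm

end

/-- The general form, with any bound `R` for the left side of the inequality of the cuts. -/
theorem central_R {N : ℕ} (s : Fin N → G) (hp : (List.ofFn s).prod = 1)
    (hg : Subgroup.closure (Set.range s) = ⊤) (S : Subgroup G) (hS : S.Normal) (σ : ℕ) (hσ : Nat.card S ≤ σ)
    (y : Fin N) (h2 : ∀ i, i ≠ y → s i ^ 2 ∈ S) (R : ℝ)
    (hR : ∀ l : List G, l.prod = 1 → l.Perm (List.ofFn s) → (Nat.card G : ℝ) / orderOf (l.take 2).prod -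
      (Nat.card G : ℝ) / Nat.card (Subgroup.closure {g | g ∈ l.take 2} : Subgroup G) -
      (Nat.card G : ℝ) / Nat.card (Subgroup.closure {g | g ∈ l.drop 2} : Subgroup G) ≤ R)
    (hn : σ + R < (Nat.card G : ℝ) / (4 * σ)) :
    ∀ j, j ≠ y → s j ∈ S → ∀ g : G, g * s j = s j * g := by
  intro j hj hjS
  set l := List.ofFn s with hl
  have hlen : l.length = N := List.length_ofFn
  have hy : (y : ℕ) < l.length := by rw [hlen]; exact y.2
  have hget : l[(y : ℕ)] = s y := by simp [hl]
  have hsplit : l = l.take y ++ s y :: l.drop (y + 1) := by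
    conv_lhs => rw [← List.take_append_drop (y : ℕ) l]
    congr 1
    rw [List.drop_eq_getElem_cons hy, hget]
  set M := l.drop (y + 1) ++ l.take y with hM
  have hQ0 : Q l (M ++ [s y]) := by
    have h3 : Q l ((l.take y ++ [s y]) ++ l.drop (y + 1)) := by
      have h4 : (l.take y ++ [s y]) ++ l.drop (y + 1) = l := by
        conv_rhs => rw [hsplit]
        simp
      rw [h4]
      exact ⟨hp, List.Perm.refl l⟩
    have h5 := Q_rot _ _ _ h3
    rw [← List.append_assoc] at h5
    exact h5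
  have hM1 : ∀ i, i ≠ y → s i ∈ M := by
    intro i hi
    have hi' : (i : ℕ) ≠ y := fun h => hi (Fin.ext h)
    rw [hM, List.mem_append]
    rcases lt_or_gt_of_ne hi' with h | h
    · right
      refine List.mem_take_iff_getElem.2 ⟨i, lt_min h (by rw [hlen]; exact i.2), ?_⟩
      simp [hl]
    · left
      refine List.mem_drop_iff_getElem.2 ⟨(i : ℕ) - (y + 1), ?_, ?_⟩
      · rw [hlen]
        have := i.2
        omega
      · have h5 : (y : ℕ) + 1 + ((i : ℕ) - (y + 1)) = i := by omega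
        simp only [hl, h5]
        simp
  have hM2 : ∀ b ∈ M, b ^ 2 ∈ S := by
    intro b hb
    rw [hM, List.mem_append] at hb
    rcases hb with h | h
    · obtain ⟨i, hi, hib⟩ := List.mem_drop_iff_getElem.1 h
      have hi2 : (y : ℕ) + 1 + i < N := by rw [hlen] at hi; omega
      have h6 : s ⟨(y : ℕ) + 1 + i, hi2⟩ = b := by
        rw [← hib]
        simp [hl]
      rw [← h6]
      refine h2 _ ?_
      intro h7
      have := congrArg Fin.val h7
      simp only at this
      omega
    · obtain ⟨i, hi, hib⟩ := List.mem_take_iff_getElem.1 h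
      have hi2 : i < N := by
        have := (lt_min_iff.1 hi).2
        rw [hlen] at this
        exact this
      have h6 : s ⟨i, hi2⟩ = b := by
        rw [← hib]
        simp [hl]
      rw [← h6]
      refine h2 _ ?_
      intro h7
      have := congrArg Fin.val h7
      have h8 := (lt_min_iff.1 hi).1
      simp only at this
      omega
  obtain ⟨M1, M2, hMM⟩ := List.append_of_mem (hM1 j hj)
  have hQ1 : Q l (M1 ++ s j :: (M2 ++ [s y])) := by
    rw [hMM] at hQ0
    simpa using hQ0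
  have hRi := move_right s hg S hS σ hσ R hR hn (s j) hjS M2 M1 [s y] hQ1
    (fun b hb => hM2 b (by rw [hMM]; simp [hb]))
  have hL := move_left s hg S hS σ hσ R hR hn (s j) hjS [] M1 (M2 ++ [s y]) (by simpa using hQ1)
    (fun b hb => hM2 b (by rw [hMM]; simp [hb]))
  have hcom : ∀ b ∈ M, s j * b = b * s j := by
    intro b hb
    rw [hMM] at hb
    rcases List.mem_append.1 hb with h | h
    · exact hL b h
    · rcases List.mem_cons.1 h with h | h
      · rw [h]
      · exact hRi b h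
  have hprod : s j * M.prod = M.prod * s j := by
    have : Commute (s j) M.prod := Commute.list_prod_right _ _ (fun b hb => hcom b hb)
    exact this
  have hyM : s y = (M.prod)⁻¹ := by
    have := hQ0.1
    rw [List.prod_append, List.prod_singleton] at this
    exact eq_inv_of_mul_eq_one_right this
  have hyc : s j * s y = s y * s j := by
    rw [hyM]
    exact (Commute.inv_right hprod)
  have hall : Subgroup.closure (Set.range s) ≤ Subgroup.centralizer {s j} := by
    rw [Subgroup.closure_le]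
    rintro g ⟨i, rfl⟩
    rw [SetLike.mem_coe, Subgroup.mem_centralizer_singleton_iff]
    by_cases hi : i = y
    · rw [hi]
      exact hyc.symm
    · exact (hcom (s i) (hM1 i hi)).symm
  intro g
  have hgt : g ∈ Subgroup.centralizer {s j} := hall (by rw [hg]; trivial)
  exact Subgroup.mem_centralizer_singleton_iff.1 hgt

private theorem perm_data {N : ℕ} (s : Fin N → G) (hg : Subgroup.closure (Set.range s) = ⊤) (l : List G)
    (hl : l.Perm (List.ofFn s)) : Subgroup.closure {g | g ∈ l} = ⊤ ∧ quadInv l.get = quadInv s := by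
  constructor
  · rw [← hg]
    congr 1
    ext g
    constructor
    · intro h3
      exact (List.mem_ofFn).1 (hl.mem_iff.1 h3)
    · intro h3
      exact hl.mem_iff.2 ((List.mem_ofFn).2 h3)
  · refine quadInv_of_perm _ _ ?_
    rw [List.ofFn_get]
    exact hl

theorem central {N : ℕ} (s : Fin N → G) (hp : (List.ofFn s).prod = 1)
    (hg : Subgroup.closure (Set.range s) = ⊤) (S : Subgroup G) (hS : S.Normal) (σ : ℕ) (hσ : Nat.card S ≤ σ)
    (y : Fin N) (h2 : ∀ i, i ≠ y → s i ^ 2 ∈ S) (D : ℝ) (hD : 0 ≤ D)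
    (hd : (Pool.Agent.H82.CO.quadInv s).re ≤ D)
    (hn : (8 * σ * D + 2 * σ + 1) ^ 2 ≤ (Nat.card G : ℝ)) :
    ∀ j, j ≠ y → s j ∈ S → ∀ g : G, g * s j = s j * g := by
  have hn0 : (0 : ℝ) < Nat.card G := by exact_mod_cast Nat.card_pos
  have hσ0 : (0 : ℝ) < σ := by exact_mod_cast lt_of_lt_of_le Nat.card_pos hσ
  refine central_R s hp hg S hS σ hσ y h2 (2 * D * Real.sqrt (Nat.card G)) ?_ (num_sqrt _ _ _ hσ0 hn0 hD hn)
  intro l hl1 hl2
  obtain ⟨e1, e2⟩ := perm_data s hg l hl2
  obtain ⟨d, hdq, hk⟩ := vc_list l hl1 e1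
  refine (hk 2).trans ?_
  rw [← e2, hdq] at hd
  have hd' : (d : ℝ) ≤ D := by simpa using hd
  have := mul_le_mul_of_nonneg_right hd' (Real.sqrt_nonneg (Nat.card G : ℝ))
  linarith

/-- The same with a bound `β` for the degrees of the irreducible representations: `D` may be linear in `|G|`. -/
theorem central_b {N : ℕ} (s : Fin N → G) (hp : (List.ofFn s).prod = 1)
    (hg : Subgroup.closure (Set.range s) = ⊤) (S : Subgroup G) (hS : S.Normal) (σ : ℕ) (hσ : Nat.card S ≤ σ)
    (y : Fin N) (h2 : ∀ i, i ≠ y → s i ^ 2 ∈ S) (β : ℝ) (hβ0 : 0 ≤ β)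
    (hβ : ∀ W : Submodule ℂ (G → ℂ), Pool.Agent.H93.Hup.MinInv (lam (G := G)) W → (finrank ℂ W : ℝ) ≤ β)
    (D : ℝ) (hd : (Pool.Agent.H82.CO.quadInv s).re ≤ D)
    (hn : 4 * σ * (σ + 2 * β * D) < (Nat.card G : ℝ)) :
    ∀ j, j ≠ y → s j ∈ S → ∀ g : G, g * s j = s j * g := by
  have hσ0 : (0 : ℝ) < σ := by exact_mod_cast lt_of_lt_of_le Nat.card_pos hσ
  refine central_R s hp hg S hS σ hσ y h2 (2 * β * D) ?_ ?_
  · intro l hl1 hl2
    obtain ⟨e1, e2⟩ := perm_data s hg l hl2
    obtain ⟨d, hdq, hk⟩ := vc_list_b l hl1 e1 β hβ0 hβ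
    refine (hk 2).trans ?_
    rw [← e2, hdq] at hd
    have hd' : (d : ℝ) ≤ D := by simpa using hd
    exact mul_le_mul_of_nonneg_left hd' (by positivity)
  · rw [lt_div_iff₀ (by positivity)]
    linarith

end

end Pool.Agent.H52.VC
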