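import Pool.Agent.H52.VC.Two

set_option autoImplicit false

/-!
PROJECT VC (MP_bf82d2_ag), module Chn.
The unitary inequality for a list.
PROOF. Induction on `l` from the right (`List.reverseRecOn`): `[]`: `angp (ρ 1) = dim V` (`angp_one`), `fixG ρ ⊥ = ⊤`.
`l ++ [g]`: `two` with `U = ρ l.prod`, `W = ρ g`, `F = fixG ρ (closure l)` (`F ≤ fixS U` as `l.prod ∈ closure l`), and
`F ⊓ fixS (ρ g) ≤ fixG ρ (closure (l ++ [g]))` (the stabilizer of a vector is a subgroup).
-/

namespace Pool.Agent.H52.VC

open Finset Module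
open Pool.Agent.H93.Hup (Inv MinInv)
open Pool.Agent.H82.CO (chi quadInv)

private theorem fix_closure_chn {G : Type} [Group G] {V : Type} [AddCommGroup V] [Module ℂ V]
    (ρ : Representation ℂ G V) {S : Set G} {v : V} (h : ∀ g ∈ S, ρ g v = v) :
    v ∈ fixG ρ (Subgroup.closure S) := by
  intro g hg
  induction hg using Subgroup.closure_induction with
  | mem x hx => exact h x hx
  | one => rw [map_one]; rfl
  | mul x y _ _ hx hy =>
    rw [map_mul]
    show ρ x (ρ y v) = v
    rw [hy, hx]
  | inv x _ hx =>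
    have h1 : ρ x⁻¹ (ρ x v) = v := by
      have h2 : (ρ x⁻¹ * ρ x) v = v := by
        rw [← map_mul, inv_mul_cancel, map_one]
        rfl
      exact h2
    rw [hx] at h1
    exact h1

theorem chain {G : Type} [Group G] {V : Type} [NormedAddCommGroup V] [InnerProductSpace ℂ V] [FiniteDimensional ℂ V]
    (ρ : Representation ℂ G V) (hρ : ∀ g, IsU (ρ g)) (l : List G) :
    angp (ρ l.prod) ≤ (l.map (fun g => angp (ρ g) - (finrank ℂ (fixS (ρ g)) : ℝ))).sum +
      finrank ℂ (fixG ρ (Subgroup.closure {g | g ∈ l})) := by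
  induction l using List.reverseRecOn with
  | nil =>
    have h1 : fixG ρ (Subgroup.closure {g | g ∈ ([] : List G)}) = ⊤ := by
      rw [eq_top_iff]
      intro v _
      exact fix_closure_chn ρ (fun g hg => absurd hg List.not_mem_nil)
    rw [List.prod_nil, map_one, h1, finrank_top, List.map_nil, List.sum_nil, angp_one, zero_add]
  | append_singleton l g ih =>
    have h1 := two (ρ l.prod) (ρ g) (hρ _) (hρ g) (fixG ρ (Subgroup.closure {x | x ∈ l})) (by
      intro v hv
      exact hv l.prod (Subgroup.list_prod_mem _ fun x hx => Subgroup.subset_closure hx))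
    have h2 : (fixG ρ (Subgroup.closure {x | x ∈ l}) ⊓ fixS (ρ g) : Submodule ℂ V) ≤
        fixG ρ (Subgroup.closure {x | x ∈ l ++ [g]}) := by
      rintro v ⟨hv1, hv2⟩
      refine fix_closure_chn ρ fun x hx => ?_
      rw [Set.mem_setOf_eq, List.mem_append, List.mem_singleton] at hx
      rcases hx with hx | rfl
      · exact hv1 x (Subgroup.subset_closure hx)
      · exact hv2
    have h3 : (finrank ℂ (fixG ρ (Subgroup.closure {x | x ∈ l}) ⊓ fixS (ρ g) : Submodule ℂ V) : ℝ) ≤
        finrank ℂ (fixG ρ (Subgroup.closure {x | x ∈ l ++ [g]})) := by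
      exact_mod_cast Submodule.finrank_mono h2
    have h4 : ρ (l ++ [g]).prod = ρ l.prod ∘ₗ ρ g := by
      rw [List.prod_append, List.prod_singleton, map_mul]
      rfl
    rw [h4, List.map_append, List.sum_append, List.map_singleton, List.sum_singleton]
    linarith

end Pool.Agent.H52.VC
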