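import Pool.Agent.H52.VC.Defs

set_option autoImplicit false

/-!
PROJECT VC (MP_bf82d2_ag), module Cmp.
The characters of the minimal invariant subspaces of the regular representation separate class functions.
PROOF. `A = ∑ g, f g • lam g⁻¹` commutes with all `lam x` (class function).  On a minimal invariant `W` it is a scalar
(Schur: an eigenspace of `A` in `W` is invariant), with trace `∑ g, f g * trace (lam g⁻¹ on W) = 0`, so `A = 0` on `W`
(`dim W ≠ 0`).  `ker A` is invariant and contains all minimal invariant subspaces, so it is `⊤`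
(`Hup.eq_top_of_minInv_le`); `A δ_1 = 0` gives `f = 0`.
-/

namespace Pool.Agent.H52.VC

open Finset Module
open Pool.Agent.H93.Hup (Inv MinInv)
open Pool.Agent.H82.CO (chi quadInv)

private theorem irr_cmp {G X : Type} [Group G] [AddCommGroup X] [Module ℂ X]
    (ρ : Representation ℂ G X) (U : Submodule ℂ X) (hU : MinInv ρ U) :
    Pool.Agent.H93.Hup.Irr (subR ρ U hU.2.1) := by
  refine ⟨?_, ?_⟩
  · obtain ⟨x, hx, hx0⟩ := Submodule.exists_mem_ne_zero_of_ne_bot hU.1
    exact ⟨⟨x, hx⟩, fun h => hx0 (congrArg Subtype.val h)⟩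
  · intro τ hτ hne
    have hmap : τ.map U.subtype = U := by
      apply hU.2.2
      · rintro g v ⟨w, hw, rfl⟩
        exact ⟨subR ρ U hU.2.1 g w, hτ g w hw, rfl⟩
      · rintro v ⟨w, _, rfl⟩
        exact w.2
      · intro h
        apply hne
        rw [Submodule.eq_bot_iff]
        intro x hx
        have h1 : (x : X) ∈ τ.map U.subtype := ⟨x, hx, rfl⟩
        rw [h, Submodule.mem_bot] at h1
        exact Subtype.ext h1
    rw [eq_top_iff]
    intro x _
    have h1 : (x : X) ∈ τ.map U.subtype := by rw [hmap]; exact x.2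
    obtain ⟨w, hw, hwx⟩ := h1
    have : w = x := Subtype.ext hwx
    rw [← this]
    exact hw

private theorem comm_cmp {G X : Type} [Group G] [Fintype G] [AddCommGroup X] [Module ℂ X]
    (ρ : Representation ℂ G X) (f : G → ℂ) (hf : ∀ g x, f (x * g * x⁻¹) = f g) (x : G) (v : X) :
    (∑ g, f g • ρ g⁻¹) (ρ x v) = ρ x ((∑ g, f g • ρ g⁻¹) v) := by
  simp only [LinearMap.sum_apply, LinearMap.smul_apply, map_sum, map_smul]
  symm
  refine Fintype.sum_equiv (MulAut.conj x).toEquiv _ _ fun g => ?_
  have h1 : (MulAut.conj x).toEquiv g = x * g * x⁻¹ := rfl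
  rw [h1, hf]
  congr 1
  rw [← Module.End.mul_apply, ← map_mul, ← Module.End.mul_apply, ← map_mul]
  congr 2
  group

theorem complete {G : Type} [Group G] [Fintype G] (f : G → ℂ) (hf : ∀ g x, f (x * g * x⁻¹) = f g)
    (h : ∀ (W : Submodule ℂ (G → ℂ)) (hW : MinInv (lam (G := G)) W),
      ∑ g, f g * LinearMap.trace ℂ W (subR lam W hW.2.1 g⁻¹) = 0) : f = 0 := by
  classical
  set A : (G → ℂ) →ₗ[ℂ] (G → ℂ) := ∑ g, f g • lam (G := G) g⁻¹ with hA
  have hAc : ∀ x v, A (lam x v) = lam x (A v) := comm_cmp lam f hf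
  have hker : LinearMap.ker A = ⊤ := by
    refine Pool.Agent.H93.Hup.eq_top_of_minInv_le lam _ ?_ ?_
    · intro g v hv
      rw [LinearMap.mem_ker] at hv ⊢
      rw [hAc, hv, map_zero]
    · intro W hW v hv
      rw [LinearMap.mem_ker]
      obtain ⟨c, hc⟩ := Pool.Agent.H93.Hup.schur (subR lam W hW.2.1) (irr_cmp lam W hW)
        (∑ g, f g • subR lam W hW.2.1 g⁻¹) (comm_cmp (subR lam W hW.2.1) f hf)
      have h1 : (∑ g, f g • subR lam W hW.2.1 g⁻¹) = c • LinearMap.id := by
        ext1 x
        rw [hc x]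
        rfl
      have h2 := congrArg (LinearMap.trace ℂ W) h1
      rw [map_sum] at h2
      simp only [map_smul, smul_eq_mul, LinearMap.trace_id] at h2
      rw [h W hW] at h2
      have hne : (finrank ℂ W : ℂ) ≠ 0 := by
        rw [Nat.cast_ne_zero]
        intro h0
        exact hW.1 (Submodule.finrank_eq_zero.mp h0)
      have hc0 : c = 0 := by
        rcases mul_eq_zero.mp h2.symm with h3 | h3
        · exact h3
        · exact absurd h3 hne
      have h3 := hc ⟨v, hv⟩
      rw [hc0, zero_smul] at h3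
      have h4 := congrArg Subtype.val h3
      rw [LinearMap.sum_apply] at h4
      rw [hA, LinearMap.sum_apply]
      simp only [LinearMap.smul_apply] at h4 ⊢
      rw [AddSubmonoidClass.coe_finsetSum] at h4
      exact h4
  funext x
  have h1 : A (Pi.single 1 1) = 0 := by
    rw [← LinearMap.mem_ker, hker]
    trivial
  have h2 := congrFun h1 x⁻¹
  rw [hA, LinearMap.sum_apply, Finset.sum_apply] at h2
  simp only [LinearMap.smul_apply, Pi.smul_apply, lam_apply, inv_inv, smul_eq_mul] at h2
  rw [Finset.sum_eq_single x] at h2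
  · simpa using h2
  · intro g _ hg
    rw [Pi.single_eq_of_ne, mul_zero]
    intro h3
    exact hg (mul_inv_eq_one.mp h3)
  · intro h3
    exact absurd (Finset.mem_univ x) h3

end Pool.Agent.H52.VC
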