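import Pool.Agent.H52.VC.Defs

set_option autoImplicit false

/-!
PROJECT VC (MP_bf82d2_ag), module Cnt.
Eigenvalue counting for two unitary operators which agree on the orthogonal complement of a vector `e`.
PROOF. For `x = ∑ c j • b j`: `q_U x := Re (ee (-(φ/2)) * inner x (U x)) - cos (π φ) * ‖x‖ ^ 2 = ∑ ‖c j‖ ^ 2 * L (t j)`,
`L t = cos (2 π t - π φ) - cos (π φ)`; for `0 < t ≤ 1`, `0 < φ ≤ 1`: `L t > 0` iff `t < φ`, and `L 1 = 0`.
`P` = span of the `b j` with `t j < φ` (`q_U > 0` on `P` minus `0`), `M` = span of the `b' j` with `φ ≤ t' j`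
(`q_U' ≤ 0` on `M`).  `cnt1`: `P ⊓ e^⊥` has dimension `≥ dim P - 1` and meets `M` in `0` (`q_U = q_U'` on `e^⊥`).
`cnt2`: `v` is a combination of the `b j` with `t j = 1` (so `L = 0` there), so `q_U (p + c v) = q_U p`; the space
`(P ⊔ span v) ⊓ e^⊥` has dimension `≥ dim P` and `q_U > 0` on it minus `0` (if `p = 0` then `c v ∈ e^⊥`, so `c = 0`),
so it meets `M` in `0`.
-/

namespace Pool.Agent.H52.VC

open Finset Module
open Pool.Agent.H93.Hup (Inv MinInv)
open Pool.Agent.H82.CO (chi quadInv)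

/-- the Hermitian form `Re (ee (-(φ/2)) ⟨x, U x⟩) - cos (π φ) ‖x‖ ^ 2` -/
private noncomputable def q_cnt {V : Type} [NormedAddCommGroup V] [InnerProductSpace ℂ V]
    (U : V →ₗ[ℂ] V) (φ : ℝ) (x : V) : ℝ :=
  (ee (-(φ / 2)) * inner ℂ x (U x)).re - Real.cos (Real.pi * φ) * ‖x‖ ^ 2

/-- the coefficient `L` -/
private noncomputable def L_cnt (φ t : ℝ) : ℝ :=
  Real.cos (2 * Real.pi * t - Real.pi * φ) - Real.cos (Real.pi * φ)

private theorem re_cnt (φ t : ℝ) :
    (ee (-(φ / 2)) * ee t).re = Real.cos (2 * Real.pi * t - Real.pi * φ) := by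
  unfold ee
  rw [← Complex.exp_add]
  have h : 2 * (Real.pi : ℂ) * ((-(φ / 2) : ℝ) : ℂ) * Complex.I + 2 * (Real.pi : ℂ) * (t : ℂ) * Complex.I =
      ((2 * Real.pi * t - Real.pi * φ : ℝ) : ℂ) * Complex.I := by
    push_cast
    ring
  rw [h, Complex.exp_ofReal_mul_I_re]

private theorem L_pos_cnt {φ t : ℝ} (h1 : φ ≤ 1) (ht : 0 < t) (htφ : t < φ) : 0 < L_cnt φ t := by
  unfold L_cnt
  have hpi := Real.pi_pos
  have h3 : |2 * Real.pi * t - Real.pi * φ| < Real.pi * φ := by
    rw [abs_lt]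
    constructor <;> nlinarith
  have h4 : Real.cos (Real.pi * φ) < Real.cos |2 * Real.pi * t - Real.pi * φ| :=
    Real.cos_lt_cos_of_nonneg_of_le_pi (abs_nonneg _) (by nlinarith) h3
  rw [Real.cos_abs] at h4
  linarith

private theorem L_nonpos_cnt {φ t : ℝ} (h0 : 0 < φ) (ht1 : t ≤ 1) (htφ : φ ≤ t) : L_cnt φ t ≤ 0 := by
  unfold L_cnt
  have hpi := Real.pi_pos
  -- cos (2 π t - π φ) = cos (π - (..)): use the distance to π
  have h3 : Real.cos (2 * Real.pi * t - Real.pi * φ) = - Real.cos (|2 * Real.pi * t - Real.pi * φ - Real.pi|) := by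
    rw [Real.cos_abs, Real.cos_sub_pi, neg_neg]
  have h4 : Real.cos (Real.pi * φ) = - Real.cos (Real.pi - Real.pi * φ) := by
    rw [Real.cos_pi_sub, neg_neg]
  rw [h3, h4]
  have h5 : |2 * Real.pi * t - Real.pi * φ - Real.pi| ≤ Real.pi - Real.pi * φ := by
    rw [abs_le]
    constructor <;> nlinarith
  have h6 : Real.cos (Real.pi - Real.pi * φ) ≤ Real.cos |2 * Real.pi * t - Real.pi * φ - Real.pi| :=
    Real.cos_le_cos_of_nonneg_of_le_pi (abs_nonneg _) (by nlinarith) h5
  linarith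

private theorem L_one_cnt (φ : ℝ) : L_cnt φ 1 = 0 := by
  unfold L_cnt
  rw [show 2 * Real.pi * 1 - Real.pi * φ = 2 * Real.pi - Real.pi * φ by ring, Real.cos_two_pi_sub, sub_self]

private theorem ee_ne_cnt {t : ℝ} (h0 : 0 < t) (h1 : t < 1) : ee t ≠ 1 := by
  unfold ee
  intro h
  rw [Complex.exp_eq_one_iff] at h
  obtain ⟨n, hn⟩ := h
  have hpi : (Real.pi : ℂ) ≠ 0 := by exact_mod_cast Real.pi_ne_zero
  have h2 : (t : ℂ) = n := by
    have h3 : (2 * (Real.pi : ℂ) * Complex.I) * t = (2 * (Real.pi : ℂ) * Complex.I) * n := by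
      rw [mul_comm (2 * (Real.pi : ℂ) * Complex.I) (n : ℂ), ← hn]
      ring
    have h4 : 2 * (Real.pi : ℂ) * Complex.I ≠ 0 := by
      simp [hpi, Complex.I_ne_zero]
    exact mul_left_cancel₀ h4 h3
  have h3 : t = (n : ℝ) := by exact_mod_cast h2
  rw [h3] at h0 h1
  have h5 : (0 : ℤ) < n := by exact_mod_cast h0
  have h6 : n < (1 : ℤ) := by exact_mod_cast h1
  omega

section Form

variable {V : Type} [NormedAddCommGroup V] [InnerProductSpace ℂ V] {n : ℕ}

private theorem U_repr_cnt (U : V →ₗ[ℂ] V) (b : OrthonormalBasis (Fin n) ℂ V) (t : Fin n → ℝ)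
    (h : ∀ j, U (b j) = ee (t j) • b j) (x : V) (j : Fin n) : b.repr (U x) j = ee (t j) * b.repr x j := by
  have h1 : U x = ∑ i, (b.repr x i * ee (t i)) • b i := by
    conv_lhs => rw [← b.sum_repr x]
    rw [map_sum]
    refine Finset.sum_congr rfl fun i _ => ?_
    rw [map_smul, h i, smul_smul]
  rw [h1, b.repr_apply_apply, inner_sum, Finset.sum_eq_single j]
  · rw [inner_smul_right, b.inner_eq_one, mul_one, mul_comm]
  · intro i _ hij
    rw [inner_smul_right, b.inner_eq_zero hij.symm, mul_zero]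
  · intro hj
    exact absurd (Finset.mem_univ j) hj

private theorem q_eq_cnt (U : V →ₗ[ℂ] V) (b : OrthonormalBasis (Fin n) ℂ V) (t : Fin n → ℝ)
    (h : ∀ j, U (b j) = ee (t j) • b j) (φ : ℝ) (x : V) :
    q_cnt U φ x = ∑ j, ‖b.repr x j‖ ^ 2 * L_cnt φ (t j) := by
  have h1 : inner ℂ x (U x) = ∑ j, ((‖b.repr x j‖ ^ 2 : ℝ) : ℂ) * ee (t j) := by
    rw [← b.sum_inner_mul_inner x (U x)]
    refine Finset.sum_congr rfl fun j _ => ?_
    rw [← b.repr_apply_apply, U_repr_cnt U b t h x j, b.repr_apply_apply, ← inner_conj_symm]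
    have h2 : (starRingEnd ℂ) (inner ℂ (b j) x) * (ee (t j) * inner ℂ (b j) x) =
        (inner ℂ (b j) x * (starRingEnd ℂ) (inner ℂ (b j) x)) * ee (t j) := by ring
    rw [h2, Complex.mul_conj, Complex.normSq_eq_norm_sq]
  have h3 : ‖x‖ ^ 2 = ∑ j, ‖b.repr x j‖ ^ 2 := by
    rw [← b.repr.norm_map x, EuclideanSpace.norm_sq_eq]
  unfold q_cnt
  rw [h1, h3, Finset.mul_sum, Complex.re_sum, Finset.mul_sum, ← Finset.sum_sub_distrib]
  refine Finset.sum_congr rfl fun j _ => ?_
  have h4 : ee (-(φ / 2)) * (((‖b.repr x j‖ ^ 2 : ℝ) : ℂ) * ee (t j)) =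
      ((‖b.repr x j‖ ^ 2 : ℝ) : ℂ) * (ee (-(φ / 2)) * ee (t j)) := by ring
  rw [h4, Complex.re_ofReal_mul, re_cnt]
  unfold L_cnt
  ring

/-- the span of the basis vectors in `S` -/
private noncomputable def sp_cnt (b : OrthonormalBasis (Fin n) ℂ V) (S : Finset (Fin n)) : Submodule ℂ V :=
  Submodule.span ℂ (b.toBasis '' (S : Set (Fin n)))

private theorem sp_zero_cnt (b : OrthonormalBasis (Fin n) ℂ V) (S : Finset (Fin n)) {x : V}
    (hx : x ∈ sp_cnt b S) {j : Fin n} (hj : j ∉ S) : b.repr x j = 0 := by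
  have h1 := b.toBasis.repr_support_subset_of_mem_span (S : Set (Fin n)) hx
  by_contra h
  have h2 : j ∈ (b.toBasis.repr x).support := by
    rw [Finsupp.mem_support_iff, OrthonormalBasis.coe_toBasis_repr_apply]
    exact h
  exact hj (by simpa using h1 h2)

private theorem sp_rank_cnt (b : OrthonormalBasis (Fin n) ℂ V) (S : Finset (Fin n)) :
    finrank ℂ (sp_cnt b S) = S.card := by
  unfold sp_cnt
  have hli : LinearIndependent ℂ (fun j : S => b.toBasis (j : Fin n)) :=
    b.toBasis.linearIndependent.comp _ Subtype.val_injective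
  have h1 : b.toBasis '' (S : Set (Fin n)) = Set.range (fun j : S => b.toBasis (j : Fin n)) := by
    ext y
    simp
  rw [h1, finrank_span_eq_card hli, Fintype.card_coe]

private theorem n_cnt (b : OrthonormalBasis (Fin n) ℂ V) : finrank ℂ V = n := by
  rw [finrank_eq_card_basis b.toBasis, Fintype.card_fin]

private theorem key_cnt [FiniteDimensional ℂ V] (U U' : V →ₗ[ℂ] V) (b' : OrthonormalBasis (Fin n) ℂ V) (t' : Fin n → ℝ)
    (ht' : ∀ j, 0 < t' j ∧ t' j ≤ 1) (h' : ∀ j, U' (b' j) = ee (t' j) • b' j)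
    (e : V) (hUU : ∀ x, inner ℂ e x = 0 → U' x = U x) (φ : ℝ) (h0 : 0 < φ)
    (W : Submodule ℂ V) (hW : ∀ x ∈ W, inner ℂ e x = 0 → q_cnt U φ x ≤ 0 → x = 0) :
    finrank ℂ W ≤ (univ.filter (fun j => t' j < φ)).card + 1 := by
  classical
  set M : Submodule ℂ V := sp_cnt b' (univ.filter (fun j => ¬ t' j < φ)) with hM
  set K : Submodule ℂ V := LinearMap.ker (innerₛₗ ℂ e) with hK
  have hn := n_cnt b'
  have hMr : finrank ℂ M = (univ.filter (fun j => ¬ t' j < φ)).card := sp_rank_cnt b' _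
  have hcard : (univ.filter (fun j => t' j < φ)).card + (univ.filter (fun j => ¬ t' j < φ)).card = n := by
    rw [Finset.card_filter_add_card_filter_not]
    simp
  have hKr : n ≤ finrank ℂ K + 1 := by
    rw [hK]
    have h1 := LinearMap.finrank_range_add_finrank_ker (innerₛₗ ℂ e)
    have h2 : finrank ℂ (LinearMap.range (innerₛₗ ℂ e)) ≤ 1 := by
      refine (Submodule.finrank_le _).trans ?_
      rw [finrank_self]
    omega
  have hdis : (W ⊓ K) ⊓ M = ⊥ := by
    rw [eq_bot_iff]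
    rintro x ⟨⟨hxW, hxK⟩, hxM⟩
    have hx0 : inner ℂ e x = 0 := by
      rw [hK] at hxK
      exact hxK
    rw [Submodule.mem_bot]
    refine hW x hxW hx0 ?_
    have h1 : q_cnt U φ x = q_cnt U' φ x := by
      unfold q_cnt
      rw [hUU x hx0]
    rw [h1, q_eq_cnt U' b' t' h' φ x]
    refine Finset.sum_nonpos fun j _ => ?_
    by_cases hj : t' j < φ
    · have h2 : b'.repr x j = 0 := sp_zero_cnt b' _ hxM (by simp [hj])
      rw [h2]
      simp
    · push Not at hj
      exact mul_nonpos_of_nonneg_of_nonpos (by positivity) (L_nonpos_cnt h0 (ht' j).2 hj)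
  have hr1 := Submodule.finrank_sup_add_finrank_inf_eq (W ⊓ K) M
  have hr2 := Submodule.finrank_sup_add_finrank_inf_eq W K
  rw [hdis, finrank_bot] at hr1
  have hr3 : finrank ℂ ((W ⊓ K) ⊔ M : Submodule ℂ V) ≤ n := (Submodule.finrank_le _).trans hn.le
  have hr4 : finrank ℂ (W ⊔ K : Submodule ℂ V) ≤ n := (Submodule.finrank_le _).trans hn.le
  omega

end Form

theorem cnt1 {V : Type} [NormedAddCommGroup V] [InnerProductSpace ℂ V] [FiniteDimensional ℂ V] {n : ℕ}
    (U U' : V →ₗ[ℂ] V) (b b' : OrthonormalBasis (Fin n) ℂ V) (t t' : Fin n → ℝ)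
    (ht : ∀ j, 0 < t j ∧ t j ≤ 1) (ht' : ∀ j, 0 < t' j ∧ t' j ≤ 1)
    (h : ∀ j, U (b j) = ee (t j) • b j) (h' : ∀ j, U' (b' j) = ee (t' j) • b' j)
    (e : V) (hUU : ∀ x, inner ℂ e x = 0 → U' x = U x) (φ : ℝ) (h0 : 0 < φ) (h1 : φ ≤ 1) :
    (univ.filter (fun j => t j < φ)).card ≤ (univ.filter (fun j => t' j < φ)).card + 1 := by
  classical
  have hr := sp_rank_cnt b (univ.filter (fun j => t j < φ))
  rw [← hr]
  refine key_cnt U U' b' t' ht' h' e hUU φ h0 _ fun x hx _ hq => ?_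
  rw [q_eq_cnt U b t h φ x] at hq
  have hnn : ∀ j ∈ (univ : Finset (Fin n)), 0 ≤ ‖b.repr x j‖ ^ 2 * L_cnt φ (t j) := by
    intro j _
    by_cases hj : t j < φ
    · exact mul_nonneg (by positivity) (L_pos_cnt h1 (ht j).1 hj).le
    · have h2 : b.repr x j = 0 := sp_zero_cnt b _ hx (by simp [hj])
      rw [h2]
      simp
  have hz := (Finset.sum_eq_zero_iff_of_nonneg hnn).mp (le_antisymm hq (Finset.sum_nonneg hnn))
  have hx0 : b.repr x = 0 := by
    ext j
    by_cases hj : t j < φ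
    · have h2 := hz j (mem_univ j)
      have h3 := L_pos_cnt h1 (ht j).1 hj
      have h4 : ‖b.repr x j‖ ^ 2 = 0 := by
        rcases mul_eq_zero.mp h2 with h | h
        · exact h
        · exact absurd h h3.ne'
      simpa using h4
    · exact sp_zero_cnt b _ hx (by simp [hj])
  exact (LinearIsometryEquiv.map_eq_zero_iff b.repr).mp hx0

theorem cnt2 {V : Type} [NormedAddCommGroup V] [InnerProductSpace ℂ V] [FiniteDimensional ℂ V] {n : ℕ}
    (U U' : V →ₗ[ℂ] V) (b b' : OrthonormalBasis (Fin n) ℂ V) (t t' : Fin n → ℝ)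
    (ht : ∀ j, 0 < t j ∧ t j ≤ 1) (ht' : ∀ j, 0 < t' j ∧ t' j ≤ 1)
    (h : ∀ j, U (b j) = ee (t j) • b j) (h' : ∀ j, U' (b' j) = ee (t' j) • b' j)
    (e : V) (hUU : ∀ x, inner ℂ e x = 0 → U' x = U x) (φ : ℝ) (h0 : 0 < φ) (h1 : φ ≤ 1)
    (v : V) (hv : U v = v) (hev : inner ℂ e v ≠ 0) :
    (univ.filter (fun j => t j < φ)).card ≤ (univ.filter (fun j => t' j < φ)).card := by
  classical
  have hv0 : v ≠ 0 := by
    rintro rfl
    exact hev (inner_zero_right _)
  -- the coordinates of `v` vanish unless `t j = 1`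
  have hvj : ∀ j, t j < 1 → b.repr v j = 0 := by
    intro j hj
    have h2 := U_repr_cnt U b t h v j
    rw [hv] at h2
    have h3 : (ee (t j) - 1) * b.repr v j = 0 := by
      rw [sub_mul, one_mul, ← h2, sub_self]
    rcases mul_eq_zero.mp h3 with h4 | h4
    · exact absurd (sub_eq_zero.mp h4) (ee_ne_cnt (ht j).1 hj)
    · exact h4
  set P := sp_cnt b (univ.filter (fun j => t j < φ)) with hP
  have hr : finrank ℂ P = (univ.filter (fun j => t j < φ)).card := sp_rank_cnt b _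
  have hvP : v ∉ P := by
    intro hvP
    apply hv0
    apply (LinearIsometryEquiv.map_eq_zero_iff b.repr).mp
    ext j
    by_cases hj : t j < φ
    · exact hvj j (by linarith)
    · exact sp_zero_cnt b _ hvP (by simp [hj])
  have hrank : finrank ℂ (P ⊔ Submodule.span ℂ {v} : Submodule ℂ V) = finrank ℂ P + 1 := by
    have h2 := Submodule.finrank_sup_add_finrank_inf_eq P (Submodule.span ℂ {v})
    have h3 : P ⊓ Submodule.span ℂ {v} = ⊥ := by
      rw [eq_bot_iff]
      rintro x ⟨hxP, hxv⟩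
      obtain ⟨c, rfl⟩ := Submodule.mem_span_singleton.mp hxv
      rw [Submodule.mem_bot]
      by_contra hc
      have hc0 : c ≠ 0 := by
        rintro rfl
        exact hc (zero_smul _ _)
      apply hvP
      have := P.smul_mem c⁻¹ hxP
      rwa [smul_smul, inv_mul_cancel₀ hc0, one_smul] at this
    rw [h3, finrank_bot, finrank_span_singleton hv0] at h2
    omega
  have hmain : finrank ℂ (P ⊔ Submodule.span ℂ {v} : Submodule ℂ V) ≤
      (univ.filter (fun j => t' j < φ)).card + 1 := by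
    refine key_cnt U U' b' t' ht' h' e hUU φ h0 _ fun x hx hex hq => ?_
    obtain ⟨p, hp, w, hw, rfl⟩ := Submodule.mem_sup.mp hx
    obtain ⟨c, rfl⟩ := Submodule.mem_span_singleton.mp hw
    rw [q_eq_cnt U b t h φ] at hq
    have hval : ∀ j, ‖b.repr (p + c • v) j‖ ^ 2 * L_cnt φ (t j) = ‖b.repr p j‖ ^ 2 * L_cnt φ (t j) := by
      intro j
      have h2 : b.repr (p + c • v) j = b.repr p j + c * b.repr v j := by
        rw [map_add, map_smul]
        rfl
      by_cases hj : t j < 1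
      · rw [h2, hvj j hj, mul_zero, add_zero]
      · have h3 : t j = 1 := le_antisymm (ht j).2 (not_lt.mp hj)
        rw [h3, L_one_cnt, mul_zero, mul_zero]
    have hnn : ∀ j ∈ (univ : Finset (Fin n)), 0 ≤ ‖b.repr p j‖ ^ 2 * L_cnt φ (t j) := by
      intro j _
      by_cases hj : t j < φ
      · exact mul_nonneg (by positivity) (L_pos_cnt h1 (ht j).1 hj).le
      · have h2 : b.repr p j = 0 := sp_zero_cnt b _ hp (by simp [hj])
        rw [h2]
        simp
    rw [Finset.sum_congr rfl fun j _ => hval j] at hq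
    have hz := (Finset.sum_eq_zero_iff_of_nonneg hnn).mp (le_antisymm hq (Finset.sum_nonneg hnn))
    have hp0 : p = 0 := by
      apply (LinearIsometryEquiv.map_eq_zero_iff b.repr).mp
      ext j
      by_cases hj : t j < φ
      · have h2 := hz j (mem_univ j)
        have h3 := L_pos_cnt h1 (ht j).1 hj
        have h4 : ‖b.repr p j‖ ^ 2 = 0 := by
          rcases mul_eq_zero.mp h2 with h | h
          · exact h
          · exact absurd h h3.ne'
        simpa using h4
      · exact sp_zero_cnt b _ hp (by simp [hj])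
    rw [hp0, zero_add] at hex ⊢
    rw [inner_smul_right] at hex
    rcases mul_eq_zero.mp hex with h2 | h2
    · rw [h2, zero_smul]
    · exact absurd h2 hev
  omega

end Pool.Agent.H52.VC
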