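import Mathlib
import Pool.Agent.H82.CO.Defs
import Pool.Agent.H93.Hup.Basic

set_option autoImplicit false

/-!
PROJECT VC (MP_bf82d2_ag, VanishingCycles).  Definitions.

`G` is a finite group, `lam` the left regular representation on the functions `G → ℂ`, `RC a H H'` the
space of vanishing cycles, `invHom ρ σ` the space of `G`-maps, `symInv ρ` the space of invariant
symmetric bilinear forms, `angp U` the sum of the angles in `(0, 1]` of the eigenvalues of `U`.
-/

namespace Pool.Agent.H52.VC

open Finset Module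
open Pool.Agent.H93.Hup (Inv MinInv)

/-- `exp (2 π i t)` -/
noncomputable def ee (t : ℝ) : ℂ := Complex.exp (2 * Real.pi * t * Complex.I)

/-- the angle of `z` in `(0, 1]` -/
noncomputable def tp (z : ℂ) : ℝ :=
  if 0 < Complex.arg z then Complex.arg z / (2 * Real.pi) else Complex.arg z / (2 * Real.pi) + 1

section Lin

variable {V : Type} [AddCommGroup V] [Module ℂ V]

/-- the sum of the angles in `(0, 1]` of the eigenvalues -/
noncomputable def angp [FiniteDimensional ℂ V] (U : V →ₗ[ℂ] V) : ℝ := (U.charpoly.roots.map tp).sum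

/-- the fixed space -/
def fixS (U : V →ₗ[ℂ] V) : Submodule ℂ V where
  carrier := {v | U v = v}
  add_mem' := by
    intro v w hv hw
    show U (v + w) = v + w
    rw [map_add, show U v = v from hv, show U w = w from hw]
  zero_mem' := map_zero U
  smul_mem' := by
    intro c v hv
    show U (c • v) = c • v
    rw [map_smul, show U v = v from hv]

theorem mem_fixS (U : V →ₗ[ℂ] V) (v : V) : v ∈ fixS U ↔ U v = v := Iff.rfl

end Lin

section Herm

variable {V : Type} [NormedAddCommGroup V] [InnerProductSpace ℂ V]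

/-- `U` preserves the inner product -/
def IsU (U : V →ₗ[ℂ] V) : Prop := ∀ x y, inner ℂ (U x) (U y) = inner ℂ x y

/-- the complex reflection `x ↦ x + (exp (2 π i β) - 1) ⟨e, x⟩ e` -/
noncomputable def cref (e : V) (β : ℝ) : V →ₗ[ℂ] V where
  toFun x := x + ((ee β - 1) * inner ℂ e x) • e
  map_add' := by
    intro x y
    rw [inner_add_right, mul_add, add_smul]
    abel
  map_smul' := by
    intro c x
    rw [inner_smul_right, RingHom.id_apply, smul_add, smul_smul]
    congr 2
    ring

theorem cref_apply (e : V) (β : ℝ) (x : V) : cref e β x = x + ((ee β - 1) * inner ℂ e x) • e := rfl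

end Herm

section Rep

variable {G : Type} [Group G] {V V' : Type} [AddCommGroup V] [Module ℂ V] [AddCommGroup V'] [Module ℂ V']

/-- the vectors fixed by `K` -/
def fixG (ρ : Representation ℂ G V) (K : Subgroup G) : Submodule ℂ V where
  carrier := {v | ∀ g ∈ K, ρ g v = v}
  add_mem' := by
    intro v w hv hw g hg
    rw [map_add, hv g hg, hw g hg]
  zero_mem' := fun g _ => map_zero _
  smul_mem' := by
    intro c v hv g hg
    rw [map_smul, hv g hg]

theorem mem_fixG (ρ : Representation ℂ G V) (K : Subgroup G) (v : V) :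
    v ∈ fixG ρ K ↔ ∀ g ∈ K, ρ g v = v := Iff.rfl

/-- the `G`-maps -/
def invHom (ρ : Representation ℂ G V) (σ : Representation ℂ G V') : Submodule ℂ (V →ₗ[ℂ] V') where
  carrier := {T | ∀ g x, T (ρ g x) = σ g (T x)}
  add_mem' := by
    intro S T hS hT g x
    rw [LinearMap.add_apply, LinearMap.add_apply, hS g x, hT g x, map_add]
  zero_mem' := by
    intro g x
    rw [LinearMap.zero_apply, LinearMap.zero_apply, map_zero]
  smul_mem' := by
    intro c T hT g x
    rw [LinearMap.smul_apply, LinearMap.smul_apply, hT g x, map_smul]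

theorem mem_invHom (ρ : Representation ℂ G V) (σ : Representation ℂ G V') (T : V →ₗ[ℂ] V') :
    T ∈ invHom ρ σ ↔ ∀ g x, T (ρ g x) = σ g (T x) := Iff.rfl

/-- the invariant symmetric bilinear forms -/
def symInv (ρ : Representation ℂ G V) : Submodule ℂ (V →ₗ[ℂ] V →ₗ[ℂ] ℂ) where
  carrier := {b | (∀ x y, b x y = b y x) ∧ ∀ g x y, b (ρ g x) (ρ g y) = b x y}
  add_mem' := by
    intro b c hb hc
    refine ⟨fun x y => ?_, fun g x y => ?_⟩
    · simp only [LinearMap.add_apply]
      rw [hb.1 x y, hc.1 x y]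
    · simp only [LinearMap.add_apply]
      rw [hb.2 g x y, hc.2 g x y]
  zero_mem' := ⟨fun x y => rfl, fun g x y => rfl⟩
  smul_mem' := by
    intro a b hb
    refine ⟨fun x y => ?_, fun g x y => ?_⟩
    · simp only [LinearMap.smul_apply]
      rw [hb.1 x y]
    · simp only [LinearMap.smul_apply]
      rw [hb.2 g x y]

theorem mem_symInv (ρ : Representation ℂ G V) (b : V →ₗ[ℂ] V →ₗ[ℂ] ℂ) :
    b ∈ symInv ρ ↔ (∀ x y, b x y = b y x) ∧ ∀ g x y, b (ρ g x) (ρ g y) = b x y := Iff.rfl

/-- the restriction of a representation to an invariant subspace -/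
def subR (ρ : Representation ℂ G V) (U : Submodule ℂ V) (h : Inv ρ U) : Representation ℂ G U where
  toFun g := (ρ g).restrict (h g)
  map_one' := by
    ext x
    show ((ρ 1) (x : V)) = x
    rw [map_one]
    rfl
  map_mul' := by
    intro g k
    ext x
    show ((ρ (g * k)) (x : V)) = ρ g (ρ k x)
    rw [map_mul]
    rfl

theorem subR_apply (ρ : Representation ℂ G V) (U : Submodule ℂ V) (h : Inv ρ U) (g : G) (x : U) :
    ((subR ρ U h g x : U) : V) = ρ g x := rfl

end Rep

section Reg

variable {G : Type} [Group G]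

/-- left translation on the functions on `G` -/
def lam : Representation ℂ G (G → ℂ) where
  toFun g :=
    { toFun := fun f x => f (g⁻¹ * x)
      map_add' := fun _ _ => rfl
      map_smul' := fun _ _ => rfl }
  map_one' := by
    ext f x
    simp
  map_mul' := by
    intro g k
    ext f x
    simp [mul_assoc]

theorem lam_apply (g : G) (f : G → ℂ) (x : G) : lam g f x = f (g⁻¹ * x) := rfl

/-- the subgroup generated by the first `k` of the `s i` -/
def Hlow {N : ℕ} (s : Fin N → G) (k : ℕ) : Subgroup G := Subgroup.closure {g | ∃ i : Fin N, (i : ℕ) < k ∧ s i = g}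

/-- the subgroup generated by the others -/
def Hupp {N : ℕ} (s : Fin N → G) (k : ℕ) : Subgroup G := Subgroup.closure {g | ∃ i : Fin N, k ≤ (i : ℕ) ∧ s i = g}

/-- the product of the first `k` of the `s i` -/
def pre {N : ℕ} (s : Fin N → G) (k : ℕ) : G := ((List.ofFn s).take k).prod

variable [Fintype G]

open Classical in
/-- the space of vanishing cycles: the functions `f` with `f (x a) = f x` and with sum `0` over all
left cosets of `H` and of `H'` -/
def RC (a : G) (H H' : Subgroup G) : Submodule ℂ (G → ℂ) where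
  carrier := {f | (∀ x, f (x * a) = f x) ∧ (∀ x, ∑ h : H, f (x * h) = 0) ∧ ∀ x, ∑ h : H', f (x * h) = 0}
  add_mem' := by
    intro f k hf hk
    refine ⟨fun x => ?_, fun x => ?_, fun x => ?_⟩
    · rw [Pi.add_apply, Pi.add_apply, hf.1 x, hk.1 x]
    · simp only [Pi.add_apply]
      rw [sum_add_distrib, hf.2.1 x, hk.2.1 x, add_zero]
    · simp only [Pi.add_apply]
      rw [sum_add_distrib, hf.2.2 x, hk.2.2 x, add_zero]
  zero_mem' := by
    refine ⟨fun x => rfl, fun x => ?_, fun x => ?_⟩
    · simp
    · simp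
  smul_mem' := by
    intro c f hf
    refine ⟨fun x => ?_, fun x => ?_, fun x => ?_⟩
    · rw [Pi.smul_apply, Pi.smul_apply, hf.1 x]
    · simp only [Pi.smul_apply]
      rw [← smul_sum, hf.2.1 x, smul_zero]
    · simp only [Pi.smul_apply]
      rw [← smul_sum, hf.2.2 x, smul_zero]

open Classical in
theorem mem_RC (a : G) (H H' : Subgroup G) (f : G → ℂ) :
    f ∈ RC a H H' ↔ (∀ x, f (x * a) = f x) ∧ (∀ x, ∑ h : H, f (x * h) = 0) ∧
      ∀ x, ∑ h : H', f (x * h) = 0 := Iff.rfl

theorem inv_RC (a : G) (H H' : Subgroup G) : Inv (lam (G := G)) (RC a H H') := by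
  classical
  intro g f hf
  refine ⟨fun x => ?_, fun x => ?_, fun x => ?_⟩
  · show f (g⁻¹ * (x * a)) = f (g⁻¹ * x)
    rw [← mul_assoc]
    exact hf.1 (g⁻¹ * x)
  · have h1 := hf.2.1 (g⁻¹ * x)
    show ∑ h : H, f (g⁻¹ * (x * h)) = 0
    simpa only [← mul_assoc] using h1
  · have h1 := hf.2.2 (g⁻¹ * x)
    show ∑ h : H', f (g⁻¹ * (x * h)) = 0
    simpa only [← mul_assoc] using h1

/-- the value of `⟨χ, ρ⟩` for `χ = chi s` -/
noncomputable def pv {N : ℕ} {V : Type} [AddCommGroup V] [Module ℂ V] [FiniteDimensional ℂ V]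
    (s : Fin N → G) (ρ : Representation ℂ G V) : ℝ :=
  ∑ i, (angp (ρ (s i)) - finrank ℂ (fixS (ρ (s i)))) - finrank ℂ V + finrank ℂ (fixG ρ ⊤)

end Reg

end Pool.Agent.H52.VC
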