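import Pool.Agent.H52.VC.Defs

set_option autoImplicit false

/-!
PROJECT VC (MP_bf82d2_ag), module Dmr.
The dimension of the space of vanishing cycles.
PROOF. The functions with `f (x a) = f x` are the functions on `G ⧸ zpowers a`, a space of dimension `n / ord a`; `RC` is the
kernel in it of the map to the functions on `G ⧸ H` and on `G ⧸ H'` (`f ↦` the sums over the cosets), a space of dimension
`n / |H| + n / |H'|`.
-/

namespace Pool.Agent.H52.VC

open Finset Module
open Pool.Agent.H93.Hup (Inv MinInv)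
open Pool.Agent.H82.CO (chi quadInv)

open Classical in
/-- the sums over the left cosets -/
private noncomputable def cs_dmr {G : Type} [Group G] [Fintype G] (H : Subgroup G) :
    (G → ℂ) →ₗ[ℂ] (G ⧸ H → ℂ) where
  toFun f q := ∑ h : H, f (q.out * h)
  map_add' := by
    intro f g
    funext q
    simp only [Pi.add_apply, sum_add_distrib]
  map_smul' := by
    intro c f
    funext q
    simp only [Pi.smul_apply, ← smul_sum, RingHom.id_apply]

open Classical in
private theorem cs_zero_dmr {G : Type} [Group G] [Fintype G] (H : Subgroup G) (f : G → ℂ)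
    (h : cs_dmr H f = 0) (x : G) : ∑ k : H, f (x * k) = 0 := by
  obtain ⟨k, hk⟩ := QuotientGroup.mk_out_eq_mul H x
  have h1 : ∑ j : H, f ((x : G ⧸ H).out * j) = 0 := congrFun h (x : G ⧸ H)
  rw [hk] at h1
  rw [← h1, ← Equiv.sum_comp (Equiv.mulLeft k) fun j : H => f (x * j)]
  refine sum_congr rfl fun j _ => ?_
  rw [Equiv.coe_mulLeft, Subgroup.coe_mul, mul_assoc]

private theorem card_dmr {G : Type} [Group G] [Fintype G] (H : Subgroup G) :
    (Nat.card G : ℝ) / Nat.card H = Nat.card (G ⧸ H) := by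
  have h := Subgroup.card_eq_card_quotient_mul_card_subgroup H
  have h0 : (Nat.card H : ℝ) ≠ 0 := by
    have : 0 < Nat.card H := Nat.card_pos
    positivity
  rw [h]
  push_cast
  field_simp

theorem dim_RC {G : Type} [Group G] [Fintype G] (a : G) (H H' : Subgroup G) :
    (Nat.card G : ℝ) / orderOf a - (Nat.card G : ℝ) / Nat.card H - (Nat.card G : ℝ) / Nat.card H' ≤
      finrank ℂ (RC a H H') := by
  classical
  rw [← Nat.card_zpowers a, card_dmr, card_dmr, card_dmr]
  set P : (G ⧸ Subgroup.zpowers a → ℂ) →ₗ[ℂ] (G → ℂ) :=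
    LinearMap.funLeft ℂ ℂ (QuotientGroup.mk (s := Subgroup.zpowers a)) with hP
  have hPi : Function.Injective P :=
    LinearMap.funLeft_injective_of_surjective ℂ ℂ _ QuotientGroup.mk_surjective
  set F : (G ⧸ Subgroup.zpowers a → ℂ) →ₗ[ℂ] (G ⧸ H → ℂ) × (G ⧸ H' → ℂ) :=
    ((cs_dmr H).comp P).prod ((cs_dmr H').comp P) with hF
  have h1 := F.finrank_range_add_finrank_ker
  have h2 : finrank ℂ (LinearMap.range F) ≤ Nat.card (G ⧸ H) + Nat.card (G ⧸ H') := by
    refine (Submodule.finrank_le _).trans ?_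
    rw [finrank_prod, finrank_fintype_fun_eq_card, finrank_fintype_fun_eq_card,
      Nat.card_eq_fintype_card, Nat.card_eq_fintype_card]
  have h3 : finrank ℂ (G ⧸ Subgroup.zpowers a → ℂ) = Nat.card (G ⧸ Subgroup.zpowers a) := by
    rw [finrank_fintype_fun_eq_card, Nat.card_eq_fintype_card]
  have h4 : finrank ℂ (LinearMap.ker F) ≤ finrank ℂ (RC a H H') := by
    rw [(Submodule.equivMapOfInjective P hPi (LinearMap.ker F)).finrank_eq]
    refine Submodule.finrank_mono ?_
    rintro _ ⟨f, hf, rfl⟩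
    have hf' : F f = 0 := hf
    have e1 : cs_dmr H (P f) = 0 := congrArg Prod.fst hf'
    have e2 : cs_dmr H' (P f) = 0 := congrArg Prod.snd hf'
    rw [mem_RC]
    refine ⟨fun x => ?_, cs_zero_dmr H _ e1, cs_zero_dmr H' _ e2⟩
    show f ((x * a : G) : G ⧸ Subgroup.zpowers a) = f (x : G ⧸ Subgroup.zpowers a)
    congr 1
    exact QuotientGroup.mk_mul_of_mem x (Subgroup.mem_zpowers a)
  have h5 : Nat.card (G ⧸ Subgroup.zpowers a)
      ≤ Nat.card (G ⧸ H) + Nat.card (G ⧸ H') + finrank ℂ (RC a H H') := by omega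
  have h6 : (Nat.card (G ⧸ Subgroup.zpowers a) : ℝ)
      ≤ Nat.card (G ⧸ H) + Nat.card (G ⧸ H') + finrank ℂ (RC a H H') := by exact_mod_cast h5
  linarith

end Pool.Agent.H52.VC
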