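import Pool.Agent.H52.VC.Defs

set_option autoImplicit false

/-!
PROJECT VC (MP_bf82d2_ag), module Emb.
Embedding by multiplicities.
PROOF. Choose `T ∈ invHom ρ σ` with kernel of minimal dimension and suppose `ker T ≠ 0`: it contains a minimal invariant `W`
(`Hup.exists_minInv`).  Let `C` be an invariant complement of `ker T` (`Hup.exists_compl`).  The `G`-maps `W → V` with values
in `C` do not contain the inclusion, so `dim Hom_G(W, T V) = dim Hom_G(W, C) < dim Hom_G(W, V) ≤ dim Hom_G(W, V')` and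
there is a `G`-map `φ : W → V'` with `φ W` not inside `T V`.  `W` is minimal, so `φ` is injective and `φ W ⊓ T V = 0`
(the preimage of `T V` is an invariant subspace of `W`, not all of `W`).  Let `π : V → W` be an invariant projection
(`exists_compl`) and `T' = T + φ ∘ π ∘ (projection to ker T along C)`; `T' x = 0` implies `T x = 0` and `φ (π ..) = 0`, so
`ker T' = {x ∈ ker T | π x = 0}` is smaller.
-/

namespace Pool.Agent.H52.VC

open Finset Module
open Pool.Agent.H93.Hup (Inv MinInv)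
open Pool.Agent.H82.CO (chi quadInv)

private theorem comp_emb {G : Type} [Group G] {V V' : Type} [AddCommGroup V] [Module ℂ V] [FiniteDimensional ℂ V]
    [AddCommGroup V'] [Module ℂ V'] [FiniteDimensional ℂ V'] (ρ : Representation ℂ G V) (σ : Representation ℂ G V')
    (T : V →ₗ[ℂ] V') (hT : T ∈ invHom ρ σ) (C : Submodule ℂ V) (hC : Inv ρ C)
    (h1 : LinearMap.ker T ⊓ C = ⊥) (h2 : LinearMap.ker T ⊔ C = ⊤)
    (W : Submodule ℂ V) (hW : MinInv ρ W) (hWK : W ≤ LinearMap.ker T)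
    (hall : ∀ φ ∈ invHom (subR ρ W hW.2.1) σ, ∀ w, φ w ∈ LinearMap.range T) :
    finrank ℂ (invHom (subR ρ W hW.2.1) σ) < finrank ℂ (invHom (subR ρ W hW.2.1) ρ) := by
  classical
  let A : Submodule ℂ (W →ₗ[ℂ] V) :=
    { carrier := {φ | φ ∈ invHom (subR ρ W hW.2.1) ρ ∧ ∀ w, φ w ∈ C}
      add_mem' := fun hφ hψ => ⟨Submodule.add_mem _ hφ.1 hψ.1, fun w => C.add_mem (hφ.2 w) (hψ.2 w)⟩
      zero_mem' := ⟨Submodule.zero_mem _, fun w => C.zero_mem⟩
      smul_mem' := fun c φ hφ => ⟨Submodule.smul_mem _ c hφ.1, fun w => C.smul_mem c (hφ.2 w)⟩ }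
  have hA : A < invHom (subR ρ W hW.2.1) ρ := by
    refine lt_of_le_of_ne (fun φ hφ => hφ.1) fun h => ?_
    have h3 : W.subtype ∈ invHom (subR ρ W hW.2.1) ρ := fun g x => rfl
    rw [← h] at h3
    apply hW.1
    rw [eq_bot_iff, ← h1]
    intro w hw
    exact ⟨hWK hw, h3.2 ⟨w, hw⟩⟩
  refine lt_of_le_of_lt ?_ (Submodule.finrank_lt_finrank_of_lt hA)
  have hinj : ∀ c ∈ C, T c = 0 → c = 0 := by
    intro c hc h0
    have h3 : c ∈ LinearMap.ker T ⊓ C := ⟨h0, hc⟩
    rw [h1] at h3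
    exact (Submodule.mem_bot ℂ).1 h3
  have hsur : ∀ y ∈ LinearMap.range T, ∃ c ∈ C, T c = y := by
    rintro y ⟨x, rfl⟩
    have hx : x ∈ LinearMap.ker T ⊔ C := by rw [h2]; trivial
    obtain ⟨k, hk, c, hc, rfl⟩ := Submodule.mem_sup.1 hx
    exact ⟨c, hc, by rw [map_add, show T k = 0 from hk, zero_add]⟩
  have hle : invHom (subR ρ W hW.2.1) σ ≤ A.map (LinearMap.compRight ℂ T) := by
    intro ψ hψ
    choose c hc hcT using fun w => hsur (ψ w) (hall ψ hψ w)
    have hu : ∀ a ∈ C, ∀ b ∈ C, T a = T b → a = b := by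
      intro a ha b hb hab
      have := hinj (a - b) (C.sub_mem ha hb) (by rw [map_sub, hab, sub_self])
      exact sub_eq_zero.1 this
    let φ : W →ₗ[ℂ] V :=
      { toFun := c
        map_add' := fun x y => hu _ (hc _) _ (C.add_mem (hc _) (hc _)) (by
          rw [map_add, hcT, hcT, hcT, map_add])
        map_smul' := fun a x => hu _ (hc _) _ (C.smul_mem _ (hc _)) (by
          rw [RingHom.id_apply, map_smul, hcT, hcT, map_smul]) }
    refine ⟨φ, ⟨fun g x => ?_, fun w => hc w⟩, ?_⟩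
    · refine hu _ (hc _) _ (hC g _ (hc _)) ?_
      rw [hcT, hψ g x, hT g]
      exact congrArg (σ g) (hcT x).symm
    · ext w
      exact hcT w
  exact (Submodule.finrank_mono hle).trans (Submodule.finrank_map_le _ _)

theorem embed {G : Type} [Group G] [Fintype G] {V V' : Type} [AddCommGroup V] [Module ℂ V] [FiniteDimensional ℂ V]
    [AddCommGroup V'] [Module ℂ V'] [FiniteDimensional ℂ V'] (ρ : Representation ℂ G V) (σ : Representation ℂ G V')
    (h : ∀ (W : Submodule ℂ V) (hW : MinInv ρ W),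
      finrank ℂ (invHom (subR ρ W hW.2.1) ρ) ≤ finrank ℂ (invHom (subR ρ W hW.2.1) σ)) :
    ∃ T : V →ₗ[ℂ] V', T ∈ invHom ρ σ ∧ Function.Injective T := by
  classical
  obtain ⟨T, hT, hmin⟩ : ∃ T : V →ₗ[ℂ] V', T ∈ invHom ρ σ ∧
      ∀ T' ∈ invHom ρ σ, finrank ℂ (LinearMap.ker T) ≤ finrank ℂ (LinearMap.ker T') := by
    have hex : ∃ n : ℕ, ∃ T : V →ₗ[ℂ] V', T ∈ invHom ρ σ ∧ finrank ℂ (LinearMap.ker T) = n :=
      ⟨_, 0, Submodule.zero_mem _, rfl⟩
    obtain ⟨T, hT, hn⟩ := Nat.find_spec hex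
    exact ⟨T, hT, fun T' hT' => hn ▸ Nat.find_min' hex ⟨T', hT', rfl⟩⟩
  refine ⟨T, hT, ?_⟩
  rw [← LinearMap.ker_eq_bot]
  by_contra hne
  have hK : Inv ρ (LinearMap.ker T) := by
    intro g v hv
    rw [LinearMap.mem_ker] at hv ⊢
    rw [hT g v, hv, map_zero]
  obtain ⟨W, hWK, hW⟩ := Pool.Agent.H93.Hup.exists_minInv ρ _ hK hne
  obtain ⟨C, hC, h1, h2⟩ := Pool.Agent.H93.Hup.exists_compl ρ _ hK
  obtain ⟨ψ, hψ, w0, hw0⟩ : ∃ ψ ∈ invHom (subR ρ W hW.2.1) σ, ∃ w, ψ w ∉ LinearMap.range T := by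
    by_contra hcon
    push Not at hcon
    exact absurd (h W hW) (not_le.2 (comp_emb ρ σ T hT C hC h1 h2 W hW hWK hcon))
  -- `ψ w` in the range of `T` only for `w = 0`
  have hz : ∀ w : W, ψ w ∈ LinearMap.range T → w = 0 := by
    let W0 : Submodule ℂ V := ((LinearMap.range T).comap ψ).map W.subtype
    have hW0 : Inv ρ W0 := by
      rintro g v ⟨w, hw, rfl⟩
      refine ⟨subR ρ W hW.2.1 g w, ?_, rfl⟩
      change ψ (subR ρ W hW.2.1 g w) ∈ LinearMap.range T
      obtain ⟨x, hx⟩ := hw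
      exact ⟨ρ g x, by rw [hT g x, hx, hψ g w]⟩
    have hle : W0 ≤ W := by
      rintro v ⟨w, _, rfl⟩
      exact w.2
    have hbot : W0 = ⊥ := by
      by_contra hb
      have h3 := hW.2.2 W0 hW0 hle hb
      have h4 : (w0 : V) ∈ W0 := by rw [h3]; exact w0.2
      obtain ⟨w, hw, hww⟩ := h4
      have h5 : w = w0 := Subtype.ext hww
      exact hw0 (h5 ▸ hw)
    intro w hw
    have h3 : (w : V) ∈ W0 := ⟨w, hw, rfl⟩
    rw [hbot, Submodule.mem_bot] at h3
    exact Subtype.ext h3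
  obtain ⟨D, hD, h3, h4⟩ := Pool.Agent.H93.Hup.exists_compl ρ W hW.2.1
  have hcompl : IsCompl W D := ⟨disjoint_iff.2 h3, codisjoint_iff.2 h4⟩
  let p : V →ₗ[ℂ] W := W.projectionOnto D hcompl
  have hp1 : ∀ w : W, p w = w := fun w => Submodule.projectionOnto_apply_left hcompl w
  have hp2 : ∀ d ∈ D, p d = 0 := fun d hd => Submodule.projectionOnto_apply_of_mem_right hcompl hd
  have hp : ∀ g x, p (ρ g x) = subR ρ W hW.2.1 g (p x) := by
    intro g x
    have hx : x ∈ W ⊔ D := by rw [h4]; trivial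
    obtain ⟨w, hw, d, hd, rfl⟩ := Submodule.mem_sup.1 hx
    have e1 : p (w + d) = ⟨w, hw⟩ := by
      rw [map_add, hp2 d hd, add_zero]
      exact hp1 ⟨w, hw⟩
    rw [e1, map_add, map_add, hp2 _ (hD g d hd), add_zero]
    exact hp1 ⟨ρ g w, hW.2.1 g w hw⟩
  have hT' : T + ψ.comp p ∈ invHom ρ σ := by
    refine Submodule.add_mem _ hT fun g x => ?_
    rw [LinearMap.comp_apply, LinearMap.comp_apply, hp g x, hψ g (p x)]
  have hker : ∀ x, (T + ψ.comp p) x = 0 → T x = 0 ∧ p x = 0 := by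
    intro x hx
    rw [LinearMap.add_apply, LinearMap.comp_apply] at hx
    have h5 : p x = 0 := hz _ ⟨-x, by rw [map_neg]; exact neg_eq_of_add_eq_zero_right hx⟩
    rw [h5, map_zero, add_zero] at hx
    exact ⟨hx, h5⟩
  have hlt : LinearMap.ker (T + ψ.comp p) < LinearMap.ker T := by
    refine lt_of_le_of_ne (fun x hx => (hker x hx).1) fun heq => ?_
    apply hW.1
    rw [eq_bot_iff]
    intro w hw
    have h5 : w ∈ LinearMap.ker (T + ψ.comp p) := by rw [heq]; exact hWK hw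
    have h6 := (hker w h5).2
    have h7 : p w = ⟨w, hw⟩ := hp1 ⟨w, hw⟩
    rw [h7] at h6
    exact (Submodule.mem_bot ℂ).2 (congrArg Subtype.val h6)
  exact absurd (hmin _ hT') (not_le.2 (Submodule.finrank_lt_finrank_of_lt hlt))

end Pool.Agent.H52.VC
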