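import Pool.Agent.H52.VC.Defs

set_option autoImplicit false

/-!
PROJECT VC (MP_bf82d2_ag), module Frb.
Frobenius reciprocity for the space of vanishing cycles.
PROOF. `T ↦ (w ↦ (T w) 1)`, a linear form on `V`, that is `inner u ·` for a unique `u = u_T ∈ V`; `T` is determined by it
(`(T w) x = (T (ρ x⁻¹ w)) 1`).  `T w ∈ RC` gives: `inner u (ρ a w) = inner u w`, so `ρ a u = u`;
`∑ h ∈ H, inner u (ρ h⁻¹ w) = 0`, so `u` is orthogonal to `V^H` (take `w ∈ V^H`), the same for `H'`.  So `T ↦ u_T` is a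
(conjugate linear) injection of `invHom` into `fixS (ρ a) ⊓ (V^H ⊔ V^H')^⊥`.  As `V^H ⊔ V^H' ≤ fixS (ρ a)`
(`a ∈ H`, `a ∈ H'`), the dimension is `dim fixS (ρ a) - dim V^H - dim V^H' + dim (V^H ⊓ V^H')`, and `V^H ⊓ V^H' = V^G`
(`H ⊔ H' = ⊤`).  (Or with the dual space of `V` instead of the inner product.)
-/

namespace Pool.Agent.H52.VC

open Finset Module
open Pool.Agent.H93.Hup (Inv MinInv)
open Pool.Agent.H82.CO (chi quadInv)

private theorem inf_frb {G : Type} [Group G] {V : Type} [AddCommGroup V] [Module ℂ V] (ρ : Representation ℂ G V)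
    (H H' : Subgroup G) (hHH : H ⊔ H' = ⊤) : fixG ρ H ⊓ fixG ρ H' = fixG ρ ⊤ := by
  ext v
  rw [Submodule.mem_inf, mem_fixG, mem_fixG, mem_fixG]
  constructor
  · rintro ⟨h1, h2⟩ g hg
    let S : Subgroup G :=
      { carrier := {g | ρ g v = v}
        one_mem' := by
          show ρ 1 v = v
          rw [map_one]
          rfl
        mul_mem' := by
          intro x y hx hy
          show ρ (x * y) v = v
          rw [map_mul]
          show ρ x (ρ y v) = v
          rw [show ρ y v = v from hy, show ρ x v = v from hx]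
        inv_mem' := by
          intro x hx
          show ρ x⁻¹ v = v
          have h4 : ρ x⁻¹ (ρ x v) = v := Representation.inv_self_apply ρ x v
          rwa [show ρ x v = v from hx] at h4 }
    have h3 : H ⊔ H' ≤ S := sup_le h1 h2
    rw [hHH] at h3
    exact h3 hg
  · intro h
    exact ⟨fun g _ => h g (Subgroup.mem_top g), fun g _ => h g (Subgroup.mem_top g)⟩

section

variable {G : Type} [Group G] [Fintype G] {V : Type} [AddCommGroup V] [Module ℂ V]

/-- the linear form of a `G`-map -/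
private def form_frb (ρ : Representation ℂ G V) (a : G) (H H' : Subgroup G) :
    invHom ρ (subR lam (RC a H H') (inv_RC a H H')) →ₗ[ℂ] Dual ℂ (fixS (ρ a)) where
  toFun T :=
    { toFun := fun w => (((T : V →ₗ[ℂ] RC a H H') (w : V) : RC a H H') : G → ℂ) 1
      map_add' := by
        intro x y
        rw [Submodule.coe_add, map_add]
        rfl
      map_smul' := by
        intro c x
        rw [Submodule.coe_smul, map_smul]
        rfl }
  map_add' := fun _ _ => rfl
  map_smul' := fun _ _ => rfl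

private theorem form_apply_frb (ρ : Representation ℂ G V) (a : G) (H H' : Subgroup G)
    (T : invHom ρ (subR lam (RC a H H') (inv_RC a H H'))) (w : fixS (ρ a)) :
    form_frb ρ a H H' T w = (((T : V →ₗ[ℂ] RC a H H') (w : V) : RC a H H') : G → ℂ) 1 := rfl

private theorem val_frb (ρ : Representation ℂ G V) (a : G) (H H' : Subgroup G)
    (T : invHom ρ (subR lam (RC a H H') (inv_RC a H H'))) (w : V) (y : G) :
    (((T : V →ₗ[ℂ] RC a H H') (ρ y⁻¹ w) : RC a H H') : G → ℂ) 1 =
      (((T : V →ₗ[ℂ] RC a H H') w : RC a H H') : G → ℂ) y := by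
  have h1 := T.2 y⁻¹ w
  have h2 : (((T : V →ₗ[ℂ] RC a H H') (ρ y⁻¹ w) : RC a H H') : G → ℂ) =
      lam y⁻¹ (((T : V →ₗ[ℂ] RC a H H') w : RC a H H') : G → ℂ) := by
    rw [h1]
    rfl
  rw [h2, lam_apply, inv_inv, mul_one]

private theorem zero_frb (ρ : Representation ℂ G V) (a : G) (H H' : Subgroup G)
    (T : invHom ρ (subR lam (RC a H H') (inv_RC a H H'))) (w : V)
    (hw : w ∈ fixG ρ H ∨ w ∈ fixG ρ H') :
    (((T : V →ₗ[ℂ] RC a H H') w : RC a H H') : G → ℂ) 1 = 0 := by
  classical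
  have hR := ((T : V →ₗ[ℂ] RC a H H') w : RC a H H').2
  have key : ∀ K : Subgroup G, w ∈ fixG ρ K →
      (∑ h : K, (((T : V →ₗ[ℂ] RC a H H') w : RC a H H') : G → ℂ) (1 * h)) = 0 →
      (((T : V →ₗ[ℂ] RC a H H') w : RC a H H') : G → ℂ) 1 = 0 := by
    intro K hK hs
    have h1 : ∀ h : K, (((T : V →ₗ[ℂ] RC a H H') w : RC a H H') : G → ℂ) (1 * h) =
        (((T : V →ₗ[ℂ] RC a H H') w : RC a H H') : G → ℂ) 1 := by
      intro h
      rw [one_mul, ← val_frb ρ a H H' T w h, hK (h : G)⁻¹ (K.inv_mem h.2)]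
    rw [sum_congr rfl fun h _ => h1 h, sum_const, smul_eq_zero] at hs
    rcases hs with h2 | h2
    · exfalso
      rw [card_univ, Fintype.card_eq_zero_iff] at h2
      exact h2.false (1 : K)
    · exact h2
  rcases hw with hw | hw
  · exact key H hw (hR.2.1 1)
  · exact key H' hw (hR.2.2 1)

private theorem pow_frb (ρ : Representation ℂ G V) (a : G) (H H' : Subgroup G)
    (T : invHom ρ (subR lam (RC a H H') (inv_RC a H H'))) (w : V) (k : ℕ) :
    (((T : V →ₗ[ℂ] RC a H H') (ρ (a ^ k) w) : RC a H H') : G → ℂ) 1 =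
      (((T : V →ₗ[ℂ] RC a H H') w : RC a H H') : G → ℂ) 1 := by
  have h1 : ∀ w : V, (((T : V →ₗ[ℂ] RC a H H') (ρ a w) : RC a H H') : G → ℂ) 1 =
      (((T : V →ₗ[ℂ] RC a H H') w : RC a H H') : G → ℂ) 1 := by
    intro w
    have h2 := val_frb ρ a H H' T w a⁻¹
    rw [inv_inv] at h2
    rw [h2]
    have h3 := (((T : V →ₗ[ℂ] RC a H H') w : RC a H H').2).1 a⁻¹
    rw [inv_mul_cancel] at h3
    exact h3.symm
  induction k with
  | zero =>
    rw [pow_zero, map_one]
    rfl
  | succ k ih =>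
    rw [pow_succ', map_mul]
    show (((T : V →ₗ[ℂ] RC a H H') (ρ a (ρ (a ^ k) w)) : RC a H H') : G → ℂ) 1 = _
    rw [h1, ih]

private theorem sum_frb (ρ : Representation ℂ G V) (a : G) (H H' : Subgroup G)
    (T : invHom ρ (subR lam (RC a H H') (inv_RC a H H'))) (w : V) :
    (((T : V →ₗ[ℂ] RC a H H') (∑ k ∈ range (Fintype.card G), ρ (a ^ k) w) : RC a H H') : G → ℂ) 1 =
      Fintype.card G • (((T : V →ₗ[ℂ] RC a H H') w : RC a H H') : G → ℂ) 1 := by
  rw [map_sum, Submodule.coe_sum, Finset.sum_apply, sum_congr rfl fun k _ => pow_frb ρ a H H' T w k, sum_const,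
    card_range]

private theorem inj_frb (ρ : Representation ℂ G V) (a : G) (H H' : Subgroup G) :
    Function.Injective (form_frb ρ a H H') := by
  intro S T hST
  have h3 : ∀ w : V, (((S : V →ₗ[ℂ] RC a H H') w : RC a H H') : G → ℂ) 1 =
      (((T : V →ₗ[ℂ] RC a H H') w : RC a H H') : G → ℂ) 1 := by
    intro w
    have hfix : (∑ k ∈ range (Fintype.card G), ρ (a ^ k) w) ∈ fixS (ρ a) := by
      rw [mem_fixS, map_sum]
      have h4 : ∀ k ∈ range (Fintype.card G), ρ a (ρ (a ^ k) w) = ρ (a ^ (k + 1)) w := by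
        intro k _
        rw [pow_succ', map_mul]
        rfl
      rw [sum_congr rfl h4]
      have h5 := sum_range_succ' (fun k => ρ (a ^ k) w) (Fintype.card G)
      rw [sum_range_succ, pow_card_eq_one, pow_zero] at h5
      exact (add_right_cancel h5).symm
    have h6 : form_frb ρ a H H' S ⟨_, hfix⟩ = form_frb ρ a H H' T ⟨_, hfix⟩ := by
      rw [hST]
    rw [form_apply_frb, form_apply_frb, sum_frb, sum_frb] at h6
    rw [nsmul_eq_mul, nsmul_eq_mul] at h6
    exact mul_left_cancel₀ (Nat.cast_ne_zero.2 Fintype.card_ne_zero) h6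
  apply Subtype.ext
  refine LinearMap.ext fun w => ?_
  apply Subtype.ext
  funext y
  rw [← val_frb ρ a H H' S w y, ← val_frb ρ a H H' T w y, h3]

end

theorem frob {G : Type} [Group G] [Fintype G] {V : Type} [NormedAddCommGroup V] [InnerProductSpace ℂ V] [FiniteDimensional ℂ V]
    (ρ : Representation ℂ G V) (hρ : ∀ g, IsU (ρ g)) (a : G) (H H' : Subgroup G) (ha : a ∈ H) (ha' : a ∈ H')
    (hHH : H ⊔ H' = ⊤) :
    finrank ℂ (invHom ρ (subR lam (RC a H H') (inv_RC a H H'))) + finrank ℂ (fixG ρ H) + finrank ℂ (fixG ρ H') ≤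
      finrank ℂ (fixS (ρ a)) + finrank ℂ (fixG ρ ⊤) := by
  have hle : fixG ρ H ⊔ fixG ρ H' ≤ fixS (ρ a) := sup_le (fun v hv => hv a ha) (fun v hv => hv a ha')
  have h1 := Submodule.finrank_sup_add_finrank_inf_eq (fixG ρ H) (fixG ρ H')
  rw [inf_frb ρ H H' hHH] at h1
  have h2 : finrank ℂ ((fixG ρ H ⊔ fixG ρ H').comap (fixS (ρ a)).subtype) =
      finrank ℂ (fixG ρ H ⊔ fixG ρ H' : Submodule ℂ V) := (Submodule.comapSubtypeEquivOfLe hle).finrank_eq
  have h3 := Subspace.finrank_add_finrank_dualAnnihilator_eq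
    ((fixG ρ H ⊔ fixG ρ H').comap (fixS (ρ a)).subtype)
  have h4 : ∀ T, form_frb ρ a H H' T ∈
      ((fixG ρ H ⊔ fixG ρ H').comap (fixS (ρ a)).subtype).dualAnnihilator := by
    intro T
    rw [Submodule.mem_dualAnnihilator]
    intro w hw
    rw [form_apply_frb]
    obtain ⟨x, hx, y, hy, hxy⟩ := Submodule.mem_sup.1 (Submodule.mem_comap.1 hw)
    have h5 : (w : V) = x + y := hxy.symm
    rw [h5, map_add]
    show (((T : V →ₗ[ℂ] RC a H H') x : RC a H H') : G → ℂ) 1 +
      (((T : V →ₗ[ℂ] RC a H H') y : RC a H H') : G → ℂ) 1 = 0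
    rw [zero_frb ρ a H H' T x (Or.inl hx), zero_frb ρ a H H' T y (Or.inr hy), add_zero]
  have h6 := LinearMap.finrank_le_finrank_of_injective
    (f := (form_frb ρ a H H').codRestrict _ h4) (by
      intro S T hST
      exact inj_frb ρ a H H' (congrArg Subtype.val hST))
  omega

end Pool.Agent.H52.VC
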