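import Pool.Agent.H52.VC.Irr

set_option autoImplicit false

/-!
PROJECT VC (MP_bf82d2_ag), module Frm.
Invariant symmetric forms on a space of functions which is stable under complex conjugation.
PROOF. `b f k = ∑ x, f x * k x` is a symmetric invariant form on `M`; for a subspace `R ≤ M` stable under conjugation
`R ⊓ R^⊥ = 0` (`b f (conj f) = ∑ |f x|² > 0`), so `M = R ⊕ (R^⊥ ⊓ M)` with `R^⊥ ⊓ M` again invariant and stable under
conjugation.  Induction on `dim M`: `M ≠ 0` contains a minimal invariant `W`, `R = W ⊔ conj W` is invariant and stable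
under conjugation, `dim R ≤ 2 dim W ≤ 2 sqrt n` (`minInv_sq`).  (Not needed: minimality of `R`.)  `dim symInv M ≥
dim symInv (R^⊥ ⊓ M) + 1`: extend the forms by `0` on `R` (compose with the invariant projection), and `b (π_R x) (π_R y)`
is one more, independent one (it is not `0` on `R`).
-/

namespace Pool.Agent.H52.VC

open Finset Module
open Pool.Agent.H93.Hup (Inv MinInv)
open Pool.Agent.H82.CO (chi quadInv)

section

variable {G : Type} [Group G] [Fintype G]

/-- complex conjugation of functions -/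
private noncomputable def cj_frm (f : G → ℂ) : G → ℂ := fun x => (starRingEnd ℂ) (f x)

private theorem cj_cj_frm (f : G → ℂ) : cj_frm (cj_frm f) = f := by
  funext x
  exact Complex.conj_conj (f x)

private theorem cj_add_frm (f k : G → ℂ) : cj_frm (f + k) = cj_frm f + cj_frm k := by
  funext x
  exact map_add (starRingEnd ℂ) (f x) (k x)

private theorem cj_smul_frm (c : ℂ) (f : G → ℂ) :
    cj_frm (c • f) = (starRingEnd ℂ) c • cj_frm f := by
  funext x
  exact map_mul (starRingEnd ℂ) c (f x)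

/-- the symmetric form -/
private noncomputable def bf_frm : (G → ℂ) →ₗ[ℂ] (G → ℂ) →ₗ[ℂ] ℂ :=
  LinearMap.mk₂ ℂ (fun f k => ∑ x, f x * k x)
    (fun f f' k => by
      simp only [Pi.add_apply, add_mul, sum_add_distrib])
    (fun c f k => by
      simp only [Pi.smul_apply, smul_eq_mul, mul_sum, mul_assoc])
    (fun f k k' => by
      simp only [Pi.add_apply, mul_add, sum_add_distrib])
    (fun c f k => by
      simp only [Pi.smul_apply, smul_eq_mul, mul_sum]
      exact sum_congr rfl fun x _ => by ring)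

private theorem bf_apply_frm (f k : G → ℂ) : bf_frm f k = ∑ x, f x * k x := rfl

private theorem bf_symm_frm (f k : G → ℂ) : bf_frm f k = bf_frm k f := by
  rw [bf_apply_frm, bf_apply_frm]
  exact sum_congr rfl fun x _ => mul_comm _ _

private theorem bf_lam_frm (g : G) (f k : G → ℂ) : bf_frm (lam g f) (lam g k) = bf_frm f k := by
  rw [bf_apply_frm, bf_apply_frm]
  exact Equiv.sum_comp (Equiv.mulLeft g⁻¹) (fun x => f x * k x)

private theorem bf_pos_frm (f : G → ℂ) (h : bf_frm f (cj_frm f) = 0) : f = 0 := by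
  rw [bf_apply_frm] at h
  have h1 : ∑ x, Complex.normSq (f x) = 0 := by
    have h2 : ((∑ x, Complex.normSq (f x) : ℝ) : ℂ) = 0 := by
      rw [Complex.ofReal_sum, ← h]
      exact sum_congr rfl fun x _ => (Complex.mul_conj (f x)).symm
    exact_mod_cast h2
  rw [sum_eq_zero_iff_of_nonneg (fun x _ => Complex.normSq_nonneg (f x))] at h1
  funext x
  exact Complex.normSq_eq_zero.mp (h1 x (mem_univ x))

private theorem bf_cj_frm (f k : G → ℂ) :
    bf_frm (cj_frm f) k = (starRingEnd ℂ) (bf_frm f (cj_frm k)) := by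
  rw [bf_apply_frm, bf_apply_frm, map_sum]
  refine sum_congr rfl fun x _ => ?_
  rw [map_mul]
  show (starRingEnd ℂ) (f x) * k x = (starRingEnd ℂ) (f x) * (starRingEnd ℂ) ((starRingEnd ℂ) (k x))
  rw [Complex.conj_conj]

/-- the conjugate subspace -/
private noncomputable def cs_frm (W : Submodule ℂ (G → ℂ)) : Submodule ℂ (G → ℂ) where
  carrier := {f | cj_frm f ∈ W}
  add_mem' := by
    intro f k hf hk
    show cj_frm (f + k) ∈ W
    rw [cj_add_frm]
    exact W.add_mem hf hk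
  zero_mem' := by
    show cj_frm 0 ∈ W
    have h : cj_frm (0 : G → ℂ) = 0 := by
      funext x
      exact map_zero (starRingEnd ℂ)
    rw [h]
    exact W.zero_mem
  smul_mem' := by
    intro c f hf
    show cj_frm (c • f) ∈ W
    rw [cj_smul_frm]
    exact W.smul_mem _ hf

private theorem mem_cs_frm (W : Submodule ℂ (G → ℂ)) (f : G → ℂ) :
    f ∈ cs_frm W ↔ cj_frm f ∈ W := Iff.rfl

private theorem finrank_cs_frm (W : Submodule ℂ (G → ℂ)) :
    finrank ℂ (cs_frm W) ≤ finrank ℂ W := by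
  let b := finBasis ℂ W
  have hle : cs_frm W ≤ Submodule.span ℂ (Set.range fun i => cj_frm (b i : G → ℂ)) := by
    intro f hf
    have hf' : cj_frm f ∈ W := hf
    have h1 : (∑ i, b.repr ⟨cj_frm f, hf'⟩ i • (b i : G → ℂ)) = cj_frm f := by
      have h2 := congrArg Subtype.val (b.sum_repr ⟨cj_frm f, hf'⟩)
      rw [Submodule.coe_sum] at h2
      exact h2
    have h3 : f = ∑ i, (starRingEnd ℂ) (b.repr ⟨cj_frm f, hf'⟩ i) • cj_frm (b i : G → ℂ) := by
      have h4 : cj_frm (∑ i, b.repr ⟨cj_frm f, hf'⟩ i • (b i : G → ℂ)) = f := by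
        rw [h1, cj_cj_frm]
      conv_lhs => rw [← h4]
      funext x
      show (starRingEnd ℂ) ((∑ i, b.repr ⟨cj_frm f, hf'⟩ i • (b i : G → ℂ)) x) = _
      rw [Finset.sum_apply, map_sum, Finset.sum_apply]
      refine sum_congr rfl fun i _ => ?_
      exact map_mul (starRingEnd ℂ) _ _
    rw [h3]
    exact Submodule.sum_mem _ fun i _ => Submodule.smul_mem _ _
      (Submodule.subset_span ⟨i, rfl⟩)
  have h5 := Submodule.finrank_mono hle
  have h6 : finrank ℂ (Submodule.span ℂ (Set.range fun i => cj_frm (b i : G → ℂ))) ≤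
      Fintype.card (Fin (finrank ℂ W)) := finrank_range_le_card _
  rw [Fintype.card_fin] at h6
  exact h5.trans h6

/-- the part of `M` orthogonal to `R` -/
private noncomputable def or_frm (M R : Submodule ℂ (G → ℂ)) : Submodule ℂ (G → ℂ) where
  carrier := {f | f ∈ M ∧ ∀ r ∈ R, bf_frm f r = 0}
  add_mem' := by
    intro f k hf hk
    refine ⟨M.add_mem hf.1 hk.1, fun r hr => ?_⟩
    rw [map_add, LinearMap.add_apply, hf.2 r hr, hk.2 r hr, add_zero]
  zero_mem' := by
    refine ⟨M.zero_mem, fun r _ => ?_⟩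
    rw [map_zero, LinearMap.zero_apply]
  smul_mem' := by
    intro c f hf
    refine ⟨M.smul_mem c hf.1, fun r hr => ?_⟩
    rw [map_smul, LinearMap.smul_apply, hf.2 r hr, smul_zero]

private theorem mem_or_frm (M R : Submodule ℂ (G → ℂ)) (f : G → ℂ) :
    f ∈ or_frm M R ↔ f ∈ M ∧ ∀ r ∈ R, bf_frm f r = 0 := Iff.rfl

private theorem inv_or_frm (M R : Submodule ℂ (G → ℂ)) (hM : Inv (lam (G := G)) M)
    (hR : Inv (lam (G := G)) R) : Inv (lam (G := G)) (or_frm M R) := by
  intro g f hf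
  refine ⟨hM g f hf.1, fun r hr => ?_⟩
  have h1 : r = lam g (lam g⁻¹ r) := by
    rw [← Module.End.mul_apply, ← map_mul, mul_inv_cancel, map_one, Module.End.one_apply]
  rw [h1, bf_lam_frm]
  exact hf.2 _ (hR g⁻¹ r hr)

private theorem cj_or_frm (M R : Submodule ℂ (G → ℂ)) (hM : ∀ f ∈ M, cj_frm f ∈ M)
    (hR : ∀ f ∈ R, cj_frm f ∈ R) : ∀ f ∈ or_frm M R, cj_frm f ∈ or_frm M R := by
  intro f hf
  refine ⟨hM f hf.1, fun r hr => ?_⟩
  rw [bf_cj_frm, hf.2 _ (hR r hr), map_zero]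

private theorem inf_or_frm (M R : Submodule ℂ (G → ℂ)) (hR : ∀ f ∈ R, cj_frm f ∈ R) :
    R ⊓ or_frm M R = ⊥ := by
  rw [Submodule.eq_bot_iff]
  intro f hf
  exact bf_pos_frm f (hf.2.2 _ (hR f hf.1))

private theorem finrank_or_frm (M R : Submodule ℂ (G → ℂ)) :
    finrank ℂ M ≤ finrank ℂ (or_frm M R) + finrank ℂ R := by
  let φ : M →ₗ[ℂ] R →ₗ[ℂ] ℂ := bf_frm.domRestrict₁₂ M R
  have h1 := LinearMap.finrank_range_add_finrank_ker φ
  have h2 : finrank ℂ (LinearMap.range φ) ≤ finrank ℂ (R →ₗ[ℂ] ℂ) := Submodule.finrank_le _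
  have h3 : finrank ℂ (R →ₗ[ℂ] ℂ) = finrank ℂ R := Subspace.dual_finrank_eq
  have h4 : finrank ℂ (LinearMap.ker φ) ≤ finrank ℂ (or_frm M R) := by
    rw [← Submodule.finrank_map_subtype_eq M (LinearMap.ker φ)]
    apply Submodule.finrank_mono
    rintro f ⟨x, hx, rfl⟩
    refine ⟨x.2, fun r hr => ?_⟩
    have h5 : φ x = 0 := hx
    have h6 := LinearMap.congr_fun h5 ⟨r, hr⟩
    exact h6
  omega

private theorem sup_or_frm (M R : Submodule ℂ (G → ℂ)) (hle : R ≤ M)
    (hR : ∀ f ∈ R, cj_frm f ∈ R) : R ⊔ or_frm M R = M := by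
  apply Submodule.eq_of_le_of_finrank_le
  · exact sup_le hle fun f hf => hf.1
  · have h1 := finrank_or_frm M R
    have h2 := Submodule.finrank_sup_add_finrank_inf_eq R (or_frm M R)
    rw [inf_or_frm M R hR, finrank_bot] at h2
    omega

/-- the projection -/
private theorem proj_frm (M R : Submodule ℂ (G → ℂ)) (hle : R ≤ M)
    (hR : ∀ f ∈ R, cj_frm f ∈ R) : ∃ π : M →ₗ[ℂ] or_frm M R,
      (∀ x : M, (x : G → ℂ) ∈ R → π x = 0) ∧
      ∀ x : M, (x : G → ℂ) ∈ or_frm M R → (π x : G → ℂ) = x := by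
  have hcompl : IsCompl ((or_frm M R).comap M.subtype) (R.comap M.subtype) := by
    rw [isCompl_iff]
    constructor
    · rw [disjoint_iff, Submodule.eq_bot_iff]
      rintro x ⟨h1, h2⟩
      have h3 : (x : G → ℂ) ∈ R ⊓ or_frm M R := ⟨h2, h1⟩
      rw [inf_or_frm M R hR, Submodule.mem_bot] at h3
      exact Subtype.ext h3
    · rw [codisjoint_iff, eq_top_iff]
      intro x _
      have h1 : (x : G → ℂ) ∈ R ⊔ or_frm M R := by
        rw [sup_or_frm M R hle hR]
        exact x.2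
      obtain ⟨r, hr, m, hm, hx⟩ := Submodule.mem_sup.mp h1
      exact Submodule.mem_sup.mpr ⟨⟨m, hm.1⟩, hm, ⟨r, hle hr⟩, hr, Subtype.ext (by
        show m + r = (x : G → ℂ)
        rw [add_comm, hx])⟩
  refine ⟨((M.subtype.comp ((or_frm M R).comap M.subtype).subtype).codRestrict (or_frm M R)
    (fun x => x.2)).comp (((or_frm M R).comap M.subtype).projectionOnto
      (R.comap M.subtype) hcompl), ?_, ?_⟩
  · intro x hx
    rw [LinearMap.comp_apply, Submodule.projectionOnto_apply_of_mem_right hcompl hx, map_zero]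
  · intro x hx
    have h1 := Submodule.projectionOnto_apply_left hcompl ⟨x, hx⟩
    rw [LinearMap.comp_apply]
    have h2 : (((or_frm M R).comap M.subtype).projectionOnto (R.comap M.subtype) hcompl) x =
      ⟨x, hx⟩ := h1
    rw [h2]
    rfl

private theorem step_frm (M R : Submodule ℂ (G → ℂ)) (hM : Inv (lam (G := G)) M)
    (hR : Inv (lam (G := G)) R) (hle : R ≤ M) (hc : ∀ f ∈ R, cj_frm f ∈ R) (hne : R ≠ ⊥)
    (hM' : Inv (lam (G := G)) (or_frm M R)) :
    finrank ℂ (symInv (subR lam (or_frm M R) hM')) < finrank ℂ (symInv (subR lam M hM)) := by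
  obtain ⟨π, h1, h2⟩ := proj_frm M R hle hc
  have hdec : ∀ x : M, ∃ r m : M, (r : G → ℂ) ∈ R ∧ (m : G → ℂ) ∈ or_frm M R ∧ x = r + m := by
    intro x
    have h3 : (x : G → ℂ) ∈ R ⊔ or_frm M R := by
      rw [sup_or_frm M R hle hc]
      exact x.2
    obtain ⟨r, hr, m, hm, hx⟩ := Submodule.mem_sup.mp h3
    exact ⟨⟨r, hle hr⟩, ⟨m, hm.1⟩, hr, hm, Subtype.ext hx.symm⟩
  have hg : ∀ (g : G) (x : M), π (subR lam M hM g x) = subR lam (or_frm M R) hM' g (π x) := by
    intro g x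
    obtain ⟨r, m, hr, hm, rfl⟩ := hdec x
    rw [map_add, map_add, map_add, map_add, h1 r hr, map_zero, zero_add,
      h1 _ (by rw [subR_apply]; exact hR g _ hr), zero_add]
    apply Subtype.ext
    rw [h2 _ (by rw [subR_apply]; exact hM' g _ hm), subR_apply, subR_apply, h2 m hm]
  let E : ((or_frm M R) →ₗ[ℂ] (or_frm M R) →ₗ[ℂ] ℂ) →ₗ[ℂ] (M →ₗ[ℂ] M →ₗ[ℂ] ℂ) :=
    { toFun := fun b => b.compl₁₂ π π
      map_add' := fun b c => rfl
      map_smul' := fun a b => rfl }
  have hE : ∀ b x y, E b x y = b (π x) (π y) := fun b x y => rfl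
  have hinj : Function.Injective E := by
    intro b c hbc
    refine LinearMap.ext fun y => LinearMap.ext fun z => ?_
    have h3 : E b ⟨y, y.2.1⟩ ⟨z, z.2.1⟩ = E c ⟨y, y.2.1⟩ ⟨z, z.2.1⟩ := by rw [hbc]
    rw [hE, hE] at h3
    have h4 : ∀ y : or_frm M R, π ⟨y, y.2.1⟩ = y := fun y => Subtype.ext (h2 ⟨y, y.2.1⟩ y.2)
    rw [h4 y, h4 z] at h3
    exact h3
  have h5 : finrank ℂ (symInv (subR lam (or_frm M R) hM')) =
      finrank ℂ ((symInv (subR lam (or_frm M R) hM')).map E) :=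
    (Submodule.equivMapOfInjective E hinj _).finrank_eq
  rw [h5]
  apply Submodule.finrank_lt_finrank_of_lt
  refine lt_of_le_of_ne ?_ ?_
  · rintro _ ⟨b, hb, rfl⟩
    rw [mem_symInv]
    refine ⟨fun x y => ?_, fun g x y => ?_⟩
    · rw [hE, hE]
      exact hb.1 _ _
    · rw [hE, hE, hg, hg]
      exact hb.2 g _ _
  · intro heq
    have h6 : (bf_frm (G := G)).domRestrict₁₂ M M ∈ symInv (subR lam M hM) := by
      rw [mem_symInv]
      refine ⟨fun x y => ?_, fun g x y => ?_⟩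
      · exact bf_symm_frm (x : G → ℂ) y
      · exact bf_lam_frm g (x : G → ℂ) y
    rw [← heq] at h6
    obtain ⟨b, hb, hbe⟩ := h6
    obtain ⟨r, hr, hr0⟩ := (Submodule.ne_bot_iff R).mp hne
    apply hr0
    apply bf_pos_frm
    have h7 : E b ⟨r, hle hr⟩ ⟨cj_frm r, hle (hc r hr)⟩ = bf_frm r (cj_frm r) := by
      rw [hbe]
      rfl
    rw [← h7, hE, h1 _ hr, map_zero, LinearMap.zero_apply]

private theorem main_frm (β : ℝ) (hβ0 : 0 ≤ β)
    (hβ : ∀ W : Submodule ℂ (G → ℂ), MinInv (lam (G := G)) W → (finrank ℂ W : ℝ) ≤ β) (m : ℕ) :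
    ∀ (M : Submodule ℂ (G → ℂ)) (hM : Inv (lam (G := G)) M),
    finrank ℂ M = m → (∀ f ∈ M, cj_frm f ∈ M) →
    (finrank ℂ M : ℝ) ≤ 2 * β * finrank ℂ (symInv (subR lam M hM)) := by
  induction m using Nat.strong_induction_on with
  | _ m ih =>
    intro M hM hm hc
    by_cases hb : M = ⊥
    · have h1 : finrank ℂ M = 0 := by rw [hb, finrank_bot]
      rw [h1, Nat.cast_zero]
      positivity
    obtain ⟨W, hW, hmin⟩ := Pool.Agent.H93.Hup.exists_minInv lam M hM hb
    have hcsM : cs_frm W ≤ M := by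
      intro f hf
      have h1 := hc _ (hW hf)
      rw [cj_cj_frm] at h1
      exact h1
    have hRM : W ⊔ cs_frm W ≤ M := sup_le hW hcsM
    have hRc : ∀ f ∈ W ⊔ cs_frm W, cj_frm f ∈ W ⊔ cs_frm W := by
      intro f hf
      obtain ⟨w, hw, w', hw', rfl⟩ := Submodule.mem_sup.mp hf
      rw [cj_add_frm, add_comm]
      refine Submodule.mem_sup.mpr ⟨cj_frm w', hw', cj_frm w, ?_, rfl⟩
      rw [mem_cs_frm, cj_cj_frm]
      exact hw
    have hRi : Inv (lam (G := G)) (W ⊔ cs_frm W) := by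
      intro g f hf
      obtain ⟨w, hw, w', hw', rfl⟩ := Submodule.mem_sup.mp hf
      rw [map_add]
      exact Submodule.mem_sup.mpr ⟨lam g w, hmin.2.1 g w hw, lam g w', hmin.2.1 g _ hw', rfl⟩
    have hRne : W ⊔ cs_frm W ≠ ⊥ := by
      intro h
      apply hmin.1
      rw [eq_bot_iff, ← h]
      exact le_sup_left
    have hM' := inv_or_frm M (W ⊔ cs_frm W) hM hRi
    have hstep := step_frm M (W ⊔ cs_frm W) hM hRi hRM hRc hRne hM'
    have hdim := finrank_or_frm M (W ⊔ cs_frm W)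
    have hlt : finrank ℂ (or_frm M (W ⊔ cs_frm W)) < m := by
      have h2 := Submodule.finrank_sup_add_finrank_inf_eq (W ⊔ cs_frm W)
        (or_frm M (W ⊔ cs_frm W))
      rw [inf_or_frm M _ hRc, finrank_bot, sup_or_frm M _ hRM hRc] at h2
      have h3 : 0 < finrank ℂ (W ⊔ cs_frm W : Submodule ℂ (G → ℂ)) := by
        rw [Nat.pos_iff_ne_zero]
        intro h
        exact hRne (Submodule.finrank_eq_zero.mp h)
      omega
    have hind := ih _ hlt (or_frm M (W ⊔ cs_frm W)) hM' rfl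
      (cj_or_frm M _ hc hRc)
    have hR2 : finrank ℂ (W ⊔ cs_frm W : Submodule ℂ (G → ℂ)) ≤ 2 * finrank ℂ W := by
      have h4 := Submodule.finrank_add_le_finrank_add_finrank W (cs_frm W)
      have h5 := finrank_cs_frm W
      omega
    have hWs : (finrank ℂ W : ℝ) ≤ β := hβ W hmin
    have h6 : (finrank ℂ M : ℝ) ≤ finrank ℂ (or_frm M (W ⊔ cs_frm W)) + 2 * finrank ℂ W := by
      exact_mod_cast hdim.trans (Nat.add_le_add_left hR2 _)
    have h7 : (finrank ℂ (symInv (subR lam (or_frm M (W ⊔ cs_frm W)) hM')) : ℝ) + 1 ≤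
        finrank ℂ (symInv (subR lam M hM)) := by
      exact_mod_cast hstep
    nlinarith [mul_le_mul_of_nonneg_left h7 hβ0]

end

theorem forms_ge_b {G : Type} [Group G] [Fintype G] (β : ℝ) (hβ0 : 0 ≤ β)
    (hβ : ∀ W : Submodule ℂ (G → ℂ), MinInv (lam (G := G)) W → (finrank ℂ W : ℝ) ≤ β)
    (M : Submodule ℂ (G → ℂ)) (hM : Inv (lam (G := G)) M)
    (hc : ∀ f ∈ M, (fun x => (starRingEnd ℂ) (f x)) ∈ M) :
    (finrank ℂ M : ℝ) ≤ 2 * β * finrank ℂ (symInv (subR lam M hM)) :=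
  main_frm β hβ0 hβ _ M hM rfl hc

theorem forms_ge {G : Type} [Group G] [Fintype G] (M : Submodule ℂ (G → ℂ)) (hM : Inv (lam (G := G)) M)
    (hc : ∀ f ∈ M, (fun x => (starRingEnd ℂ) (f x)) ∈ M) :
    (finrank ℂ M : ℝ) ≤ 2 * Real.sqrt (Nat.card G) * finrank ℂ (symInv (subR lam M hM)) :=
  forms_ge_b (Real.sqrt (Nat.card G)) (Real.sqrt_nonneg _) (fun W hW => by
    apply Real.le_sqrt_of_sq_le
    exact_mod_cast minInv_sq lam W hW) M hM hc

end Pool.Agent.H52.VC
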