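import Pool.Agent.H52.VC.Defs

set_option autoImplicit false

/-!
PROJECT VC (MP_bf82d2_ag), module Grp.
Group theory for `N = 4`.
PROOF. `a = s 0 * s 1`, `H = <s 0, s 1>`, `H' = <s 2, s 3>`, `a ∈ H`, `a ∈ H'`, `x = |H| / ord a`, `y = |H'| / ord a` integers.
If `x, y ≥ 2`, not both `2`: `1 - 1/x - 1/y ≥ 1/6`.  `x = y = 2`: `zpowers a` has index 2 in `H` and in `H'`, so it is normal
in `<H, H'> = G`, so `a = 1`, `|H| = |H'| = 2`, `H = <u>`, `H' = <v>`, `G = <u, v>`, `u² = v² = 1`, `<u v>` is normal, so
`u v = 1`, `u = v`, `G = <u>` cyclic and `≠ 1`: contradiction.  `x = 1`: `H` is cyclic, `s 0`, `s 1` commute; `y = 1`: `s 2`,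
`s 3` commute.  The same for `(s 1, s 2, s 3, s 0)`: if the second alternative fails too then `s 1`, `s 2` commute or `s 3`,
`s 0` commute.  In each of the four combinations one `s i` commutes with both its neighbours, so (the product of the four
is 1, and they generate `G`; the fourth is in the group generated by the other three) it is central: `zpowers (s i)` is
normal and `≠ 1`: contradiction.
-/

namespace Pool.Agent.H52.VC

open Finset Module
open Pool.Agent.H93.Hup (Inv MinInv)
open Pool.Agent.H82.CO (chi quadInv)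

/-- an element which commutes with generators is central, so its powers form a normal subgroup -/
private theorem central_grp {G : Type} [Group G] (S : Set G) (hg : Subgroup.closure S = ⊤) (c : G)
    (h : ∀ g ∈ S, c * g = g * c) : (Subgroup.zpowers c).Normal := by
  have hall : ∀ g : G, c * g = g * c := by
    intro g
    have hle : Subgroup.closure S ≤ Subgroup.centralizer {c} := by
      rw [Subgroup.closure_le]
      intro x hx
      show x ∈ Subgroup.centralizer {c}
      rw [Subgroup.mem_centralizer_singleton_iff]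
      exact (h x hx).symm
    have hgm : g ∈ Subgroup.centralizer {c} := hle (by rw [hg]; exact Subgroup.mem_top g)
    rw [Subgroup.mem_centralizer_singleton_iff] at hgm
    exact hgm.symm
  refine ⟨fun n hn g => ?_⟩
  obtain ⟨k, rfl⟩ := Subgroup.mem_zpowers_iff.mp hn
  have hck : Commute (c ^ k) g := (show Commute c g from hall g).zpow_left k
  have : g * c ^ k * g⁻¹ = c ^ k := by
    rw [← hck.eq]; group
  rw [this]
  exact hn

/-- conjugation criterion: a subgroup normalized by generators is normal -/
private theorem normal_grp {G : Type} [Group G] [Finite G] (K : Subgroup G) (S : Set G)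
    (hg : Subgroup.closure S = ⊤) (h : ∀ g ∈ S, ∀ x ∈ K, g * x * g⁻¹ ∈ K) : K.Normal := by
  have hle : Subgroup.closure S ≤ Subgroup.normalizer (K : Set G) := by
    rw [Subgroup.closure_le]
    intro g hgS
    show g ∈ Subgroup.normalizer (K : Set G)
    rw [Subgroup.mem_normalizer_iff]
    intro x
    constructor
    · intro hx; exact h g hgS x hx
    · intro hx
      -- conjugation by `g` maps `K` injectively into `K`, so onto
      have hfin : (K : Set G).Finite := Set.toFinite _
      have hmaps : Set.MapsTo (fun y => g * y * g⁻¹) (K : Set G) (K : Set G) := fun y hy => h g hgS y hy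
      have hinj : Set.InjOn (fun y => g * y * g⁻¹) (K : Set G) := by
        intro y _ z _ hyz
        simpa using hyz
      have hsurj : Set.SurjOn (fun y => g * y * g⁻¹) (K : Set G) (K : Set G) :=
        ((hfin.injOn_iff_bijOn_of_mapsTo hmaps).mp hinj).surjOn
      obtain ⟨y, hy, hyx⟩ := hsurj hx
      have : y = x := by simpa using hyx
      rw [← this]; exact hy
  have htop : Subgroup.normalizer (K : Set G) = ⊤ := by
    rw [eq_top_iff, ← hg]; exact hle
  exact Subgroup.normalizer_eq_top_iff.mp htop

/-- subgroups of index two are normal, relative form -/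
private theorem idx2_grp {G : Type} [Group G] [Finite G] (A B : Subgroup G) (hAB : A ≤ B)
    (hcard : Nat.card B = Nat.card A * 2) : ∀ g ∈ B, ∀ x ∈ A, g * x * g⁻¹ ∈ A := by
  have hidx : (A.subgroupOf B).index = 2 := by
    have hc1 : Nat.card (A.subgroupOf B) = Nat.card A :=
      Nat.card_congr (Subgroup.subgroupOfEquivOfLe hAB).toEquiv
    have h1 : Nat.card (A.subgroupOf B) * (A.subgroupOf B).index = Nat.card B :=
      Subgroup.card_mul_index _
    have hpos : 0 < Nat.card A := Nat.card_pos
    rw [hcard, hc1] at h1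
    exact Nat.eq_of_mul_eq_mul_left hpos h1
  have hn : (A.subgroupOf B).Normal := Subgroup.normal_of_index_eq_two hidx
  intro g hg x hx
  have h2 := hn.conj_mem ⟨x, hAB hx⟩ (by rw [Subgroup.mem_subgroupOf]; exact hx) ⟨g, hg⟩
  rw [Subgroup.mem_subgroupOf] at h2
  exact h2

/-- one of the two alternatives, or one of the two pairs commutes -/
private theorem half_grp {G : Type} [Group G] [Fintype G] (p q r t : G) (hprod : p * q * r * t = 1)
    (hg : Subgroup.closure ({p, q, r, t} : Set G) = ⊤)
    (hc : ∀ g : G, g ≠ 1 → ¬ (Subgroup.zpowers g).Normal) :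
    (1 / 6 : ℝ) ≤ 1 - (orderOf (p * q) : ℝ) / Nat.card (Subgroup.closure {p, q} : Subgroup G) -
        (orderOf (p * q) : ℝ) / Nat.card (Subgroup.closure {r, t} : Subgroup G) ∨
      p * q = q * p ∨ r * t = t * r := by
  have hrt : r * t = (p * q)⁻¹ := by
    have : p * q * (r * t) = 1 := by rw [← mul_assoc]; exact hprod
    exact (inv_eq_of_mul_eq_one_right this).symm
  have hpH : p ∈ Subgroup.closure ({p, q} : Set G) := Subgroup.subset_closure (by simp)
  have hqH : q ∈ Subgroup.closure ({p, q} : Set G) := Subgroup.subset_closure (by simp)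
  have hrK : r ∈ Subgroup.closure ({r, t} : Set G) := Subgroup.subset_closure (by simp)
  have htK : t ∈ Subgroup.closure ({r, t} : Set G) := Subgroup.subset_closure (by simp)
  have haH : Subgroup.zpowers (p * q) ≤ Subgroup.closure ({p, q} : Set G) := by
    rw [Subgroup.zpowers_le]; exact mul_mem hpH hqH
  have haK : Subgroup.zpowers (p * q) ≤ Subgroup.closure ({r, t} : Set G) := by
    rw [Subgroup.zpowers_le]
    have : (r * t)⁻¹ ∈ Subgroup.closure ({r, t} : Set G) := inv_mem (mul_mem hrK htK)
    rw [hrt, inv_inv] at this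
    exact this
  obtain ⟨x, hx⟩ : Nat.card (Subgroup.zpowers (p * q)) ∣ Nat.card (Subgroup.closure ({p, q} : Set G)) :=
    Subgroup.card_dvd_of_le haH
  obtain ⟨y, hy⟩ : Nat.card (Subgroup.zpowers (p * q)) ∣ Nat.card (Subgroup.closure ({r, t} : Set G)) :=
    Subgroup.card_dvd_of_le haK
  have hn : Nat.card (Subgroup.zpowers (p * q)) = orderOf (p * q) := Nat.card_zpowers _
  have hn0 : 0 < orderOf (p * q) := orderOf_pos _
  have hxpos : 0 < x := by
    rcases Nat.eq_zero_or_pos x with h | h
    · rw [h, mul_zero] at hx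
      have : 0 < Nat.card (Subgroup.closure ({p, q} : Set G)) := Nat.card_pos
      omega
    · exact h
  have hypos : 0 < y := by
    rcases Nat.eq_zero_or_pos y with h | h
    · rw [h, mul_zero] at hy
      have : 0 < Nat.card (Subgroup.closure ({r, t} : Set G)) := Nat.card_pos
      omega
    · exact h
  by_cases hx1 : x = 1
  · right; left
    rw [hx1, mul_one] at hx
    have heq : Subgroup.zpowers (p * q) = Subgroup.closure ({p, q} : Set G) :=
      Subgroup.eq_of_le_of_card_ge haH hx.le
    rw [← heq] at hpH hqH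
    obtain ⟨i, hi⟩ := Subgroup.mem_zpowers_iff.mp hpH
    obtain ⟨j, hj⟩ := Subgroup.mem_zpowers_iff.mp hqH
    have hcom := (Commute.refl (p * q)).zpow_zpow i j
    rw [hi, hj] at hcom
    exact hcom
  by_cases hy1 : y = 1
  · right; right
    rw [hy1, mul_one] at hy
    have heq : Subgroup.zpowers (p * q) = Subgroup.closure ({r, t} : Set G) :=
      Subgroup.eq_of_le_of_card_ge haK hy.le
    rw [← heq] at hrK htK
    obtain ⟨i, hi⟩ := Subgroup.mem_zpowers_iff.mp hrK
    obtain ⟨j, hj⟩ := Subgroup.mem_zpowers_iff.mp htK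
    rw [← hi, ← hj]
    exact (Commute.refl (p * q)).zpow_zpow i j
  by_cases h22 : x = 2 ∧ y = 2
  · right; left
    obtain ⟨h2, h3⟩ := h22
    rw [h2] at hx
    rw [h3] at hy
    have hnorm : (Subgroup.zpowers (p * q)).Normal := by
      refine normal_grp (Subgroup.zpowers (p * q)) ({p, q, r, t} : Set G) hg ?_
      intro g hgS z hz
      rcases hgS with h | h | h | h
      · rw [h]; exact idx2_grp _ _ haH hx p hpH z hz
      · rw [h]; exact idx2_grp _ _ haH hx q hqH z hz
      · rw [h]; exact idx2_grp _ _ haK hy r hrK z hz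
      · rw [Set.mem_singleton_iff.mp h]; exact idx2_grp _ _ haK hy t htK z hz
    have ha1 : p * q = 1 := by
      by_contra hne
      exact hc _ hne hnorm
    have hq : q = p⁻¹ := (inv_eq_of_mul_eq_one_right ha1).symm
    rw [hq]; simp
  · left
    have hnR : (0 : ℝ) < (orderOf (p * q) : ℝ) := by exact_mod_cast hn0
    have hcH : (Nat.card (Subgroup.closure ({p, q} : Set G)) : ℝ) = (orderOf (p * q) : ℝ) * x := by
      rw [hx, hn]; push_cast; ring
    have hcK : (Nat.card (Subgroup.closure ({r, t} : Set G)) : ℝ) = (orderOf (p * q) : ℝ) * y := by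
      rw [hy, hn]; push_cast; ring
    have hxR : (0 : ℝ) < x := by exact_mod_cast hxpos
    have hyR : (0 : ℝ) < y := by exact_mod_cast hypos
    have e1 : (orderOf (p * q) : ℝ) / (Nat.card (Subgroup.closure ({p, q} : Set G)) : ℝ) = 1 / x := by
      rw [hcH]; field_simp
    have e2 : (orderOf (p * q) : ℝ) / (Nat.card (Subgroup.closure ({r, t} : Set G)) : ℝ) = 1 / y := by
      rw [hcK]; field_simp
    rw [e1, e2]
    have key : ∀ u v : ℕ, 2 ≤ u → 3 ≤ v → (1 : ℝ) / u + 1 / v ≤ 5 / 6 := by
      intro u v hu hv
      have hu' : (2 : ℝ) ≤ u := by exact_mod_cast hu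
      have hv' : (3 : ℝ) ≤ v := by exact_mod_cast hv
      have h1 : (1 : ℝ) / u ≤ 1 / 2 := one_div_le_one_div_of_le (by norm_num) hu'
      have h2 : (1 : ℝ) / v ≤ 1 / 3 := one_div_le_one_div_of_le (by norm_num) hv'
      linarith
    rcases Nat.lt_or_ge y 3 with hy3 | hy3
    · have hx3 : 3 ≤ x := by omega
      have hy2 : 2 ≤ y := by omega
      have := key y x hy2 hx3
      linarith
    · have hx2 : 2 ≤ x := by omega
      have := key x y hx2 hy3
      linarith

theorem grp4 {G : Type} [Group G] [Fintype G] (s : Fin 4 → G) (h1 : ∀ i, s i ≠ 1)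
    (hg : Subgroup.closure (Set.range s) = ⊤) (hp : s 0 * s 1 * s 2 * s 3 = 1)
    (hc : ∀ g : G, g ≠ 1 → ¬ (Subgroup.zpowers g).Normal) :
    (1 / 6 : ℝ) ≤ 1 - (orderOf (s 0 * s 1) : ℝ) / Nat.card (Subgroup.closure {s 0, s 1} : Subgroup G) -
        (orderOf (s 0 * s 1) : ℝ) / Nat.card (Subgroup.closure {s 2, s 3} : Subgroup G) ∨
    (1 / 6 : ℝ) ≤ 1 - (orderOf (s 1 * s 2) : ℝ) / Nat.card (Subgroup.closure {s 1, s 2} : Subgroup G) -
        (orderOf (s 1 * s 2) : ℝ) / Nat.card (Subgroup.closure {s 3, s 0} : Subgroup G) := by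
  have hr1 : Set.range s = ({s 0, s 1, s 2, s 3} : Set G) := by
    ext z
    simp only [Set.mem_range, Set.mem_insert_iff, Set.mem_singleton_iff]
    constructor
    · rintro ⟨i, rfl⟩
      fin_cases i <;> simp
    · rintro (h | h | h | h)
      · exact ⟨0, h.symm⟩
      · exact ⟨1, h.symm⟩
      · exact ⟨2, h.symm⟩
      · exact ⟨3, h.symm⟩
  have hr2 : Set.range s = ({s 1, s 2, s 3, s 0} : Set G) := by
    rw [hr1]
    ext z
    simp only [Set.mem_insert_iff, Set.mem_singleton_iff]
    tauto
  have hp2 : s 1 * s 2 * s 3 * s 0 = 1 := by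
    have : s 0 * (s 1 * s 2 * s 3) = 1 := by rw [← hp]; group
    have h3 : s 1 * s 2 * s 3 = (s 0)⁻¹ := (inv_eq_of_mul_eq_one_right this).symm
    rw [h3]; simp
  have hcent : ∀ i : Fin 4, (∀ j : Fin 4, s i * s j = s j * s i) → False := by
    intro i hi
    refine hc (s i) (h1 i) (central_grp (Set.range s) hg (s i) ?_)
    rintro g ⟨j, rfl⟩
    exact hi j
  rcases half_grp (s 0) (s 1) (s 2) (s 3) hp (by rw [← hr1]; exact hg) hc with h | h | h
  · exact Or.inl h
  · rcases half_grp (s 1) (s 2) (s 3) (s 0) hp2 (by rw [← hr2]; exact hg) hc with h' | h' | h'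
    · exact Or.inr h'
    · -- `s 1` is central
      exfalso
      refine hcent 1 ?_
      have h3 : s 3 = (s 0 * s 1 * s 2)⁻¹ := (inv_eq_of_mul_eq_one_right hp).symm
      have c0 : Commute (s 1) (s 0) := h.symm
      have c2 : Commute (s 1) (s 2) := h'
      have c3 : Commute (s 1) (s 3) := by
        rw [h3]; exact ((c0.mul_right (Commute.refl _)).mul_right c2).inv_right
      intro j
      fin_cases j
      · exact c0
      · exact Commute.refl (s 1)
      · exact c2
      · exact c3
    · -- `s 0` is central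
      exfalso
      refine hcent 0 ?_
      have h3 : s 2 = (s 3 * s 0 * s 1)⁻¹ := by
        have : s 3 * s 0 * s 1 * s 2 = 1 := by
          have e : s 0 * s 1 * s 2 = (s 3)⁻¹ := eq_inv_of_mul_eq_one_left hp
          calc s 3 * s 0 * s 1 * s 2 = s 3 * (s 0 * s 1 * s 2) := by group
            _ = 1 := by rw [e]; simp
        exact (inv_eq_of_mul_eq_one_right this).symm
      have c1 : Commute (s 0) (s 1) := h
      have c3 : Commute (s 0) (s 3) := h'.symm
      have c2 : Commute (s 0) (s 2) := by
        rw [h3]; exact ((c3.mul_right (Commute.refl _)).mul_right c1).inv_right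
      intro j
      fin_cases j
      · exact Commute.refl (s 0)
      · exact c1
      · exact c2
      · exact c3
  · rcases half_grp (s 1) (s 2) (s 3) (s 0) hp2 (by rw [← hr2]; exact hg) hc with h' | h' | h'
    · exact Or.inr h'
    · -- `s 2` is central
      exfalso
      refine hcent 2 ?_
      have h3 : s 0 = (s 1 * s 2 * s 3)⁻¹ := (inv_eq_of_mul_eq_one_right hp2).symm
      have c1 : Commute (s 2) (s 1) := h'.symm
      have c3 : Commute (s 2) (s 3) := h
      have c0 : Commute (s 2) (s 0) := by
        rw [h3]; exact ((c1.mul_right (Commute.refl _)).mul_right c3).inv_right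
      intro j
      fin_cases j
      · exact c0
      · exact c1
      · exact Commute.refl (s 2)
      · exact c3
    · -- `s 3` is central
      exfalso
      refine hcent 3 ?_
      have h3 : s 1 = (s 2 * s 3 * s 0)⁻¹ := by
        have : s 2 * s 3 * s 0 * s 1 = 1 := by
          have e : s 0 * s 1 = (s 2 * s 3)⁻¹ := by
            refine eq_inv_of_mul_eq_one_left ?_
            rw [← hp]; group
          calc s 2 * s 3 * s 0 * s 1 = s 2 * s 3 * (s 0 * s 1) := by group
            _ = 1 := by rw [e]; simp
        exact (inv_eq_of_mul_eq_one_right this).symm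
      have c0 : Commute (s 3) (s 0) := h'
      have c2 : Commute (s 3) (s 2) := h.symm
      have c1 : Commute (s 3) (s 1) := by
        rw [h3]; exact ((c2.mul_right (Commute.refl _)).mul_right c0).inv_right
      intro j
      fin_cases j
      · exact c0
      · exact c1
      · exact c2
      · exact Commute.refl (s 3)

end Pool.Agent.H52.VC
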