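import Pool.Agent.H52.VC.Rep
import Pool.Agent.H52.VC.Frb
import Pool.Agent.H52.VC.Dmr
import Pool.Agent.H52.VC.Emb
import Pool.Agent.H52.VC.Frm
import Pool.Agent.H52.VC.Grp

set_option autoImplicit false

/-!
PROJECT VC (MP_bf82d2_ag), module Main: the bound by vanishing cycles.
-/

namespace Pool.Agent.H52.VC

open Finset Module
open Pool.Agent.H93.Hup (Inv MinInv)
open Pool.Agent.H82.CO (chi quadInv)

section

variable {G : Type} [Group G] [Fintype G]

private theorem pre_low {N : ℕ} (s : Fin N → G) (k : ℕ) : pre s k ∈ Hlow s k := by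
  unfold pre Hlow
  refine Subgroup.list_prod_mem _ ?_
  intro g hg
  obtain ⟨i, hi, hig⟩ := List.mem_take_iff_getElem.1 hg
  refine Subgroup.subset_closure ⟨⟨i, ?_⟩, ?_, ?_⟩
  · have := lt_min_iff.1 hi
    simpa using this.2
  · exact (lt_min_iff.1 hi).1
  · rw [← hig]
    simp

private theorem pre_upp {N : ℕ} (s : Fin N → G) (hp : (List.ofFn s).prod = 1) (k : ℕ) :
    pre s k ∈ Hupp s k := by
  have h0 : pre s k * ((List.ofFn s).drop k).prod = 1 := by
    unfold pre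
    rw [← List.prod_append, List.take_append_drop, hp]
  have h1 : pre s k = (((List.ofFn s).drop k).prod)⁻¹ := eq_inv_of_mul_eq_one_left h0
  rw [h1]
  refine Subgroup.inv_mem _ ?_
  unfold Hupp
  refine Subgroup.list_prod_mem _ ?_
  intro g hg
  obtain ⟨i, hi, hig⟩ := List.mem_drop_iff_getElem.1 hg
  rw [List.length_ofFn] at hi
  refine Subgroup.subset_closure ⟨⟨k + i, by omega⟩, ?_, ?_⟩
  · show k ≤ k + i
    omega
  · rw [← hig]
    simp

private theorem low_sup_upp {N : ℕ} (s : Fin N → G) (hg : Subgroup.closure (Set.range s) = ⊤) (k : ℕ) :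
    Hlow s k ⊔ Hupp s k = ⊤ := by
  rw [eq_top_iff, ← hg, Subgroup.closure_le]
  rintro g ⟨i, rfl⟩
  rcases lt_or_ge (i : ℕ) k with h | h
  · exact (le_sup_left : Hlow s k ≤ Hlow s k ⊔ Hupp s k) (Subgroup.subset_closure ⟨i, h, rfl⟩)
  · exact (le_sup_right : Hupp s k ≤ Hlow s k ⊔ Hupp s k) (Subgroup.subset_closure ⟨i, h, rfl⟩)

theorem mult_le {N : ℕ} (s : Fin N → G) (hp : (List.ofFn s).prod = 1)
    (hg : Subgroup.closure (Set.range s) = ⊤) (k : ℕ)
    {E : Type} [AddCommGroup E] [Module ℂ E] [FiniteDimensional ℂ E] (σ : Representation ℂ G E)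
    (hσ : ∀ g, LinearMap.trace ℂ E (σ g) = chi s g)
    {V : Type} [AddCommGroup V] [Module ℂ V] [FiniteDimensional ℂ V] (ρ : Representation ℂ G V) :
    finrank ℂ (invHom ρ (subR lam (RC (pre s k) (Hlow s k) (Hupp s k)) (inv_RC _ _ _))) ≤
      finrank ℂ (invHom ρ σ) := by
  obtain ⟨ρ', e, hu, he⟩ := exists_unitary ρ
  rw [invHom_tr ρ ρ' e he, invHom_tr ρ ρ' e he]
  have h1 := frob ρ' hu (pre s k) (Hlow s k) (Hupp s k) (pre_low s k) (pre_upp s hp k) (low_sup_upp s hg k)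
  have h2 := pv_ge s hp ρ' hu k
  have h3 : (finrank ℂ (invHom ρ' σ) : ℝ) = pv s ρ' := by
    have h4 := hom_eq ρ' σ
    have h5 := pair_eq s ρ' hu
    have h6 : (finrank ℂ (invHom ρ' σ) : ℂ) = (pv s ρ' : ℂ) := by
      rw [h4, ← h5]
      congr 1
      refine sum_congr rfl fun g _ => ?_
      rw [hσ g]
    exact_mod_cast h6
  have h7 : (finrank ℂ (invHom ρ' (subR lam (RC (pre s k) (Hlow s k) (Hupp s k)) (inv_RC _ _ _))) : ℝ) +
      finrank ℂ (fixG ρ' (Hlow s k)) + finrank ℂ (fixG ρ' (Hupp s k)) ≤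
      finrank ℂ (fixS (ρ' (pre s k))) + finrank ℂ (fixG ρ' ⊤) := by exact_mod_cast h1
  have h8 : (finrank ℂ (invHom ρ' (subR lam (RC (pre s k) (Hlow s k) (Hupp s k)) (inv_RC _ _ _))) : ℝ) ≤
      finrank ℂ (invHom ρ' σ) := by linarith
  exact_mod_cast h8

theorem conj_RC (a : G) (H H' : Subgroup G) (f : G → ℂ) (hf : f ∈ RC a H H') :
    (fun x => (starRingEnd ℂ) (f x)) ∈ RC a H H' := by
  classical
  refine ⟨fun x => ?_, fun x => ?_, fun x => ?_⟩
  · show (starRingEnd ℂ) (f (x * a)) = (starRingEnd ℂ) (f x)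
    rw [hf.1 x]
  · show ∑ h : H, (starRingEnd ℂ) (f (x * h)) = 0
    rw [← map_sum]
    have := hf.2.1 x
    rw [this, map_zero]
  · show ∑ h : H', (starRingEnd ℂ) (f (x * h)) = 0
    rw [← map_sum]
    have := hf.2.2 x
    rw [this, map_zero]

theorem emb_gen {V : Type} [AddCommGroup V] [Module ℂ V] [FiniteDimensional ℂ V] (ρ : Representation ℂ G V)
    {E : Type} [AddCommGroup E] [Module ℂ E] [FiniteDimensional ℂ E] (σ : Representation ℂ G E)
    (h : ∀ (W : Type) [AddCommGroup W] [Module ℂ W] [FiniteDimensional ℂ W] (τ : Representation ℂ G W),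
      finrank ℂ (invHom τ ρ) ≤ finrank ℂ (invHom τ σ)) :
    finrank ℂ (symInv ρ) ≤ finrank ℂ (symInv σ) := by
  obtain ⟨T, hT, hTi⟩ := embed ρ σ (fun W hW => h W (subR ρ W hW.2.1))
  exact symInv_le ρ σ T hT hTi

theorem emb_RC {N : ℕ} (s : Fin N → G) (hp : (List.ofFn s).prod = 1)
    (hg : Subgroup.closure (Set.range s) = ⊤) (k : ℕ)
    {E : Type} [AddCommGroup E] [Module ℂ E] [FiniteDimensional ℂ E] (σ : Representation ℂ G E)
    (hσ : ∀ g, LinearMap.trace ℂ E (σ g) = chi s g) :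
    finrank ℂ (symInv (subR lam (RC (pre s k) (Hlow s k) (Hupp s k)) (inv_RC _ _ _))) ≤
      finrank ℂ (symInv σ) := by
  refine emb_gen _ σ ?_
  intro W _ _ _ τ
  exact mult_le s hp hg k σ hσ τ

/-- The main inequality, with a bound `β` for the degrees of the irreducible representations. -/
theorem main1_b {N : ℕ} (s : Fin N → G) (hp : (List.ofFn s).prod = 1)
    (hg : Subgroup.closure (Set.range s) = ⊤) (β : ℝ) (hβ0 : 0 ≤ β)
    (hβ : ∀ W : Submodule ℂ (G → ℂ), MinInv (lam (G := G)) W → (finrank ℂ W : ℝ) ≤ β) :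
    ∃ d : ℕ, quadInv s = d ∧ ∀ k : ℕ,
    (Nat.card G : ℝ) / orderOf (pre s k) - (Nat.card G : ℝ) / Nat.card (Hlow s k) -
      (Nat.card G : ℝ) / Nat.card (Hupp s k) ≤ 2 * β * d := by
  obtain ⟨E, iE1, iE2, iE3, σ, hσ⟩ := exists_E s hp hg
  refine ⟨finrank ℂ (symInv σ), quadInv_eq s σ hσ, ?_⟩
  intro k
  have h1 := dim_RC (pre s k) (Hlow s k) (Hupp s k)
  have h2 := forms_ge_b β hβ0 hβ (RC (pre s k) (Hlow s k) (Hupp s k)) (inv_RC _ _ _)
    (fun f hf => conj_RC _ _ _ f hf)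
  have h3 := emb_RC s hp hg k σ hσ
  have h4 : (finrank ℂ (symInv (subR lam (RC (pre s k) (Hlow s k) (Hupp s k)) (inv_RC _ _ _))) : ℝ) ≤
      finrank ℂ (symInv σ) := by exact_mod_cast h3
  have h5 : 0 ≤ 2 * β := by positivity
  have h6 := mul_le_mul_of_nonneg_left h4 h5
  linarith

/-- The main inequality. -/
theorem main1 {N : ℕ} (s : Fin N → G) (hp : (List.ofFn s).prod = 1)
    (hg : Subgroup.closure (Set.range s) = ⊤) : ∃ d : ℕ, quadInv s = d ∧ ∀ k : ℕ,
    (Nat.card G : ℝ) / orderOf (pre s k) - (Nat.card G : ℝ) / Nat.card (Hlow s k) -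
      (Nat.card G : ℝ) / Nat.card (Hupp s k) ≤ 2 * d * Real.sqrt (Nat.card G) := by
  obtain ⟨d, hd, hk⟩ := main1_b s hp hg (Real.sqrt (Nat.card G)) (Real.sqrt_nonneg _) (fun W hW => by
    apply Real.le_sqrt_of_sq_le
    exact_mod_cast minInv_sq lam W hW)
  refine ⟨d, hd, fun k => ?_⟩
  have h1 := hk k
  linarith

private theorem low2 (s : Fin 4 → G) : Hlow s 2 = Subgroup.closure {s 0, s 1} := by
  unfold Hlow
  congr 1
  ext g
  constructor
  · rintro ⟨i, hi, rfl⟩
    fin_cases i <;> simp at hi ⊢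
  · intro h
    rcases h with h | h
    · exact ⟨0, by norm_num, h.symm⟩
    · exact ⟨1, by norm_num, (Set.mem_singleton_iff.1 h).symm⟩

private theorem upp2 (s : Fin 4 → G) : Hupp s 2 = Subgroup.closure {s 2, s 3} := by
  unfold Hupp
  congr 1
  ext g
  constructor
  · rintro ⟨i, hi, rfl⟩
    fin_cases i <;> simp at hi ⊢
  · intro h
    rcases h with h | h
    · exact ⟨2, by norm_num, h.symm⟩
    · exact ⟨3, by norm_num, (Set.mem_singleton_iff.1 h).symm⟩

private theorem pre2 (s : Fin 4 → G) : pre s 2 = s 0 * s 1 := by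
  unfold pre
  simp [List.ofFn_succ]

private theorem fin_step (n o x d : ℝ) (hn : 0 < n) (ho : 0 < o) (hx : 1 / 6 ≤ x)
    (h : n / o * x ≤ 2 * d * Real.sqrt n) : Real.sqrt n ≤ 12 * d * o := by
  have h1 : n / o * (1 / 6) ≤ 2 * d * Real.sqrt n :=
    le_trans (mul_le_mul_of_nonneg_left hx (by positivity)) h
  have hs : 0 < Real.sqrt n := Real.sqrt_pos.2 hn
  have h2 : Real.sqrt n * Real.sqrt n = n := Real.mul_self_sqrt hn.le
  have h3 : n ≤ 12 * d * o * Real.sqrt n := by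
    have h4 : n / o * (1 / 6) * (6 * o) ≤ 2 * d * Real.sqrt n * (6 * o) :=
      mul_le_mul_of_nonneg_right h1 (by positivity)
    have h5 : n / o * (1 / 6) * (6 * o) = n := by field_simp
    linarith
  rw [← h2] at h3
  have h6 : Real.sqrt n * Real.sqrt n ≤ 12 * d * o * Real.sqrt n := by
    calc Real.sqrt n * Real.sqrt n = n := h2
      _ ≤ 12 * d * o * Real.sqrt n := by
        rw [h2] at h3
        exact h3
  exact le_of_mul_le_mul_right h6 hs

private theorem cut_bound (s : Fin 4 → G) (hp : (List.ofFn s).prod = 1)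
    (hg : Subgroup.closure (Set.range s) = ⊤)
    (h : (1 / 6 : ℝ) ≤ 1 - (orderOf (s 0 * s 1) : ℝ) / Nat.card (Subgroup.closure {s 0, s 1} : Subgroup G) -
        (orderOf (s 0 * s 1) : ℝ) / Nat.card (Subgroup.closure {s 2, s 3} : Subgroup G)) (d : ℕ)
    (hd : quadInv s = d) :
    Real.sqrt (Nat.card G) ≤ 12 * d * orderOf (s 0 * s 1) := by
  obtain ⟨d', hd', hm⟩ := main1 s hp hg
  have hdd : d' = d := by
    rw [hd] at hd'
    exact_mod_cast hd'.symm
  subst hdd
  have h2 := hm 2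
  rw [low2, upp2, pre2] at h2
  have hn : (0 : ℝ) < Nat.card G := by exact_mod_cast Nat.card_pos
  have ho : (0 : ℝ) < orderOf (s 0 * s 1) := by exact_mod_cast orderOf_pos _
  refine fin_step _ _ _ _ hn ho h (le_trans (le_of_eq ?_) h2)
  have hH : (0 : ℝ) < Nat.card (Subgroup.closure {s 0, s 1} : Subgroup G) := by exact_mod_cast Nat.card_pos
  have hH' : (0 : ℝ) < Nat.card (Subgroup.closure {s 2, s 3} : Subgroup G) := by exact_mod_cast Nat.card_pos
  field_simp

theorem main2 (s : Fin 4 → G) (h1 : ∀ i, s i ≠ 1) (hp : (List.ofFn s).prod = 1)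
    (hg : Subgroup.closure (Set.range s) = ⊤) (hc : ∀ g : G, g ≠ 1 → ¬ (Subgroup.zpowers g).Normal) (d : ℕ)
    (hd : quadInv s = d) :
    Real.sqrt (Nat.card G) ≤ 12 * d * max (orderOf (s 0 * s 1) : ℝ) (orderOf (s 1 * s 2)) := by
  have hp4 : s 0 * s 1 * s 2 * s 3 = 1 := by
    rw [← hp]
    simp [List.ofFn_succ, mul_assoc]
  have hd0 : (0 : ℝ) ≤ d := Nat.cast_nonneg _
  rcases grp4 s h1 hg hp4 hc with h | h
  · refine le_trans (cut_bound s hp hg h d hd) ?_
    exact mul_le_mul_of_nonneg_left (le_max_left _ _) (by positivity)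
  · let r : Equiv.Perm (Fin 4) := finRotate 4
    have hr0 : (s ∘ r) 0 = s 1 := rfl
    have hr1 : (s ∘ r) 1 = s 2 := rfl
    have hr2 : (s ∘ r) 2 = s 3 := rfl
    have hr3 : (s ∘ r) 3 = s 0 := rfl
    have hp' : (List.ofFn (s ∘ r)).prod = 1 := by
      have h5 : (List.ofFn (s ∘ r)).prod = s 1 * s 2 * s 3 * s 0 := by
        simp [List.ofFn_succ, mul_assoc]
        rfl
      rw [h5]
      have h6 : s 1 * s 2 * s 3 = (s 0)⁻¹ := by
        rw [eq_inv_iff_mul_eq_one, ← mul_left_inj (s 0)]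
        have h7 : s 0 * (s 1 * s 2 * s 3) = 1 := by
          rw [← hp4]
          simp only [mul_assoc]
        have h8 : s 1 * s 2 * s 3 = (s 0)⁻¹ := eq_inv_of_mul_eq_one_right h7
        rw [h8]
        group
      rw [h6]
      group
    have hg' : Subgroup.closure (Set.range (s ∘ r)) = ⊤ := by
      rw [EquivLike.range_comp]
      exact hg
    have h9 := cut_bound (s ∘ r) hp' hg' (by rw [hr0, hr1, hr2, hr3]; exact h) d (by
      rw [quadInv_perm]
      exact hd)
    rw [hr0, hr1] at h9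
    refine le_trans h9 ?_
    exact mul_le_mul_of_nonneg_left (le_max_right _ _) (by positivity)

end

end Pool.Agent.H52.VC
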