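import Pool.Agent.H52.VC.Defs

set_option autoImplicit false
set_option linter.unusedSectionVars false

/-!
PROJECT VC (MP_bf82d2_ag), module Uni.
Every representation is equivalent to a unitary one, and transport along an equivalence.
PROOF. `InnerProductSpace.Core` on a copy of `V` from `⟪x, y⟫ = ∑ g, inner (e0 (ρ g x)) (e0 (ρ g y))`, `e0 : V ≃ EuclideanSpace`
any linear isomorphism, then `stdOrthonormalBasis` gives the isometry to `EuclideanSpace ℂ (Fin _)`; or directly by Gram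
matrix.  The transport lemmas are routine (`LinearEquiv.finrank_eq`, `LinearMap.trace_conj'`, `LinearMap.charpoly` of a
conjugate).
-/

namespace Pool.Agent.H52.VC

open Finset Module
open Pool.Agent.H93.Hup (Inv MinInv)
open Pool.Agent.H82.CO (chi quadInv)

/-- an inner product on a finite dimensional space is the standard one in suitable coordinates -/
private theorem core_uni {V : Type} [AddCommGroup V] [Module ℂ V] [FiniteDimensional ℂ V]
    (c : InnerProductSpace.Core ℂ V) :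
    ∃ e : V ≃ₗ[ℂ] EuclideanSpace ℂ (Fin (finrank ℂ V)), ∀ x y, inner ℂ (e x) (e y) = c.inner x y := by
  let _ := @InnerProductSpace.Core.toNormedAddCommGroup ℂ V _ _ _ c
  let _ := InnerProductSpace.ofCore c.toCore
  exact ⟨(stdOrthonormalBasis ℂ V).repr.toLinearEquiv, fun x y =>
    (stdOrthonormalBasis ℂ V).repr.inner_map_map x y⟩

/-- the transported representation -/
private def tr_uni {G : Type} [Group G] {V V' : Type} [AddCommGroup V] [Module ℂ V] [AddCommGroup V'] [Module ℂ V']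
    (ρ : Representation ℂ G V) (e : V ≃ₗ[ℂ] V') : Representation ℂ G V' where
  toFun g := (e : V →ₗ[ℂ] V') ∘ₗ ρ g ∘ₗ (e.symm : V' →ₗ[ℂ] V)
  map_one' := by
    refine LinearMap.ext fun x => ?_
    show e (ρ 1 (e.symm x)) = x
    rw [map_one]
    exact e.apply_symm_apply x
  map_mul' := by
    intro g k
    refine LinearMap.ext fun x => ?_
    show e (ρ (g * k) (e.symm x)) = e (ρ g (e.symm (e (ρ k (e.symm x)))))
    rw [map_mul, e.symm_apply_apply]
    rfl

theorem exists_unitary {G : Type} [Group G] [Fintype G] {V : Type} [AddCommGroup V] [Module ℂ V] [FiniteDimensional ℂ V]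
    (ρ : Representation ℂ G V) :
    ∃ (ρ' : Representation ℂ G (EuclideanSpace ℂ (Fin (finrank ℂ V)))) (e : V ≃ₗ[ℂ] EuclideanSpace ℂ (Fin (finrank ℂ V))),
      (∀ g, IsU (ρ' g)) ∧ ∀ g x, e (ρ g x) = ρ' g (e x) := by
  have e0 : V ≃ₗ[ℂ] EuclideanSpace ℂ (Fin (finrank ℂ V)) :=
    LinearEquiv.ofFinrankEq _ _ (by rw [finrank_euclideanSpace_fin])
  let c : InnerProductSpace.Core ℂ V :=
    { inner := fun x y => ∑ g, inner ℂ (e0 (ρ g x)) (e0 (ρ g y))
      conj_inner_symm := by
        intro x y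
        show (starRingEnd ℂ) (∑ g, inner ℂ (e0 (ρ g y)) (e0 (ρ g x))) =
          ∑ g, inner ℂ (e0 (ρ g x)) (e0 (ρ g y))
        rw [map_sum]
        exact sum_congr rfl fun g _ => inner_conj_symm _ _
      re_inner_nonneg := by
        intro x
        show 0 ≤ RCLike.re (∑ g, inner ℂ (e0 (ρ g x)) (e0 (ρ g x)))
        rw [map_sum]
        exact sum_nonneg fun g _ => inner_self_nonneg
      add_left := by
        intro x y z
        show ∑ g, inner ℂ (e0 (ρ g (x + y))) (e0 (ρ g z)) =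
          ∑ g, inner ℂ (e0 (ρ g x)) (e0 (ρ g z)) + ∑ g, inner ℂ (e0 (ρ g y)) (e0 (ρ g z))
        rw [← sum_add_distrib]
        exact sum_congr rfl fun g _ => by rw [map_add, map_add, inner_add_left]
      smul_left := by
        intro x y r
        show ∑ g, inner ℂ (e0 (ρ g (r • x))) (e0 (ρ g y)) =
          (starRingEnd ℂ) r * ∑ g, inner ℂ (e0 (ρ g x)) (e0 (ρ g y))
        rw [mul_sum]
        exact sum_congr rfl fun g _ => by rw [map_smul, map_smul, inner_smul_left]
      definite := by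
        intro x hx
        have h1 : ∑ g, inner ℂ (e0 (ρ g x)) (e0 (ρ g x)) = 0 := hx
        have h2 : ∑ g : G, RCLike.re (inner ℂ (e0 (ρ g x)) (e0 (ρ g x))) = 0 := by
          rw [← map_sum, h1, map_zero]
        have h3 := (sum_eq_zero_iff_of_nonneg fun g _ => inner_self_nonneg).1 h2 1 (mem_univ 1)
        have h4 : e0 (ρ 1 x) = 0 := by
          rw [inner_self_eq_norm_sq] at h3
          exact norm_eq_zero.1 (pow_eq_zero_iff (two_ne_zero)|>.1 h3)
        rw [map_one] at h4
        exact (e0.map_eq_zero_iff).1 h4 }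
  obtain ⟨e, he⟩ := core_uni c
  refine ⟨tr_uni ρ e, e, fun g x y => ?_, fun g x => ?_⟩
  · show inner ℂ (e (ρ g (e.symm x))) (e (ρ g (e.symm y))) = inner ℂ x y
    have h1 : inner ℂ x y = c.inner (e.symm x) (e.symm y) := by
      rw [← he, e.apply_symm_apply, e.apply_symm_apply]
    rw [he, h1]
    show ∑ k, inner ℂ (e0 (ρ k (ρ g (e.symm x)))) (e0 (ρ k (ρ g (e.symm y)))) =
      ∑ k, inner ℂ (e0 (ρ k (e.symm x))) (e0 (ρ k (e.symm y)))
    refine Fintype.sum_equiv (Equiv.mulRight g) _ _ fun k => ?_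
    show _ = inner ℂ (e0 (ρ (k * g) (e.symm x))) (e0 (ρ (k * g) (e.symm y)))
    rw [map_mul]
    rfl
  · show e (ρ g x) = e (ρ g (e.symm (e x)))
    rw [e.symm_apply_apply]

section

variable {G : Type} [Group G] {V V' V'' : Type} [AddCommGroup V] [Module ℂ V] [FiniteDimensional ℂ V]
  [AddCommGroup V'] [Module ℂ V'] [FiniteDimensional ℂ V'] [AddCommGroup V''] [Module ℂ V''] [FiniteDimensional ℂ V'']

theorem fixG_tr (ρ : Representation ℂ G V) (ρ' : Representation ℂ G V') (e : V ≃ₗ[ℂ] V')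
    (he : ∀ g x, e (ρ g x) = ρ' g (e x)) (K : Subgroup G) : finrank ℂ (fixG ρ K) = finrank ℂ (fixG ρ' K) := by
  have h1 : (fixG ρ K).map (e : V →ₗ[ℂ] V') = fixG ρ' K := by
    ext y
    rw [Submodule.mem_map, mem_fixG]
    constructor
    · rintro ⟨x, hx, rfl⟩ g hg
      show ρ' g (e x) = e x
      rw [← he, (mem_fixG ρ K x).1 hx g hg]
    · intro h
      refine ⟨e.symm y, (mem_fixG ρ K _).2 fun g hg => ?_, e.apply_symm_apply y⟩
      apply e.injective
      rw [he, e.apply_symm_apply, h g hg]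
  rw [← h1]
  exact (LinearEquiv.finrank_map_eq e _).symm

theorem fixS_tr (ρ : Representation ℂ G V) (ρ' : Representation ℂ G V') (e : V ≃ₗ[ℂ] V')
    (he : ∀ g x, e (ρ g x) = ρ' g (e x)) (g : G) : finrank ℂ (fixS (ρ g)) = finrank ℂ (fixS (ρ' g)) := by
  have h1 : (fixS (ρ g)).map (e : V →ₗ[ℂ] V') = fixS (ρ' g) := by
    ext y
    rw [Submodule.mem_map, mem_fixS]
    constructor
    · rintro ⟨x, hx, rfl⟩
      show ρ' g (e x) = e x
      rw [← he, (mem_fixS (ρ g) x).1 hx]
    · intro h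
      refine ⟨e.symm y, (mem_fixS (ρ g) _).2 ?_, e.apply_symm_apply y⟩
      apply e.injective
      rw [he, e.apply_symm_apply, h]
  rw [← h1]
  exact (LinearEquiv.finrank_map_eq e _).symm

private theorem conj_uni (ρ : Representation ℂ G V) (ρ' : Representation ℂ G V') (e : V ≃ₗ[ℂ] V')
    (he : ∀ g x, e (ρ g x) = ρ' g (e x)) (g : G) : ρ' g = e.conj (ρ g) := by
  refine LinearMap.ext fun x => ?_
  rw [LinearEquiv.conj_apply_apply, he, e.apply_symm_apply]

theorem trace_tr (ρ : Representation ℂ G V) (ρ' : Representation ℂ G V') (e : V ≃ₗ[ℂ] V')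
    (he : ∀ g x, e (ρ g x) = ρ' g (e x)) (g : G) :
    LinearMap.trace ℂ V (ρ g) = LinearMap.trace ℂ V' (ρ' g) := by
  rw [conj_uni ρ ρ' e he g, LinearMap.trace_conj']

theorem invHom_tr (ρ : Representation ℂ G V) (ρ' : Representation ℂ G V') (e : V ≃ₗ[ℂ] V')
    (he : ∀ g x, e (ρ g x) = ρ' g (e x)) (σ : Representation ℂ G V'') :
    finrank ℂ (invHom ρ σ) = finrank ℂ (invHom ρ' σ) := by
  have h1 : (invHom ρ σ).map ((LinearEquiv.arrowCongr e (LinearEquiv.refl ℂ V'') :
      (V →ₗ[ℂ] V'') ≃ₗ[ℂ] (V' →ₗ[ℂ] V'')) : (V →ₗ[ℂ] V'') →ₗ[ℂ] (V' →ₗ[ℂ] V'')) = invHom ρ' σ := by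
    ext S
    rw [Submodule.mem_map, mem_invHom]
    constructor
    · rintro ⟨T, hT, rfl⟩ g x
      show T (e.symm (ρ' g x)) = σ g (T (e.symm x))
      rw [← (mem_invHom ρ σ T).1 hT g (e.symm x)]
      congr 1
      apply e.injective
      rw [e.apply_symm_apply, he, e.apply_symm_apply]
    · intro h
      refine ⟨S ∘ₗ (e : V →ₗ[ℂ] V'), (mem_invHom ρ σ _).2 fun g x => ?_, ?_⟩
      · show S (e (ρ g x)) = σ g (S (e x))
        rw [he, h]
      · refine LinearMap.ext fun x => ?_
        show S (e (e.symm x)) = S x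
        rw [e.apply_symm_apply]
  rw [← h1]
  exact (LinearEquiv.finrank_map_eq _ _).symm

theorem pv_tr [Fintype G] (ρ : Representation ℂ G V) (ρ' : Representation ℂ G V') (e : V ≃ₗ[ℂ] V')
    (he : ∀ g x, e (ρ g x) = ρ' g (e x)) {N : ℕ} (s : Fin N → G) : pv s ρ = pv s ρ' := by
  have h1 : ∀ g, angp (ρ g) = angp (ρ' g) := by
    intro g
    unfold angp
    rw [conj_uni ρ ρ' e he g, LinearEquiv.charpoly_conj]
  unfold pv
  rw [fixG_tr ρ ρ' e he ⊤, e.finrank_eq]
  congr 2
  exact sum_congr rfl fun i _ => by rw [h1, fixS_tr ρ ρ' e he]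

end

end Pool.Agent.H52.VC
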