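import Pool.Agent.H52.VC.MuG
import Pool.Agent.H52.VC.Uni
import Pool.Agent.H52.VC.Pai
import Pool.Agent.H52.VC.Exi
import Pool.Agent.H52.VC.Chi
import Pool.Agent.H52.VC.Qin
import Pool.Agent.H52.VC.Fex

set_option autoImplicit false

/-!
PROJECT VC (MP_bf82d2_ag), module Rep: the representation of `G` with character `chi s` (Chevalley-Weil), and
the multiplicity of an arbitrary representation in it.
-/

namespace Pool.Agent.H52.VC

open Finset Module
open Pool.Agent.H93.Hup (Inv MinInv)
open Pool.Agent.H82.CO (chi quadInv)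

section

variable {G : Type} [Group G] [Fintype G]

/-- The pairing of `chi s` with an arbitrary representation. -/
theorem pair_eq' {N : ℕ} (s : Fin N → G) {V : Type} [AddCommGroup V] [Module ℂ V] [FiniteDimensional ℂ V]
    (ρ : Representation ℂ G V) :
    (1 / (Nat.card G : ℂ)) * ∑ g, chi s g * LinearMap.trace ℂ V (ρ g⁻¹) = (pv s ρ : ℂ) := by
  obtain ⟨ρ', e, hu, he⟩ := exists_unitary ρ
  rw [pv_tr ρ ρ' e he s, ← pair_eq s ρ' hu]
  congr 1
  refine sum_congr rfl fun g _ => ?_
  rw [trace_tr ρ ρ' e he]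

/-- The pairing of `chi s` with an arbitrary representation is a natural number. -/
theorem pv_nat' {N : ℕ} (s : Fin N → G) (hp : (List.ofFn s).prod = 1)
    (hg : Subgroup.closure (Set.range s) = ⊤) {V : Type} [AddCommGroup V] [Module ℂ V] [FiniteDimensional ℂ V]
    (ρ : Representation ℂ G V) : ∃ m : ℕ, pv s ρ = m := by
  obtain ⟨ρ', e, hu, he⟩ := exists_unitary ρ
  rw [pv_tr ρ ρ' e he s]
  exact pv_nat s hp hg ρ' hu

/-- There is a representation with character `chi s`. -/
theorem exists_E {N : ℕ} (s : Fin N → G) (hp : (List.ofFn s).prod = 1)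
    (hg : Subgroup.closure (Set.range s) = ⊤) :
    ∃ (E : Type) (_ : AddCommGroup E) (_ : Module ℂ E) (_ : FiniteDimensional ℂ E) (σ : Representation ℂ G E),
      ∀ g, LinearMap.trace ℂ E (σ g) = chi s g := by
  refine exists_rep_of (chi s) (fun g x => chi_conj s g x) (fun g => chi_inv s g) ?_
  intro W hW
  obtain ⟨m, hm⟩ := pv_nat' s hp hg (subR lam W hW.2.1)
  refine ⟨m, ?_⟩
  rw [pair_eq' s (subR lam W hW.2.1), hm]
  norm_cast

/-- The multiplicity of `ρ` in a representation with character `chi s`. -/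
theorem hom_pv {N : ℕ} (s : Fin N → G) {E : Type} [AddCommGroup E] [Module ℂ E] [FiniteDimensional ℂ E]
    (σ : Representation ℂ G E) (hσ : ∀ g, LinearMap.trace ℂ E (σ g) = chi s g)
    {V : Type} [AddCommGroup V] [Module ℂ V] [FiniteDimensional ℂ V] (ρ : Representation ℂ G V) :
    (finrank ℂ (invHom ρ σ) : ℝ) = pv s ρ := by
  have h6 : (finrank ℂ (invHom ρ σ) : ℂ) = (pv s ρ : ℂ) := by
    rw [hom_eq ρ σ, ← pair_eq' s ρ]
    congr 1
    refine sum_congr rfl fun g _ => ?_
    rw [hσ g]
  exact_mod_cast h6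

/-- `quadInv s` is the dimension of the space of invariant symmetric forms. -/
theorem quadInv_eq {N : ℕ} (s : Fin N → G) {E : Type} [AddCommGroup E] [Module ℂ E] [FiniteDimensional ℂ E]
    (σ : Representation ℂ G E) (hσ : ∀ g, LinearMap.trace ℂ E (σ g) = chi s g) :
    quadInv s = (finrank ℂ (symInv σ) : ℂ) := by
  rw [symInv_eq σ]
  unfold quadInv
  congr 1
  refine sum_congr rfl fun g _ => ?_
  rw [hσ g, hσ (g ^ 2)]

end

end Pool.Agent.H52.VC
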