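import Pool.Agent.H52.VC.Defs

set_option autoImplicit false

/-!
PROJECT VC (MP_bf82d2_ag), module Srt.
Sorting.
PROOF. Sort both (`Tuple.sort`; sums and counts do not change), `t 0 ≤ t 1 ≤ ..`.  `srt2`: `t' j ≤ t j` for all `j`
(otherwise take `φ = t' j`: `j + 1` of the `t` are `< φ`, at most `j` of the `t'`).  `srt1`: the same gives
`t' j ≤ t (j + 1)`, so `∑ t' ≤ ∑ t - t 0 + 1 < ∑ t + 1` (`n = 0`: `0 < 1`).
-/

namespace Pool.Agent.H52.VC

open Finset Module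
open Pool.Agent.H93.Hup (Inv MinInv)
open Pool.Agent.H82.CO (chi quadInv)

private theorem cnt_srt {n : ℕ} (t : Fin n → ℝ) (σ : Equiv.Perm (Fin n)) (φ : ℝ) :
    (univ.filter (fun j => t (σ j) < φ)).card = (univ.filter (fun j => t j < φ)).card := by
  refine card_bij (fun j _ => σ j) (fun j hj => ?_) (fun i _ j _ h => σ.injective h) (fun j hj => ?_)
  · rw [mem_filter] at hj ⊢
    exact ⟨mem_univ _, hj.2⟩
  · rw [mem_filter] at hj
    refine ⟨σ.symm j, ?_, by rw [Equiv.apply_symm_apply]⟩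
    rw [mem_filter, Equiv.apply_symm_apply]
    exact ⟨mem_univ _, hj.2⟩

private theorem key_srt {n : ℕ} (s s' : Fin n → ℝ) (hs : Monotone s) (hs' : Monotone s')
    (h1 : ∀ j, 0 < s' j ∧ s' j ≤ 1) (k : ℕ) (h : ∀ φ : ℝ, 0 < φ → φ ≤ 1 →
      (univ.filter (fun j => s j < φ)).card ≤ (univ.filter (fun j => s' j < φ)).card + k)
    (i j : Fin n) (hij : (i : ℕ) = j + k) : s' j ≤ s i := by
  by_contra hlt
  push Not at hlt
  have h2 := h (s' j) (h1 j).1 (h1 j).2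
  have h3 : (Iic i).card ≤ (univ.filter (fun l => s l < s' j)).card := by
    refine card_le_card fun l hl => ?_
    rw [mem_filter]
    exact ⟨mem_univ _, (hs (mem_Iic.1 hl)).trans_lt hlt⟩
  have h4 : (univ.filter (fun l => s' l < s' j)).card ≤ (Iio j).card := by
    refine card_le_card fun l hl => ?_
    rw [mem_filter] at hl
    rw [mem_Iio]
    by_contra hc
    exact absurd hl.2 (not_lt.2 (hs' (not_lt.1 hc)))
  rw [Fin.card_Iic] at h3
  rw [Fin.card_Iio] at h4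
  omega

private theorem main_srt {n : ℕ} (t t' : Fin n → ℝ) (ht' : ∀ j, 0 < t' j ∧ t' j ≤ 1) (k : ℕ)
    (h : ∀ φ : ℝ, 0 < φ → φ ≤ 1 →
      (univ.filter (fun j => t j < φ)).card ≤ (univ.filter (fun j => t' j < φ)).card + k)
    (i j : Fin n) (hij : (i : ℕ) = j + k) :
    t' (Tuple.sort t' j) ≤ t (Tuple.sort t i) := by
  refine key_srt (fun l => t (Tuple.sort t l)) (fun l => t' (Tuple.sort t' l)) (Tuple.monotone_sort t)
    (Tuple.monotone_sort t') (fun l => ht' _) k (fun φ h0 h1 => ?_) i j hij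
  rw [cnt_srt t (Tuple.sort t) φ, cnt_srt t' (Tuple.sort t') φ]
  exact h φ h0 h1

theorem srt1 {n : ℕ} (t t' : Fin n → ℝ) (ht : ∀ j, 0 < t j ∧ t j ≤ 1) (ht' : ∀ j, 0 < t' j ∧ t' j ≤ 1)
    (h : ∀ φ : ℝ, 0 < φ → φ ≤ 1 →
      (univ.filter (fun j => t j < φ)).card ≤ (univ.filter (fun j => t' j < φ)).card + 1) :
    ∑ j, t' j < ∑ j, t j + 1 := by
  cases n with
  | zero => simp
  | succ m =>
      have h1 : ∑ j, t' (Tuple.sort t' j) = ∑ j, t' j := Equiv.sum_comp (Tuple.sort t') t'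
      have h2 : ∑ j, t (Tuple.sort t j) = ∑ j, t j := Equiv.sum_comp (Tuple.sort t) t
      rw [← h1, ← h2, Fin.sum_univ_castSucc, Fin.sum_univ_succ (fun j => t (Tuple.sort t j))]
      have h3 : ∑ j : Fin m, t' (Tuple.sort t' j.castSucc) ≤ ∑ j : Fin m, t (Tuple.sort t j.succ) :=
        sum_le_sum fun j _ => main_srt t t' ht' 1 h j.succ j.castSucc (by simp)
      have h4 := (ht' (Tuple.sort t' (Fin.last m))).2
      have h5 := (ht (Tuple.sort t 0)).1
      linarith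

theorem srt2 {n : ℕ} (t t' : Fin n → ℝ) (ht : ∀ j, 0 < t j ∧ t j ≤ 1) (ht' : ∀ j, 0 < t' j ∧ t' j ≤ 1)
    (h : ∀ φ : ℝ, 0 < φ → φ ≤ 1 →
      (univ.filter (fun j => t j < φ)).card ≤ (univ.filter (fun j => t' j < φ)).card) :
    ∑ j, t' j ≤ ∑ j, t j := by
  have h1 : ∑ j, t' (Tuple.sort t' j) = ∑ j, t' j := Equiv.sum_comp (Tuple.sort t') t'
  have h2 : ∑ j, t (Tuple.sort t j) = ∑ j, t j := Equiv.sum_comp (Tuple.sort t) t
  rw [← h1, ← h2]
  exact sum_le_sum fun j _ => main_srt t t' ht' 0 h j j rfl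

end Pool.Agent.H52.VC
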