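import Pool.Agent.H52.VC.Ang
import Pool.Agent.H52.VC.Cnt
import Pool.Agent.H52.VC.Srt

set_option autoImplicit false

/-!
PROJECT VC (MP_bf82d2_ag), module Rk1.
Multiplication by a complex reflection.
PROOF. `U' = U ∘ cref e β` agrees with `U` on `e^⊥`.  Eigenbases by `udiag` for `U`, `U'` (`isU_cref`), `cnt1`, `srt1`,
`angp_eq`: `angp U' < angp U + 1`.  `det U' = det U * ee β` (`det (cref e β) = ee β`: extend `e` to an orthonormal basis),
so by `det_ee` the number `angp U' - angp U - β` is an integer; it is `< 1 - β < 1`, so `≤ 0`.  `rk2`: by `cnt2`, `srt2`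
it is `≤ -β < 0`, so `≤ -1`.
-/

namespace Pool.Agent.H52.VC

open Finset Module
open Pool.Agent.H93.Hup (Inv MinInv)
open Pool.Agent.H82.CO (chi quadInv)

private theorem ee_norm_rk1 (β : ℝ) : (starRingEnd ℂ) (ee β) * ee β = 1 := by
  have h1 : ee β = Complex.exp (((2 * Real.pi * β : ℝ) : ℂ) * Complex.I) := by
    unfold ee
    push_cast
    rfl
  have h2 : ‖ee β‖ = 1 := by rw [h1]; exact Complex.norm_exp_ofReal_mul_I _
  rw [mul_comm, Complex.mul_conj, Complex.normSq_eq_norm_sq, h2]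
  norm_num

theorem isU_cref {V : Type} [NormedAddCommGroup V] [InnerProductSpace ℂ V] [FiniteDimensional ℂ V]
    (e : V) (he : ‖e‖ = 1) (β : ℝ) : IsU (cref e β) := by
  intro x y
  have h1 := ee_norm_rk1 β
  have h2 : inner ℂ e e = (1 : ℂ) := by
    rw [inner_self_eq_norm_sq_to_K, he]
    norm_num
  rw [cref_apply, cref_apply, inner_add_left, inner_add_right, inner_add_right, inner_smul_left, inner_smul_right,
    inner_smul_left, inner_smul_right, h2, map_mul, map_sub, map_one, inner_conj_symm]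
  linear_combination (inner ℂ x e * inner ℂ e y) * h1

theorem det_cref {V : Type} [NormedAddCommGroup V] [InnerProductSpace ℂ V] [FiniteDimensional ℂ V]
    (e : V) (he : ‖e‖ = 1) (β : ℝ) : LinearMap.det (cref e β) = ee β := by
  have h2 : inner ℂ e e = (1 : ℂ) := by
    rw [inner_self_eq_norm_sq_to_K, he]
    norm_num
  have h : cref e β = LinearMap.transvection ((ee β - 1) • (innerₛₗ ℂ e)) e := by
    ext x
    rw [cref_apply, LinearMap.transvection.apply, LinearMap.smul_apply, smul_eq_mul, innerₛₗ_apply_apply]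
  rw [h, LinearMap.transvection.det, LinearMap.smul_apply, smul_eq_mul, innerₛₗ_apply_apply, h2]
  ring

private theorem isU_comp_rk1 {V : Type} [NormedAddCommGroup V] [InnerProductSpace ℂ V]
    {U W : V →ₗ[ℂ] V} (hU : IsU U) (hW : IsU W) : IsU (U ∘ₗ W) := by
  intro x y
  rw [LinearMap.comp_apply, LinearMap.comp_apply, hU, hW]

private theorem agree_rk1 {V : Type} [NormedAddCommGroup V] [InnerProductSpace ℂ V]
    (U : V →ₗ[ℂ] V) (e : V) (β : ℝ) : ∀ x, inner ℂ e x = (0 : ℂ) → (U ∘ₗ cref e β) x = U x := by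
  intro x hx
  rw [LinearMap.comp_apply, cref_apply, hx, mul_zero, zero_smul, add_zero]

private theorem int_rk1 {V : Type} [NormedAddCommGroup V] [InnerProductSpace ℂ V] [FiniteDimensional ℂ V]
    (U : V →ₗ[ℂ] V) (hU : IsU U) (e : V) (he : ‖e‖ = 1) (β : ℝ) :
    ∃ k : ℤ, angp (U ∘ₗ cref e β) = angp U + β + k := by
  have h1 := det_ee _ (isU_comp_rk1 hU (isU_cref e he β))
  rw [LinearMap.det_comp, det_cref e he, det_ee U hU, ← ee_add] at h1
  have h2 : ee (angp (U ∘ₗ cref e β) - (angp U + β)) = 1 := by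
    have h3 : ee (angp (U ∘ₗ cref e β) - (angp U + β)) * ee (angp U + β) = ee (angp (U ∘ₗ cref e β)) := by
      rw [← ee_add]
      congr 1
      ring
    have h4 : ee (angp U + β) ≠ 0 := by
      unfold ee
      exact Complex.exp_ne_zero _
    rw [← h1] at h3
    exact mul_right_cancel₀ h4 (h3.trans (one_mul _).symm)
  obtain ⟨k, hk⟩ := (ee_eq_one _).1 h2
  exact ⟨k, by linarith⟩

theorem rk1 {V : Type} [NormedAddCommGroup V] [InnerProductSpace ℂ V] [FiniteDimensional ℂ V]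
    (U : V →ₗ[ℂ] V) (hU : IsU U) (e : V) (he : ‖e‖ = 1) (β : ℝ) (h0 : 0 < β) (h1 : β < 1) :
    angp (U ∘ₗ cref e β) ≤ angp U + β := by
  obtain ⟨b, t, ht, hb⟩ := udiag U hU
  obtain ⟨b', t', ht', hb'⟩ := udiag (U ∘ₗ cref e β) (isU_comp_rk1 hU (isU_cref e he β))
  have e1 : angp U = ∑ j, t j := angp_eq U b.toBasis t ht (fun j => by simpa using hb j)
  have e2 : angp (U ∘ₗ cref e β) = ∑ j, t' j :=
    angp_eq _ b'.toBasis t' ht' (fun j => by simpa using hb' j)
  have h2 : ∑ j, t' j < ∑ j, t j + 1 := srt1 t t' ht ht' fun φ hφ0 hφ1 =>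
    cnt1 U (U ∘ₗ cref e β) b b' t t' ht ht' hb hb' e (agree_rk1 U e β) φ hφ0 hφ1
  obtain ⟨k, hk⟩ := int_rk1 U hU e he β
  rw [← e1, ← e2, hk] at h2
  have h3 : (k : ℝ) < 1 := by linarith
  have h4 : k < 1 := by exact_mod_cast h3
  have h5 : k ≤ 0 := by omega
  have h6 : (k : ℝ) ≤ 0 := by exact_mod_cast h5
  rw [hk]
  linarith

theorem rk2 {V : Type} [NormedAddCommGroup V] [InnerProductSpace ℂ V] [FiniteDimensional ℂ V]
    (U : V →ₗ[ℂ] V) (hU : IsU U) (e : V) (he : ‖e‖ = 1) (β : ℝ) (h0 : 0 < β) (h1 : β < 1)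
    (v : V) (hv : U v = v) (hev : inner ℂ e v ≠ 0) :
    angp (U ∘ₗ cref e β) ≤ angp U + β - 1 := by
  obtain ⟨b, t, ht, hb⟩ := udiag U hU
  obtain ⟨b', t', ht', hb'⟩ := udiag (U ∘ₗ cref e β) (isU_comp_rk1 hU (isU_cref e he β))
  have e1 : angp U = ∑ j, t j := angp_eq U b.toBasis t ht (fun j => by simpa using hb j)
  have e2 : angp (U ∘ₗ cref e β) = ∑ j, t' j :=
    angp_eq _ b'.toBasis t' ht' (fun j => by simpa using hb' j)
  have h2 : ∑ j, t' j ≤ ∑ j, t j := srt2 t t' ht ht' fun φ hφ0 hφ1 =>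
    cnt2 U (U ∘ₗ cref e β) b b' t t' ht ht' hb hb' e (agree_rk1 U e β) φ hφ0 hφ1 v hv hev
  obtain ⟨k, hk⟩ := int_rk1 U hU e he β
  rw [← e1, ← e2, hk] at h2
  have h3 : (k : ℝ) < 0 := by linarith
  have h4 : k < 0 := by exact_mod_cast h3
  have h5 : k ≤ -1 := by omega
  have h6 : (k : ℝ) ≤ -1 := by exact_mod_cast h5
  rw [hk]
  linarith

end Pool.Agent.H52.VC
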