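import Pool.Agent.H52.VC.Rk1

set_option autoImplicit false

/-!
PROJECT VC (MP_bf82d2_ag), module Two.
Two factors.
PROOF. `b, t` an orthonormal eigenbasis of `W` (`udiag`).  For a finset `S` of indices with `t j < 1` for `j ∈ S` let
`W_S (b j) = ee (t j) • b j` for `j ∈ S` and `= b j` otherwise, `F_S = {x ∈ F | inner (b j) x = 0 for j ∈ S}`.  Claim by
induction on `S`: `angp (U ∘ W_S) + dim F ≤ angp U + ∑ j ∈ S, t j + dim F_S`.  Step: `W_(S ∪ j) = W_S ∘ cref (b j) (t j)`,
`F_S ≤ fixS (U ∘ W_S)`; if `F_S ≤ (b j)^⊥` use `rk1`, otherwise `rk2` and `dim F_(S ∪ j) ≥ dim F_S - 1`.  At the end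
(`S` = all `j` with `t j < 1`) `W_S = W`, `F_S = F ⊓ fixS W`, `∑ j ∈ S, t j = angp W - dim (fixS W)` (`angp_eq`,
`finrank_fixS`).
-/

namespace Pool.Agent.H52.VC

open Finset Module
open Pool.Agent.H93.Hup (Inv MinInv)
open Pool.Agent.H82.CO (chi quadInv)

section

variable {V : Type} [NormedAddCommGroup V] [InnerProductSpace ℂ V] [FiniteDimensional ℂ V]

/-- the kernel of `inner e` meets a subspace in codimension at most one -/
private lemma ker_two (s : Submodule ℂ V) (e : V) :
    finrank ℂ s ≤ finrank ℂ (s ⊓ LinearMap.ker (innerₛₗ ℂ e) : Submodule ℂ V) + 1 := by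
  have h1 := Submodule.finrank_sup_add_finrank_inf_eq s (LinearMap.ker (innerₛₗ ℂ e))
  have h2 := LinearMap.finrank_range_add_finrank_ker (innerₛₗ ℂ e)
  have h3 : finrank ℂ (LinearMap.range (innerₛₗ ℂ e)) ≤ finrank ℂ ℂ := Submodule.finrank_le _
  rw [Module.finrank_self] at h3
  have h4 : finrank ℂ (s ⊔ LinearMap.ker (innerₛₗ ℂ e) : Submodule ℂ V) ≤ finrank ℂ V :=
    Submodule.finrank_le _
  omega

/-- the induction -/
private lemma ind_two (U : V →ₗ[ℂ] V) (hU : IsU U) (F : Submodule ℂ V) (hF : F ≤ fixS U)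
    {ι : Type} [Fintype ι] (b : OrthonormalBasis ι ℂ V) (t : ι → ℝ) (ht : ∀ j, 0 < t j ∧ t j ≤ 1)
    (S : Finset ι) :
    (∀ j ∈ S, t j < 1) → ∃ (W : V →ₗ[ℂ] V) (F' : Submodule ℂ V), IsU W ∧
      (∀ j ∈ S, W (b j) = ee (t j) • b j) ∧ (∀ j, j ∉ S → W (b j) = b j) ∧ F' ≤ F ∧
      (∀ x ∈ F', ∀ j ∈ S, inner ℂ (b j) x = 0) ∧
      angp (U ∘ₗ W) + finrank ℂ F ≤ angp U + ∑ j ∈ S, t j + finrank ℂ F' := by
  classical
  refine Finset.induction_on S ?_ ?_
  · intro _
    refine ⟨LinearMap.id, F, fun x y => rfl, ?_, fun j _ => rfl, le_rfl, ?_, ?_⟩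
    · intro j hj
      exact absurd hj (Finset.notMem_empty j)
    · intro x _ j hj
      exact absurd hj (Finset.notMem_empty j)
    · rw [LinearMap.comp_id, Finset.sum_empty, add_zero]
  · intro j S hjS ih hS
    obtain ⟨W, F', hW, hWS, hWn, hF'F, hF'S, hle⟩ := ih fun i hi => hS i (Finset.mem_insert_of_mem hi)
    have htj := hS j (Finset.mem_insert_self j S)
    have hbj : ‖b j‖ = 1 := b.orthonormal.1 j
    have hUW : IsU (U ∘ₗ W) := by
      intro x y
      rw [LinearMap.comp_apply, LinearMap.comp_apply, hU, hW]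
    have hnew : IsU (W ∘ₗ cref (b j) (t j)) := by
      intro x y
      rw [LinearMap.comp_apply, LinearMap.comp_apply, hW, isU_cref (b j) hbj (t j)]
    have hfix : ∀ x ∈ F', (U ∘ₗ W) x = x := by
      intro x hx
      have h1 : W x = x := by
        have h2 : x = ∑ i, inner ℂ (b i) x • b i := (b.sum_repr' x).symm
        rw [h2, map_sum]
        refine Finset.sum_congr rfl fun i _ => ?_
        rw [map_smul]
        by_cases hi : i ∈ S
        · rw [hF'S x hx i hi, zero_smul, zero_smul]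
        · rw [hWn i hi]
      rw [LinearMap.comp_apply, h1]
      exact hF (hF'F hx)
    have hin1 : inner ℂ (b j) (b j) = (1 : ℂ) := by
      have := (orthonormal_iff_ite.1 b.orthonormal) j j
      rwa [if_pos rfl] at this
    have hin0 : ∀ i, i ≠ j → inner ℂ (b j) (b i) = (0 : ℂ) := by
      intro i hi
      have := (orthonormal_iff_ite.1 b.orthonormal) j i
      rwa [if_neg (Ne.symm hi)] at this
    have hj1 : (W ∘ₗ cref (b j) (t j)) (b j) = ee (t j) • b j := by
      rw [LinearMap.comp_apply, cref_apply, hin1, mul_one, sub_smul, one_smul,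
        add_sub_cancel, map_smul, hWn j hjS]
    have hj0 : ∀ i, i ≠ j → (W ∘ₗ cref (b j) (t j)) (b i) = W (b i) := by
      intro i hi
      rw [LinearMap.comp_apply, cref_apply, hin0 i hi, mul_zero, zero_smul, add_zero]
    have hA : ∀ i ∈ insert j S, (W ∘ₗ cref (b j) (t j)) (b i) = ee (t i) • b i := by
      intro i hi
      by_cases hij : i = j
      · rw [hij]
        exact hj1
      · rw [hj0 i hij]
        exact hWS i ((Finset.mem_insert.1 hi).resolve_left hij)
    have hB : ∀ i, i ∉ insert j S → (W ∘ₗ cref (b j) (t j)) (b i) = b i := by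
      intro i hi
      rw [Finset.mem_insert, not_or] at hi
      rw [hj0 i hi.1]
      exact hWn i hi.2
    by_cases hc : ∃ v ∈ F', inner ℂ (b j) v ≠ 0
    · obtain ⟨v, hv, hbv⟩ := hc
      refine ⟨W ∘ₗ cref (b j) (t j), F' ⊓ LinearMap.ker (innerₛₗ ℂ (b j)), hnew, hA, hB,
        inf_le_left.trans hF'F, ?_, ?_⟩
      · intro x hx i hi
        obtain ⟨hx1, hx2⟩ := Submodule.mem_inf.1 hx
        rcases Finset.mem_insert.1 hi with hij | hi
        · rw [hij]
          exact LinearMap.mem_ker.1 hx2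
        · exact hF'S x hx1 i hi
      · have h1 := rk2 (U ∘ₗ W) hUW (b j) hbj (t j) (ht j).1 htj v (hfix v hv) hbv
        rw [LinearMap.comp_assoc] at h1
        have h2 : (finrank ℂ F' : ℝ) ≤
            finrank ℂ (F' ⊓ LinearMap.ker (innerₛₗ ℂ (b j)) : Submodule ℂ V) + 1 := by
          exact_mod_cast ker_two F' (b j)
        rw [Finset.sum_insert hjS]
        linarith
    · push Not at hc
      refine ⟨W ∘ₗ cref (b j) (t j), F', hnew, hA, hB, hF'F, ?_, ?_⟩
      · intro x hx i hi
        rcases Finset.mem_insert.1 hi with hij | hi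
        · rw [hij]
          exact hc x hx
        · exact hF'S x hx i hi
      · have h1 := rk1 (U ∘ₗ W) hUW (b j) hbj (t j) (ht j).1 htj
        rw [LinearMap.comp_assoc] at h1
        rw [Finset.sum_insert hjS]
        linarith

end

theorem two {V : Type} [NormedAddCommGroup V] [InnerProductSpace ℂ V] [FiniteDimensional ℂ V]
    (U W : V →ₗ[ℂ] V) (hU : IsU U) (hW : IsU W) (F : Submodule ℂ V) (hF : F ≤ fixS U) :
    angp (U ∘ₗ W) + finrank ℂ F ≤
      angp U + (angp W - finrank ℂ (fixS W)) + finrank ℂ (F ⊓ fixS W : Submodule ℂ V) := by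
  classical
  obtain ⟨b, t, ht, hb⟩ := udiag W hW
  obtain ⟨W', F', -, hWS, hWn, hF'F, hF'S, hle⟩ :=
    ind_two U hU F hF b t ht (univ.filter fun j => t j < 1) fun j hj => (Finset.mem_filter.1 hj).2
  have hWW : W' = W := by
    refine b.toBasis.ext fun j => ?_
    rw [OrthonormalBasis.coe_toBasis, hb j]
    by_cases hj : t j < 1
    · exact hWS j (Finset.mem_filter.2 ⟨Finset.mem_univ j, hj⟩)
    · have h1 : t j = 1 := le_antisymm (ht j).2 (not_lt.1 hj)
      have h2 : ee 1 = 1 := (ee_eq_one 1).2 ⟨1, by norm_num⟩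
      rw [hWn j fun h => hj (Finset.mem_filter.1 h).2, h1, h2, one_smul]
  rw [hWW] at hle
  have hb' : ∀ j, W (b.toBasis j) = ee (t j) • b.toBasis j := by
    intro j
    rw [OrthonormalBasis.coe_toBasis]
    exact hb j
  have h1 := angp_eq W b.toBasis t ht hb'
  have h2 := finrank_fixS W b.toBasis t ht hb'
  have h3 : ∑ j ∈ univ.filter (fun j => t j < 1), t j + (finrank ℂ (fixS W) : ℝ) = angp W := by
    rw [h1, h2, ← Finset.sum_filter_add_sum_filter_not univ (fun j => t j < 1) t]
    congr 1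
    have h4 : univ.filter (fun j => ¬ t j < 1) = univ.filter (fun j => t j = 1) := by
      refine Finset.filter_congr fun j _ => ?_
      constructor
      · intro h
        exact le_antisymm (ht j).2 (not_lt.1 h)
      · intro h
        rw [h]
        exact lt_irrefl 1
    rw [h4, Finset.card_eq_sum_ones, Nat.cast_sum]
    refine Finset.sum_congr rfl fun j hj => ?_
    rw [(Finset.mem_filter.1 hj).2, Nat.cast_one]
  have h5 : F' ≤ F ⊓ fixS W := by
    intro x hx
    refine Submodule.mem_inf.2 ⟨hF'F hx, ?_⟩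
    rw [mem_fixS]
    have h6 : x = ∑ i, inner ℂ (b i) x • b i := (b.sum_repr' x).symm
    rw [h6, map_sum]
    refine Finset.sum_congr rfl fun i _ => ?_
    rw [map_smul]
    by_cases hi : t i < 1
    · rw [hF'S x hx i (Finset.mem_filter.2 ⟨Finset.mem_univ i, hi⟩), zero_smul, zero_smul]
    · rw [← hWW, hWn i fun h => hi (Finset.mem_filter.1 h).2]
  have h7 : (finrank ℂ F' : ℝ) ≤ finrank ℂ (F ⊓ fixS W : Submodule ℂ V) := by
    exact_mod_cast Submodule.finrank_mono h5
  linarith

end Pool.Agent.H52.VC
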